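import Mathlib

/-!
# Weak Malle for A_4: definitions of the core (steps 2-9 of think 1027/1028, MP_b39724_nt)

`K` is any number field (the core does not need the cube roots of unity). Sizes are measured by all
the embeddings `φ : K →+* ℂ`: `‖φ x‖`. `nm x = ∏ φ, ‖φ x‖ = |N_{K/ℚ} x|`. The letters `s`, `t` are
`U^{1/3}`, `V^{1/3}` of the text (`t` is `s'`).
-/

open scoped NumberField

noncomputable section

namespace H88.A4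

/-- Two symmetric `2 × 2` matrices `b = (b1 b2; b2 b3)`, `c = (c1 c2; c2 c3)`. -/
@[ext] structure Blk (R : Type) where
  b1 : R
  b2 : R
  b3 : R
  c1 : R
  c2 : R
  c3 : R

/-- The third rows `p = (p1, p2)`, `q = (q1, q2)` (without the last entries). -/
@[ext] structure Row (R : Type) where
  p1 : R
  p2 : R
  q1 : R
  q2 : R

section alg

variable {R : Type} [CommRing R]

/-- `det b`. -/
def Blk.D1 (β : Blk R) : R := β.b1 * β.b3 - β.b2 ^ 2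

/-- The mixed discriminant of `b` and `c`. -/
def Blk.D2 (β : Blk R) : R := β.b1 * β.c3 + β.b3 * β.c1 - 2 * β.b2 * β.c2

/-- `det c`. -/
def Blk.D3 (β : Blk R) : R := β.c1 * β.c3 - β.c2 ^ 2

/-- `E = D1 D3 - D2 ^ 2`. -/
def Blk.E (β : Blk R) : R := β.D1 * β.D3 - β.D2 ^ 2

/-- The bilinear form of `adj b` at `(x1, x2)`, `(y1, y2)`. -/
def Blk.Ab (β : Blk R) (x1 x2 y1 y2 : R) : R :=
  β.b3 * x1 * y1 - β.b2 * (x1 * y2 + x2 * y1) + β.b1 * x2 * y2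

/-- The bilinear form of `adj c` at `(x1, x2)`, `(y1, y2)`. -/
def Blk.Ac (β : Blk R) (x1 x2 y1 y2 : R) : R :=
  β.c3 * x1 * y1 - β.c2 * (x1 * y2 + x2 * y1) + β.c1 * x2 * y2

/-- The four equations (1)-(4) of step 4 with `κ u`, `κ v` written `u`, `v`: the determinant of
`λ B + μ C` is `u λ ^ 3 + v μ ^ 3`, where `B`, `C` are the symmetric `3 × 3` matrices with blocks
`b`, `c`, third rows `(p, r)`, `(q, r')`. -/
structure Sol (β : Blk R) (π : Row R) (r r' u v : R) : Prop where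
  e1 : r * β.D1 - β.Ab π.p1 π.p2 π.p1 π.p2 = u
  e2 : r * β.D2 + r' * β.D1 = β.Ac π.p1 π.p2 π.p1 π.p2 + 2 * β.Ab π.p1 π.p2 π.q1 π.q2
  e3 : r * β.D3 + r' * β.D2 = β.Ab π.q1 π.q2 π.q1 π.q2 + 2 * β.Ac π.p1 π.p2 π.q1 π.q2
  e4 : r' * β.D3 - β.Ac π.q1 π.q2 π.q1 π.q2 = v

/-- First coordinate of `η_b = c adj(b) p - D1 q`. -/
def Blk.eb1 (β : Blk R) (π : Row R) : R :=
  β.c1 * (β.b3 * π.p1 - β.b2 * π.p2) + β.c2 * (β.b1 * π.p2 - β.b2 * π.p1) - β.D1 * π.q1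

/-- Second coordinate of `η_b = c adj(b) p - D1 q`. -/
def Blk.eb2 (β : Blk R) (π : Row R) : R :=
  β.c2 * (β.b3 * π.p1 - β.b2 * π.p2) + β.c3 * (β.b1 * π.p2 - β.b2 * π.p1) - β.D1 * π.q2

/-- First coordinate of `η_c = b adj(c) q - D3 p`. -/
def Blk.ec1 (β : Blk R) (π : Row R) : R :=
  β.b1 * (β.c3 * π.q1 - β.c2 * π.q2) + β.b2 * (β.c1 * π.q2 - β.c2 * π.q1) - β.D3 * π.p1

/-- Second coordinate of `η_c = b adj(c) q - D3 p`. -/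
def Blk.ec2 (β : Blk R) (π : Row R) : R :=
  β.b2 * (β.c3 * π.q1 - β.c2 * π.q2) + β.b3 * (β.c1 * π.q2 - β.c2 * π.q1) - β.D3 * π.p2

/-- The bracket `[π, π']`: the determinant of the `4 × 4` matrix with columns
`(b1, b2, c1, c2)`, `(b2, b3, c2, c3)`, `π`, `π'`. -/
def Blk.br (β : Blk R) (π π' : Row R) : R :=
  β.D1 * (π.q1 * π'.q2 - π.q2 * π'.q1)
    - (β.b1 * β.c2 - β.b2 * β.c1) * (π.p2 * π'.q2 - π.q2 * π'.p2)
    + (β.b1 * β.c3 - β.b2 * β.c2) * (π.p2 * π'.q1 - π.q1 * π'.p2)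
    + (β.b2 * β.c2 - β.b3 * β.c1) * (π.p1 * π'.q2 - π.q2 * π'.p1)
    - (β.b2 * β.c3 - β.b3 * β.c2) * (π.p1 * π'.q1 - π.q1 * π'.p1)
    + β.D3 * (π.p1 * π'.p2 - π.p2 * π'.p1)

/-- All entries satisfy a property. -/
def Blk.All (P : R → Prop) (β : Blk R) : Prop :=
  P β.b1 ∧ P β.b2 ∧ P β.b3 ∧ P β.c1 ∧ P β.c2 ∧ P β.c3

/-- All entries satisfy a property. -/
def Row.All (P : R → Prop) (π : Row R) : Prop := P π.p1 ∧ P π.p2 ∧ P π.q1 ∧ P π.q2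

end alg

section fields

variable {K : Type} [Field K] [NumberField K]

/-- `|N_{K/ℚ} x|` as a real number. -/
def nm (x : K) : ℝ := ∏ φ : K →+* ℂ, ‖φ x‖

/-- `|x|_φ ≤ H` for all embeddings. -/
def Bd (H : ℝ) (x : 𝓞 K) : Prop := ∀ φ : K →+* ℂ, ‖φ (x : K)‖ ≤ H

/-- Admissible pairs `(u, v)` of sizes `s ^ 3`, `t ^ 3`: squarefree and coprime up to `M`. -/
structure Adm (M : ℕ) (C s t : ℝ) (u v : 𝓞 K) : Prop where
  u0 : u ≠ 0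
  v0 : v ≠ 0
  ule : ∀ φ : K →+* ℂ, ‖φ (u : K)‖ ≤ C * s ^ 3
  uge : ∀ φ : K →+* ℂ, s ^ 3 ≤ C * ‖φ (u : K)‖
  vle : ∀ φ : K →+* ℂ, ‖φ (v : K)‖ ≤ C * t ^ 3
  vge : ∀ φ : K →+* ℂ, t ^ 3 ≤ C * ‖φ (v : K)‖
  squ : ∀ I : Ideal (𝓞 K), I ^ 2 ∣ Ideal.span {u} → I ∣ Ideal.span {(M : 𝓞 K)}
  sqv : ∀ I : Ideal (𝓞 K), I ^ 2 ∣ Ideal.span {v} → I ∣ Ideal.span {(M : 𝓞 K)}
  cop : (M : 𝓞 K) ∈ Ideal.span {u, v}

/-- The sizes of the blocks of a reduced basis (steps 2, 3). -/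
structure Sz (C s t ρ1 ρ2 : ℝ) (β : Blk (𝓞 K)) : Prop where
  sb1 : Bd (C * s * ρ1 ^ 2) β.b1
  sb2 : Bd (C * s * (ρ1 * ρ2)) β.b2
  sb3 : Bd (C * s * ρ2 ^ 2) β.b3
  sc1 : Bd (C * t * ρ1 ^ 2) β.c1
  sc2 : Bd (C * t * (ρ1 * ρ2)) β.c2
  sc3 : Bd (C * t * ρ2 ^ 2) β.c3

/-- `D̃_φ = max(|D1|/s², |D2|/(st), |D3|/t²)` at the embedding `φ`. -/
def Dt (s t : ℝ) (β : Blk (𝓞 K)) (φ : K →+* ℂ) : ℝ :=
  max (‖φ (β.D1 : K)‖ / s ^ 2) (max (‖φ (β.D2 : K)‖ / (s * t)) (‖φ (β.D3 : K)‖ / t ^ 2))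

/-- `(u, v)` is represented by the block `β` with entries of the third rows of size at most `H`. -/
def Rep (H : ℝ) (β : Blk (𝓞 K)) (u v : 𝓞 K) : Prop :=
  ∃ (π : Row (𝓞 K)) (r r' : 𝓞 K), π.All (Bd H) ∧ Sol β π r r' u v

end fields

end H88.A4
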