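import Pool.Agent.H88.A4.Defs
import Pool.Agent.H63.W1.GeoC

/-!
# Weak Malle for A_4: counting in number fields, (F1)-(F6)

STATEMENTS used by all chapters of the core; proofs: chapter GEO (helper77). Sizes are measured by
the embeddings `φ : K →+* ℂ`; `nm x = ∏ φ, ‖φ x‖`; `d = [K : ℚ]`.
-/

open scoped NumberField

noncomputable section

namespace H88.A4

variable (K : Type) [Field K] [NumberField K]

/-- (F1) A finite set whose distinct elements differ by norm at least `ν` and by at most `R φ` at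
every embedding has at most `C (1 + ∏ R / ν)` elements. (Proof: replace `R φ` by
`√(R φ R φ̄)`, balance by a unit, cut the cube into small cubes.) It covers elements of `𝓞 K`
(`ν = 1`), of an ideal `I` (`ν = N I`), of a fractional ideal, boxes with any centre. -/
theorem box_card : ∃ C : ℝ, 0 < C ∧ ∀ ν : ℝ, 0 < ν → ∀ R : (K →+* ℂ) → ℝ, (∀ φ, 0 < R φ) →
    ∀ S : Finset K, (∀ x ∈ S, ∀ y ∈ S, x ≠ y → ν ≤ nm (x - y)) →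
      (∀ x ∈ S, ∀ y ∈ S, ∀ φ : K →+* ℂ, ‖φ (x - y)‖ ≤ R φ) →
      (S.card : ℝ) ≤ C * (1 + (∏ φ, R φ) / ν) := Pool.H63.W1.box_card K

/-- (F2) Balancing by units. -/
theorem unit_bal (e : ℕ) (he : e ≠ 0) : ∃ C : ℝ, 0 < C ∧ ∀ R : (K →+* ℂ) → ℝ, (∀ φ, 0 < R φ) →
    (∀ φ, R (NumberField.ComplexEmbedding.conjugate φ) = R φ) →
    ∃ ε : (𝓞 K)ˣ, ∀ φ : K →+* ℂ,
      ‖φ ((ε : 𝓞 K) : K)‖ ^ e * R φ ≤ C * (∏ ψ, R ψ) ^ (1 / (Module.finrank ℚ K : ℝ)) ∧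
      (∏ ψ, R ψ) ^ (1 / (Module.finrank ℚ K : ℝ)) ≤ C * (‖φ ((ε : 𝓞 K) : K)‖ ^ e * R φ) :=
  Pool.H63.W1.unit_bal K e he

/-- (F1') Elements of bounded norm in a large box. -/
theorem norm_card : ∃ (C : ℝ) (k : ℕ), 0 < C ∧ ∀ N H : ℝ, 1 ≤ N → 1 ≤ H → ∀ S : Finset (𝓞 K),
    (∀ x ∈ S, x ≠ 0 ∧ nm (x : K) ≤ N ∧ Bd H x) → (S.card : ℝ) ≤ C * N * (1 + Real.log H) ^ k :=
  Pool.H63.W1.norm_card K

/-- (F4) Sums of negative powers of the norm, `0 ≤ a ≤ 1`. -/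
theorem norm_sum (a : ℝ) (ha : 0 ≤ a) (ha' : a ≤ 1) : ∃ (C : ℝ) (k : ℕ), 0 < C ∧
    ∀ H : ℝ, 1 ≤ H → ∀ S : Finset (𝓞 K), (∀ x ∈ S, x ≠ 0 ∧ Bd H x) →
      ∑ x ∈ S, nm (x : K) ^ (-a) ≤
        C * H ^ ((1 - a) * (Module.finrank ℚ K : ℝ)) * (1 + Real.log H) ^ k :=
  Pool.H63.W1.norm_sum K a ha ha'

/-- (F3) Factorisations `x y = n` in a box. -/
theorem div_pairs (ε : ℝ) (hε : 0 < ε) : ∃ C : ℝ, 0 < C ∧ ∀ H : ℝ, 1 ≤ H → ∀ n : 𝓞 K, n ≠ 0 →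
    ∀ S : Finset (𝓞 K × 𝓞 K), (∀ x ∈ S, x.1 * x.2 = n ∧ Bd H x.1 ∧ Bd H x.2) →
      (S.card : ℝ) ≤ C * H ^ ε := Pool.H63.W1.div_pairs K ε hε

/-- (F5) The divisor bound for ideals, uniform in fields of bounded degree. -/
theorem ideal_div (D : ℕ) (ε : ℝ) (hε : 0 < ε) : ∃ C : ℝ, 0 < C ∧
    ∀ (L : Type) [Field L] [NumberField L], Module.finrank ℚ L ≤ D →
    ∀ I : Ideal (𝓞 L), I ≠ ⊥ → ∀ S : Finset (Ideal (𝓞 L)), (∀ J ∈ S, J ∣ I) →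
      (S.card : ℝ) ≤ C * (Ideal.absNorm I : ℝ) ^ ε := Pool.H63.W1.ideal_div D ε hε

/-- (F6) Number of ideals of bounded norm. -/
theorem ideal_card : ∃ C : ℝ, 0 < C ∧ ∀ N : ℝ, 1 ≤ N → ∀ S : Finset (Ideal (𝓞 K)),
    (∀ I ∈ S, I ≠ ⊥ ∧ (Ideal.absNorm I : ℝ) ≤ N) → (S.card : ℝ) ≤ C * N :=
  Pool.H63.W1.ideal_card K

/-- `nm` is the absolute norm. -/
theorem nm_eq (x : 𝓞 K) : nm (x : K) = (Ideal.absNorm (Ideal.span {x}) : ℝ) :=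
  Pool.H63.W1.nm_absNorm x

theorem nm_mul (x y : K) : nm (x * y) = nm x * nm y := by
  simp [nm, Finset.prod_mul_distrib]

theorem one_le_nm (x : 𝓞 K) (hx : x ≠ 0) : 1 ≤ nm (x : K) := Pool.H63.W1.nm_one_le x hx

end H88.A4
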