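import Pool.Agent.H88.A4.Defs

/-!
# Weak Malle for A_4: the interface between the chapters of the core

Every chapter of the core (think 1027/1028, MP_b39724_nt) delivers one of the statements below.
`K` is any number field; `d = [K : ℚ]`. All constants depend on `K` and on the parameters quantified
before them only.
-/

open scoped NumberField nonZeroDivisors

noncomputable section

namespace H88.A4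

variable (K : Type) [Field K] [NumberField K]

/-- STEP 5(a) with 4.4: finite places. `cl` is a class function with few values; in a class the
bracket is divisible by `E`, up to `gb gc` (the primes of `gcd(D1, D2, D3)`) and a fixed `m2`. -/
def LocStmt : Prop :=
  ∀ M : ℕ, M ≠ 0 → ∃ m2 : ℕ, m2 ≠ 0 ∧ ∀ ε : ℝ, 0 < ε → ∃ C' : ℝ, 0 < C' ∧
    ∀ H : ℝ, 1 ≤ H → ∀ β : Blk (𝓞 K), β.E ≠ 0 → β.D1 ≠ 0 → β.All (Bd H) →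
      ∃ gb gc : Ideal (𝓞 K), Squarefree gb ∧ Squarefree gc ∧ IsCoprime gb gc ∧
        (β.b1 ∈ gb ∧ β.b2 ∈ gb ∧ β.b3 ∈ gb) ∧
        (β.c1 ∈ gc ∧ β.c2 ∈ gc ∧ β.c3 ∈ gc ∧ β.D1 ∈ gc) ∧
        ∃ cl : Row (𝓞 K) → ℕ, (∀ π, (cl π : ℝ) ≤ C' * H ^ ε) ∧
          ∀ (C s t : ℝ) (u v u' v' r r' ρ ρ' : 𝓞 K) (π π' : Row (𝓞 K)),
            Adm M C s t u v → Sol β π r r' u v → Adm M C s t u' v' → Sol β π' ρ ρ' u' v' →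
            cl π = cl π' → ∀ x ∈ gb * gc, β.E ∣ (m2 : 𝓞 K) * x * β.br π π'

/-- STEP 5, completions lemma. -/
def CompletionsStmt : Prop :=
  ∀ M : ℕ, M ≠ 0 → ∀ C : ℝ, 1 ≤ C → ∀ ε : ℝ, 0 < ε → ∃ C' : ℝ, 0 < C' ∧
    ∀ s t H : ℝ, 0 < s → 0 < t → s ≤ H → t ≤ H → 1 ≤ H →
    ∀ β : Blk (𝓞 K), β.E ≠ 0 → β.D1 ≠ 0 → β.All (Bd H) →
      ∃ gb gc : Ideal (𝓞 K), Squarefree gb ∧ Squarefree gc ∧ IsCoprime gb gc ∧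
        (β.b1 ∈ gb ∧ β.b2 ∈ gb ∧ β.b3 ∈ gb) ∧
        (β.c1 ∈ gc ∧ β.c2 ∈ gc ∧ β.c3 ∈ gc ∧ β.D1 ∈ gc) ∧
        ∀ S : Finset (𝓞 K × 𝓞 K), (∀ x ∈ S, Adm M C s t x.1 x.2 ∧ Rep H β x.1 x.2) →
          (S.card : ℝ) ≤ C' * H ^ ε *
            (1 + Ideal.absNorm gb * Ideal.absNorm gc * ∏ φ : K →+* ℂ, Dt s t β φ ^ (-(3 / 2) : ℝ))

/-- The sizes of the main case: `ρ1 ≤ ρ2`, `ρ1 ≤ C`, `ρ1 ρ2 ^ 2 ≤ C`. -/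
def Rho (C ρ1 ρ2 : ℝ) : Prop := 0 < ρ1 ∧ ρ1 ≤ ρ2 ∧ ρ1 ≤ C ∧ ρ1 * ρ2 ^ 2 ≤ C

/-- The range of the sizes: `1 ≤ C t`, `t ≤ s`. -/
def Rg (C s t : ℝ) : Prop := 1 ≤ C * t ∧ t ≤ s

/-- The polynomial bound of all entries. -/
def Hp (C : ℝ) (A : ℕ) (s : ℝ) : ℝ := (C * (1 + s)) ^ A

variable {K} in
/-- Case 1 (main case) for the block `β`. -/
def Main (C s t ρ1 ρ2 : ℝ) (β : Blk (𝓞 K)) : Prop :=
  Sz C s t ρ1 ρ2 β ∧ ¬ (β.b1 = 0 ∧ β.c1 = 0) ∧ β.D1 ≠ 0 ∧ β.D3 ≠ 0 ∧ β.E ≠ 0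

variable {K} in
/-- Case 2 (`D3 = 0`) for the block `β`. -/
def Deg (C s t : ℝ) (β : Blk (𝓞 K)) : Prop :=
  β.c1 = 0 ∧ β.c2 = 0 ∧ β.c3 ≠ 0 ∧ β.b1 ≠ 0 ∧ β.D1 ≠ 0 ∧
    (∀ φ : K →+* ℂ, ‖φ (β.b2 : K)‖ ≤ C * ‖φ (β.b1 : K)‖) ∧
    Bd (C * s ^ 2) β.D1 ∧ Bd (C * (s * t)) (β.b1 * β.c3)

variable {K} in
/-- Case 3 (`E = 0`) for the block `β`. -/
def EZ (C s t : ℝ) (β : Blk (𝓞 K)) : Prop :=
  β.E = 0 ∧ β.D1 ≠ 0 ∧ β.D3 ≠ 0 ∧ Bd (C * s ^ 2) β.D1 ∧ Bd (C * t ^ 2) β.D3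

/-- STEP 7: the count of the main case. -/
def MainStmt : Prop :=
  ∀ M : ℕ, M ≠ 0 → ∀ C : ℝ, 1 ≤ C → ∀ A : ℕ, ∀ ε : ℝ, 0 < ε → ∃ C' : ℝ, 0 < C' ∧
    ∀ s t ρ1 ρ2 : ℝ, Rg C s t → Rho C ρ1 ρ2 → ∀ S : Finset (𝓞 K × 𝓞 K × Blk (𝓞 K)),
      (∀ x ∈ S, Adm M C s t x.1 x.2.1 ∧ Main C s t ρ1 ρ2 x.2.2 ∧ x.2.2.All (Bd (Hp C A s)) ∧
        Rep (Hp C A s) x.2.2 x.1 x.2.1) →
      (S.card : ℝ) ≤ C' * (s * t) ^ (3 * (Module.finrank ℚ K : ℝ) + ε)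

/-- STEP 8: the count of the case `D3 = 0`. -/
def DegStmt : Prop :=
  ∀ M : ℕ, M ≠ 0 → ∀ C : ℝ, 1 ≤ C → ∀ A : ℕ, ∀ ε : ℝ, 0 < ε → ∃ C' : ℝ, 0 < C' ∧
    ∀ s t : ℝ, Rg C s t → ∀ S : Finset (𝓞 K × 𝓞 K × Blk (𝓞 K)),
      (∀ x ∈ S, Adm M C s t x.1 x.2.1 ∧ Deg C s t x.2.2 ∧ x.2.2.All (Bd (Hp C A s)) ∧
        Rep (Hp C A s) x.2.2 x.1 x.2.1) →
      (S.card : ℝ) ≤ C' * (s * t) ^ (3 * (Module.finrank ℚ K : ℝ) + ε)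

variable {K} in
/-- The conditions on `(u, v, p, q)` in step 9: `η = p t1 + q t2`, `n = v p ^ 3 + u q ^ 3`. -/
def PQ (M : ℕ) (C s t : ℝ) (u v p q : 𝓞 K) : Prop :=
  p ≠ 0 ∧ q ≠ 0 ∧ Bd (C * s) p ∧ Bd (C * t) q ∧ (M : 𝓞 K) ∈ Ideal.span {p, q} ∧
    v * p ^ 3 + u * q ^ 3 ≠ 0 ∧
    ∃ b0 g1 g2 m : Ideal (𝓞 K), Ideal.span {v * p ^ 3 + u * q ^ 3} = b0 * g1 * g2 * m ^ 2 ∧
      b0 ∣ Ideal.span {(M : 𝓞 K)} ∧ p ∈ g1 ∧ q ∈ g2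

/-- STEP 9, the count: `(u, v, p, q)`. -/
def EZeroStmt : Prop :=
  ∀ M : ℕ, M ≠ 0 → ∀ C : ℝ, 1 ≤ C → ∀ ε : ℝ, 0 < ε → ∃ C' : ℝ, 0 < C' ∧
    ∀ s t : ℝ, Rg C s t → ∀ S : Finset (𝓞 K × 𝓞 K × 𝓞 K × 𝓞 K),
      (∀ x ∈ S, Adm M C s t x.1 x.2.1 ∧ PQ M C s t x.1 x.2.1 x.2.2.1 x.2.2.2) →
      (S.card : ℝ) ≤ C' * (s * t) ^ (3 * (Module.finrank ℚ K : ℝ) + ε)

variable {K} in
/-- `F = K(t1)`, `t1 ^ 3 = u v ^ 2`, `t1 t2 = u v`, of degree three; `a` is nonzero with square norm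
and `(a)` is the square of a fractional ideal. -/
structure Dat (F : Type) [Field F] [NumberField F] [Algebra K F] (u v : 𝓞 K) (t1 t2 a : F) :
    Prop where
  deg : Module.finrank K F = 3
  gen : IntermediateField.adjoin K {t1} = ⊤
  cub : t1 ^ 3 = algebraMap K F ((u : K) * (v : K) ^ 2)
  prd : t1 * t2 = algebraMap K F ((u : K) * (v : K))
  a0 : a ≠ 0
  nsq : IsSquare (Algebra.norm K a)
  isq : ∃ J : FractionalIdeal (𝓞 F)⁰ F, FractionalIdeal.spanSingleton (𝓞 F)⁰ a = J ^ 2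

/-- `z = u v D2 - u D3 t1 - v D1 t2`: `a z` is a square. -/
def zz {K F : Type} [Field K] [NumberField K] [Field F] [Algebra K F] (u v : 𝓞 K) (t1 t2 : F)
    (β : Blk (𝓞 K)) : F :=
  algebraMap K F ((u * v * β.D2 : 𝓞 K) : K) - algebraMap K F ((u * β.D3 : 𝓞 K) : K) * t1
    - algebraMap K F ((v * β.D1 : 𝓞 K) : K) * t2

/-- STEPS 2, 3, 6: reduction. Every nontrivial `a` over an admissible `(u, v)` comes from a block of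
one of the three cases, for `(u', v') = κ (u, v)`, `κ` bounded, or `s ≤ s0` (fourth case: all entries
are bounded). -/
def ReductionStmt : Prop :=
  ∀ M : ℕ, M ≠ 0 → ∀ C : ℝ, 1 ≤ C → ∃ (M' A : ℕ) (C' s0 : ℝ), M' ≠ 0 ∧ 1 ≤ C' ∧
    ∀ s t : ℝ, Rg C s t → ∀ u v : 𝓞 K, Adm M C s t u v →
    ∀ (F : Type) [Field F] [NumberField F] [Algebra K F] (t1 t2 a : F), Dat F u v t1 t2 a →
      ¬ IsSquare a → ∃ (k m u' v' : 𝓞 K) (β : Blk (𝓞 K)),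
        k ≠ 0 ∧ m ≠ 0 ∧ Bd C' k ∧ Bd C' m ∧ m * u' = k * u ∧ m * v' = k * v ∧
        Adm M' C' s t u' v' ∧ β.All (Bd (Hp C' A s)) ∧ Rep (Hp C' A s) β u' v' ∧
        zz u v t1 t2 β ≠ 0 ∧ IsSquare (a * zz u v t1 t2 β) ∧
        ((∃ ρ1 ρ2 : ℝ, Rho C' ρ1 ρ2 ∧ Main C' s t ρ1 ρ2 β) ∨ Deg C' s t β ∨ EZ C' s t β ∨ s ≤ s0)

/-- STEP 9, the algebra: a block with `E = 0` gives `p`, `q` with `a N(η) η` a square. -/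
def EZeroAlgStmt : Prop :=
  ∀ M M' : ℕ, M ≠ 0 → M' ≠ 0 → ∀ C : ℝ, 1 ≤ C → ∃ (M'' : ℕ) (C'' : ℝ), M'' ≠ 0 ∧ 1 ≤ C'' ∧
    ∀ s t : ℝ, Rg C s t → ∀ u v : 𝓞 K, Adm M C s t u v →
    ∀ (F : Type) [Field F] [NumberField F] [Algebra K F] (t1 t2 a : F), Dat F u v t1 t2 a →
    ∀ (u' v' k m : 𝓞 K) (β : Blk (𝓞 K)), k ≠ 0 → m ≠ 0 → Bd C k → Bd C m →
      m * u' = k * u → m * v' = k * v → Adm M' C s t u' v' → (∃ H, Rep H β u' v') →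
      IsSquare (a * zz u v t1 t2 β) → EZ C s t β →
      ∃ p q : 𝓞 K, PQ M'' C'' s t u v p q ∧
        IsSquare (a * algebraMap K F ((u * v * (v * p ^ 3 + u * q ^ 3) : 𝓞 K) : K) *
          (algebraMap K F (p : K) * t1 + algebraMap K F (q : K) * t2))

end H88.A4
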