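import Pool.Agent.H88.A4.IfRed

/-!
# Weak Malle for A_4, STAGE 2: every number field (think 1053)

`k` is a number field, `M / k` a quadratic extension with involution `τ` (for `A_4`: `M = k(ζ₃)`,
`ζ₃ ∉ k`). `F / k` is a cubic extension such that `F M = M(t1)`, `t1 ^ 3 = u τ(u) ^ 2`. All blocks are
over `𝓞 M` with `c = τ(b)`, `q = τ(p)`, sizes `s = t`. `d = [k : ℚ]`, `[M : ℚ] = 2 d`.
-/

open scoped NumberField nonZeroDivisors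

noncomputable section

namespace H88.A4

variable (k M : Type) [Field k] [NumberField k] [Field M] [NumberField M] [Algebra k M]

/-- The involution of the quadratic extension `M / k`. -/
structure Invo (τ : M ≃ₐ[k] M) : Prop where
  deg : Module.finrank k M = 2
  inv : ∀ x : M, τ (τ x) = x
  fix : ∀ x : M, τ x = x ↔ x ∈ (algebraMap k M).range

variable {k M}

/-- `τ` on the integers of `M`. -/
def tO (τ : M ≃ₐ[k] M) (x : 𝓞 M) : 𝓞 M := ⟨τ x, map_isIntegral_int τ x.2⟩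

theorem tO_coe (τ : M ≃ₐ[k] M) (x : 𝓞 M) : ((tO τ x : 𝓞 M) : M) = τ x := rfl

/-- `c = τ(b)`. -/
def Blk.Cj (τ : M ≃ₐ[k] M) (β : Blk (𝓞 M)) : Prop :=
  β.c1 = tO τ β.b1 ∧ β.c2 = tO τ β.b2 ∧ β.c3 = tO τ β.b3

/-- `q = τ(p)`. -/
def Row.Cj (τ : M ≃ₐ[k] M) (π : Row (𝓞 M)) : Prop := π.q1 = tO τ π.p1 ∧ π.q2 = tO τ π.p2

/-- `u` is represented by the block `β`, with conjugate rows. -/
def Rep2 (τ : M ≃ₐ[k] M) (H : ℝ) (β : Blk (𝓞 M)) (u : 𝓞 M) : Prop :=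
  ∃ (π : Row (𝓞 M)) (r r' : 𝓞 M), π.Cj τ ∧ π.All (Bd H) ∧ Sol β π r r' u (tO τ u)

variable (k M)

/-- STEP 5', completions lemma over `k`. -/
def Completions2Stmt : Prop :=
  ∀ τ : M ≃ₐ[k] M, Invo k M τ → ∀ m : ℕ, m ≠ 0 → ∀ C : ℝ, 1 ≤ C → ∀ ε : ℝ, 0 < ε →
    ∃ C' : ℝ, 0 < C' ∧ ∀ s H : ℝ, 0 < s → s ≤ H → 1 ≤ H →
    ∀ β : Blk (𝓞 M), β.Cj τ → β.E ≠ 0 → β.D1 ≠ 0 → β.All (Bd H) →
      ∃ g : Ideal (𝓞 M), Squarefree g ∧ (β.b1 ∈ g ∧ β.b2 ∈ g ∧ β.b3 ∈ g) ∧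
        ∀ S : Finset (𝓞 M), (∀ u ∈ S, Adm m C s s u (tO τ u) ∧ Rep2 τ H β u) →
          (S.card : ℝ) ≤ C' * H ^ ε *
            (1 + Ideal.absNorm g * ∏ φ : M →+* ℂ, Dt s s β φ ^ (-(3 / 4) : ℝ))

variable {k M} in
/-- The main case for a conjugate block. -/
def Main2 (τ : M ≃ₐ[k] M) (C s ρ1 ρ2 : ℝ) (β : Blk (𝓞 M)) : Prop :=
  Sz C s s ρ1 ρ2 β ∧ β.Cj τ ∧ β.b1 ≠ 0 ∧ β.D1 ≠ 0 ∧ β.E ≠ 0

variable {k M} in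
/-- The case `E = 0` for a conjugate block. -/
def EZ2 (τ : M ≃ₐ[k] M) (C s : ℝ) (β : Blk (𝓞 M)) : Prop :=
  β.E = 0 ∧ β.Cj τ ∧ β.D1 ≠ 0 ∧ Bd (C * s ^ 2) β.D1

/-- STEP 7': the count of the main case. -/
def Main2Stmt : Prop :=
  ∀ τ : M ≃ₐ[k] M, Invo k M τ → ∀ m : ℕ, m ≠ 0 → ∀ C : ℝ, 1 ≤ C → ∀ A : ℕ, ∀ ε : ℝ, 0 < ε →
    ∃ C' : ℝ, 0 < C' ∧ ∀ s ρ1 ρ2 : ℝ, 1 ≤ C * s → Rho C ρ1 ρ2 →
    ∀ S : Finset (𝓞 M × Blk (𝓞 M)),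
      (∀ x ∈ S, Adm m C s s x.1 (tO τ x.1) ∧ Main2 τ C s ρ1 ρ2 x.2 ∧ x.2.All (Bd (Hp C A s)) ∧
        Rep2 τ (Hp C A s) x.2 x.1) →
      (S.card : ℝ) ≤ C' * s ^ (6 * (Module.finrank ℚ k : ℝ) + ε)

variable {k M} in
/-- The conditions on `(u, p)` in step 9'; `q = ± τ(p)`, `n = v p ^ 3 + u q ^ 3`, `v = τ(u)`. -/
def PQ2 (τ : M ≃ₐ[k] M) (m : ℕ) (C s : ℝ) (u p q : 𝓞 M) : Prop :=
  p ≠ 0 ∧ (q = tO τ p ∨ q = -tO τ p) ∧ Bd (C * s) p ∧ (m : 𝓞 M) ∈ Ideal.span {p, q} ∧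
    tO τ u * p ^ 3 + u * q ^ 3 ≠ 0 ∧
    ∃ b0 g1 g2 I : Ideal (𝓞 M), Ideal.span {tO τ u * p ^ 3 + u * q ^ 3} = b0 * g1 * g2 * I ^ 2 ∧
      b0 ∣ Ideal.span {(m : 𝓞 M)} ∧ p ∈ g1 ∧ q ∈ g2

/-- STEP 9', the count. -/
def EZero2Stmt : Prop :=
  ∀ τ : M ≃ₐ[k] M, Invo k M τ → ∀ m : ℕ, m ≠ 0 → ∀ C : ℝ, 1 ≤ C → ∀ ε : ℝ, 0 < ε →
    ∃ C' : ℝ, 0 < C' ∧ ∀ s : ℝ, 1 ≤ C * s → ∀ S : Finset (𝓞 M × 𝓞 M × 𝓞 M),
      (∀ x ∈ S, Adm m C s s x.1 (tO τ x.1) ∧ PQ2 τ m C s x.1 x.2.1 x.2.2) →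
      (S.card : ℝ) ≤ C' * s ^ (6 * (Module.finrank ℚ k : ℝ) + ε)

variable {k M} in
/-- `F / k` cubic, `F' ⊇ F, M` with `F' = M(t1)`, `t1 ^ 3 = u τ(u) ^ 2`, `t1 t2 = u τ(u)`; elements
of `F` have coordinates `z0 = τ(z0)`, `z2 = τ(z1)`; `a` in `F` nonzero with square norm to `k` and
`(a)` the square of a fractional ideal of `F`. -/
structure Dat2 (τ : M ≃ₐ[k] M) (F F' : Type) [Field F] [NumberField F] [Algebra k F] [Field F']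
    [NumberField F'] [Algebra k F'] [Algebra M F'] [Algebra F F'] [IsScalarTower k M F']
    [IsScalarTower k F F'] (u : 𝓞 M) (t1 t2 : F') (a : F) : Prop where
  deg : Module.finrank k F = 3
  deg' : Module.finrank M F' = 3
  gen : IntermediateField.adjoin M {t1} = ⊤
  cub : t1 ^ 3 = algebraMap M F' ((u : M) * (tO τ u : M) ^ 2)
  prd : t1 * t2 = algebraMap M F' ((u : M) * (tO τ u : M))
  cnj : ∀ (z : F) (z0 z1 z2 : M), algebraMap F F' z =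
    algebraMap M F' z0 + algebraMap M F' z1 * t1 + algebraMap M F' z2 * t2 →
      τ z0 = z0 ∧ z2 = τ z1
  ind : ∀ x : Fin 3 → F, LinearIndependent k x → LinearIndependent M fun i => algebraMap F F' (x i)
  a0 : a ≠ 0
  nsq : IsSquare (Algebra.norm k a)
  nsq' : IsSquare (Algebra.norm M (algebraMap F F' a))
  isq : ∃ J : FractionalIdeal (𝓞 F)⁰ F, FractionalIdeal.spanSingleton (𝓞 F)⁰ a = J ^ 2

/-- STEPS 2', 3', 6': reduction over `k`. The third case: `s` bounded. -/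
def Reduction2Stmt : Prop :=
  ∀ τ : M ≃ₐ[k] M, Invo k M τ → ∀ m : ℕ, m ≠ 0 → ∀ C : ℝ, 1 ≤ C →
    ∃ (m' A : ℕ) (C' s0 : ℝ), m' ≠ 0 ∧ 1 ≤ C' ∧
    ∀ s : ℝ, 1 ≤ C * s → ∀ u : 𝓞 M, Adm m C s s u (tO τ u) →
    ∀ (F F' : Type) [Field F] [NumberField F] [Algebra k F] [Field F'] [NumberField F']
      [Algebra k F'] [Algebra M F'] [Algebra F F'] [IsScalarTower k M F'] [IsScalarTower k F F']
      (t1 t2 : F') (a : F), Dat2 τ F F' u t1 t2 a →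
      ¬ IsSquare (algebraMap F F' a) → ∃ (κ l u' : 𝓞 M) (β : Blk (𝓞 M)),
        κ ≠ 0 ∧ l ≠ 0 ∧ Bd C' κ ∧ Bd C' l ∧ l * u' = κ * u ∧ l * tO τ u' = κ * tO τ u ∧
        Adm m' C' s s u' (tO τ u') ∧ β.Cj τ ∧ β.All (Bd (Hp C' A s)) ∧ Rep2 τ (Hp C' A s) β u' ∧
        zz u (tO τ u) t1 t2 β ≠ 0 ∧
        IsSquare (algebraMap F F' a * zz u (tO τ u) t1 t2 β) ∧
        ((∃ ρ1 ρ2 : ℝ, Rho C' ρ1 ρ2 ∧ Main2 τ C' s ρ1 ρ2 β) ∨ EZ2 τ C' s β ∨ s ≤ s0)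

/-- STEP 9', the algebra. -/
def EZeroAlg2Stmt : Prop :=
  ∀ τ : M ≃ₐ[k] M, Invo k M τ → ∀ m m' : ℕ, m ≠ 0 → m' ≠ 0 → ∀ C : ℝ, 1 ≤ C →
    ∃ (m'' : ℕ) (C'' : ℝ), m'' ≠ 0 ∧ 1 ≤ C'' ∧
    ∀ s : ℝ, 1 ≤ C * s → ∀ u : 𝓞 M, Adm m C s s u (tO τ u) →
    ∀ (F F' : Type) [Field F] [NumberField F] [Algebra k F] [Field F'] [NumberField F']
      [Algebra k F'] [Algebra M F'] [Algebra F F'] [IsScalarTower k M F'] [IsScalarTower k F F']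
      (t1 t2 : F') (a : F), Dat2 τ F F' u t1 t2 a →
    ∀ (u' κ l : 𝓞 M) (β : Blk (𝓞 M)), κ ≠ 0 → l ≠ 0 → Bd C κ → Bd C l → l * u' = κ * u →
      l * tO τ u' = κ * tO τ u → Adm m' C s s u' (tO τ u') → (∃ H, Rep2 τ H β u') →
      IsSquare (algebraMap F F' a * zz u (tO τ u) t1 t2 β) → EZ2 τ C s β →
      ∃ p q : 𝓞 M, PQ2 τ m'' C'' s u p q ∧
        IsSquare (algebraMap F F' a * algebraMap M F' ((u * tO τ u *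
          (tO τ u * p ^ 3 + u * q ^ 3) : 𝓞 M) : M) *
          (algebraMap M F' (p : M) * t1 + algebraMap M F' (q : M) * t2))

end H88.A4
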