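import Pool.Agent.H88.A4.Iface

/-!
# Weak Malle for A_4: the parts of the reduction (steps 2, 3, 6)
-/

open scoped NumberField nonZeroDivisors

noncomputable section

namespace H88.A4

variable (K : Type) [Field K] [NumberField K]

/-- STEP 2: Minkowski reduction. `K`-independent vectors in a fractional ideal of a cubic extension,
short for the weights `w`. -/
def MinkStmt : Prop :=
  ∃ C : ℝ, 0 < C ∧ ∀ (F : Type) [Field F] [NumberField F] [Algebra K F], Module.finrank K F = 3 →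
    ∀ w : (F →+* ℂ) → ℝ, (∀ φ, 0 < w φ) →
      (∀ φ, w (NumberField.ComplexEmbedding.conjugate φ) = w φ) →
    ∀ L : FractionalIdeal (𝓞 F)⁰ F, L ≠ 0 → ∃ (x : Fin 3 → F) (l : Fin 3 → ℝ),
      LinearIndependent K x ∧ (∀ i, x i ∈ L) ∧ 0 < l 0 ∧ l 0 ≤ l 1 ∧ l 1 ≤ l 2 ∧
      (∀ i φ, w φ * ‖φ (x i)‖ ≤ l i) ∧
      (l 0 * l 1 * l 2) ^ Module.finrank ℚ K ≤
        C * Real.sqrt |(NumberField.discr F : ℝ)| * (FractionalIdeal.absNorm L : ℝ) * ∏ φ, w φ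

variable {K} in
/-- No nonzero vector of the plane is isotropic for both forms. -/
def Aniso (β : Blk (𝓞 K)) : Prop :=
  ∀ y1 y2 : 𝓞 K, ¬ (y1 = 0 ∧ y2 = 0) →
    ¬ (β.b1 * y1 ^ 2 + 2 * β.b2 * y1 * y2 + β.b3 * y2 ^ 2 = 0 ∧
      β.c1 * y1 ^ 2 + 2 * β.c2 * y1 * y2 + β.c3 * y2 ^ 2 = 0)

/-- STEPS 2, 3: from the field data to a reduced block. -/
def RedFieldStmt : Prop :=
  ∀ M : ℕ, M ≠ 0 → ∀ C : ℝ, 1 ≤ C → ∃ (M' A : ℕ) (C' : ℝ), M' ≠ 0 ∧ 1 ≤ C' ∧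
    ∀ s t : ℝ, Rg C s t → ∀ u v : 𝓞 K, Adm M C s t u v →
    ∀ (F : Type) [Field F] [NumberField F] [Algebra K F] (t1 t2 a : F), Dat F u v t1 t2 a →
      ¬ IsSquare a → ∃ (k m u' v' : 𝓞 K) (β : Blk (𝓞 K)) (ρ1 ρ2 : ℝ),
        k ≠ 0 ∧ m ≠ 0 ∧ Bd C' k ∧ Bd C' m ∧ m * u' = k * u ∧ m * v' = k * v ∧
        Adm M' C' s t u' v' ∧ Rho C' ρ1 ρ2 ∧ Sz C' s t ρ1 ρ2 β ∧ Aniso β ∧
        β.All (Bd (Hp C' A s)) ∧ Rep (Hp C' A s) β u' v' ∧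
        zz u v t1 t2 β ≠ 0 ∧ IsSquare (a * zz u v t1 t2 β)

/-- STEP 6: the cases (the form proposed by helper67). The plane may be replaced by a sublattice of
bounded index `g` (only needed when `D3 = 0`), which multiplies `D1`, `D2`, `D3`, `u`, `v` by
`g ^ 2`; `b2` is reduced modulo `b1` when `D3 = 0`. -/
def BlockRedStmt : Prop :=
  ∀ M : ℕ, M ≠ 0 → ∀ C : ℝ, 1 ≤ C → ∀ A : ℕ, ∃ (M' A' : ℕ) (C' s0 : ℝ), M' ≠ 0 ∧ 1 ≤ C' ∧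
    ∀ s t : ℝ, Rg C s t → s0 ≤ s → ∀ u v : 𝓞 K, Adm M C s t u v → ∀ ρ1 ρ2 : ℝ, Rho C ρ1 ρ2 →
    ∀ β : Blk (𝓞 K), Sz C s t ρ1 ρ2 β → β.All (Bd (Hp C A s)) → Rep (Hp C A s) β u v → Aniso β →
      ∃ (g : 𝓞 K) (β' : Blk (𝓞 K)), g ≠ 0 ∧ Bd C' g ∧
        β'.D1 = g ^ 2 * β.D1 ∧ β'.D2 = g ^ 2 * β.D2 ∧ β'.D3 = g ^ 2 * β.D3 ∧
        Adm M' C' s t (g ^ 2 * u) (g ^ 2 * v) ∧
        β'.All (Bd (Hp C' A' s)) ∧ Rep (Hp C' A' s) β' (g ^ 2 * u) (g ^ 2 * v) ∧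
        ((∃ σ1 σ2 : ℝ, Rho C' σ1 σ2 ∧ Main C' s t σ1 σ2 β') ∨ Deg C' s t β' ∨ EZ C' s t β')

end H88.A4
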