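import Pool.Agent.H88.A4.Iface
import Pool.Agent.H67.WA.AdmG

/-!
# [H88 A4 RAdm] Scaling of admissible pairs

`Adm M C s t u v`, `m u' = k u`, `m v' = k v`, `k, m ≠ 0` bounded by `C1` at all embeddings: then
`Adm M' C' s t u' v'` with `M'`, `C'` depending on `K, M, C, C1` only.

PROOF. `1 ≤ nm k ≤ C1 ^ d` and all `|φ k| ≤ C1`, so `|φ k| ≥ C1^{-d}`, same for `m` (`sz_low`): sizes, with
`C' = C (C1^d C1)`. Put `M' = N N M` with `k, m ∣ N` (`nat_mul`). `cop`: `M = x u + y v` gives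
`k M = m (x u' + y v')`, so, with `N = k w`, `N M = w m (x u' + y v') ∈ (u', v')`.
`squ`: let `I ^ 2 ∣ (u')`; then `I ^ 2 ∣ (m u') = (k u) ∣ (k ^ 2 u)`, so `I ∣ (k M)` (`sq_mul`).
-/

open scoped NumberField

noncomputable section

namespace H88.A4

open Pool.Agent.H67.WA (sz sz_mul sz_pos sz_nonneg sz_low nat_mul sq_mul)

variable (K : Type) [Field K] [NumberField K]

private theorem radm_span {a b : 𝓞 K} (h : a ∣ b) :
    (Ideal.span {a} : Ideal (𝓞 K)) ∣ Ideal.span {b} := by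
  rw [Ideal.dvd_iff_le, Ideal.span_singleton_le_span_singleton]
  exact h

private theorem radm_pos {C r : ℝ} (hC : 0 < C) {w : 𝓞 K} (hw : w ≠ 0)
    (h : ∀ φ : K →+* ℂ, ‖φ (w : K)‖ ≤ C * r ^ 3) : 0 < r := by
  obtain ⟨φ⟩ : Nonempty (K →+* ℂ) := inferInstance
  have h1 : 0 < ‖φ (w : K)‖ := sz_pos φ hw
  have h2 : 0 < C * r ^ 3 := lt_of_lt_of_le h1 (h φ)
  have h3 : 0 < r ^ 3 := by
    by_contra hcon
    push Not at hcon
    have : C * r ^ 3 ≤ 0 := mul_nonpos_of_nonneg_of_nonpos hC.le hcon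
    linarith
  by_contra hcon
  push Not at hcon
  have : r ^ 3 ≤ 0 := by
    have h4 : 0 ≤ r ^ 2 := sq_nonneg r
    have h5 : r ^ 3 = r ^ 2 * r := by ring
    rw [h5]
    exact mul_nonpos_of_nonneg_of_nonpos h4 hcon
  linarith

theorem adm_scale (M : ℕ) (hM : M ≠ 0) (C C1 : ℝ) (hC : 1 ≤ C) (hC1 : 1 ≤ C1) :
    ∃ (M' : ℕ) (C' : ℝ), M' ≠ 0 ∧ 1 ≤ C' ∧ M ∣ M' ∧ C ≤ C' ∧
      ∀ (s t : ℝ) (u v u' v' k m : 𝓞 K), Adm M C s t u v → k ≠ 0 → m ≠ 0 → Bd C1 k → Bd C1 m →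
        m * u' = k * u → m * v' = k * v → Adm M' C' s t u' v' := by
  obtain ⟨N, hN, hdiv⟩ := nat_mul K C1
  obtain ⟨L, hL⟩ : ∃ L : ℝ, L = C1 ^ Module.finrank ℚ K := ⟨_, rfl⟩
  have hL1 : 1 ≤ L := by rw [hL]; exact one_le_pow₀ hC1
  have hL0 : 0 < L := lt_of_lt_of_le one_pos hL1
  have hC0 : 0 < C := lt_of_lt_of_le one_pos hC
  have hC10 : 0 < C1 := lt_of_lt_of_le one_pos hC1
  have hLC : 1 ≤ L * C1 := one_le_mul_of_one_le_of_one_le hL1 hC1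
  refine ⟨N * N * M, C * (L * C1), mul_ne_zero (mul_ne_zero hN hN) hM,
    one_le_mul_of_one_le_of_one_le hC hLC, Dvd.intro_left _ rfl, le_mul_of_one_le_right hC0.le hLC,
    ?_⟩
  intro s t u v u' v' k m h hk hm hbk hbm hu hv
  have hlow : ∀ (g : 𝓞 K), g ≠ 0 → Bd C1 g → ∀ φ : K →+* ℂ, 1 ≤ L * sz φ g := by
    intro g hg hb φ
    have h1 : L⁻¹ ≤ sz φ g := by rw [hL]; exact sz_low hg hC1 hb φ
    have h2 := mul_le_mul_of_nonneg_left h1 hL0.le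
    rwa [mul_inv_cancel₀ hL0.ne'] at h2
  -- sizes: `sz m * sz w' = sz k * sz w`
  have hle : ∀ (w w' : 𝓞 K) (r : ℝ), m * w' = k * w → 0 < r →
      (∀ φ : K →+* ℂ, ‖φ (w : K)‖ ≤ C * r ^ 3) →
      ∀ φ : K →+* ℂ, ‖φ (w' : K)‖ ≤ C * (L * C1) * r ^ 3 := by
    intro w w' r hw hr h1 φ
    have h2 : sz φ m * sz φ w' = sz φ k * sz φ w := by rw [← sz_mul, ← sz_mul, hw]
    have h3 := hlow m hm hbm φ
    have h4 : sz φ k ≤ C1 := hbk φ
    have h5 : sz φ w ≤ C * r ^ 3 := h1 φ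
    have h6 := sz_nonneg φ w'
    show sz φ w' ≤ _
    calc sz φ w' = 1 * sz φ w' := (one_mul _).symm
      _ ≤ (L * sz φ m) * sz φ w' := mul_le_mul_of_nonneg_right h3 h6
      _ = L * (sz φ k * sz φ w) := by rw [mul_assoc, h2]
      _ ≤ L * (C1 * (C * r ^ 3)) := mul_le_mul_of_nonneg_left
          (mul_le_mul h4 h5 (sz_nonneg _ _) hC10.le) hL0.le
      _ = C * (L * C1) * r ^ 3 := by ring
  have hge : ∀ (w w' : 𝓞 K) (r : ℝ), m * w' = k * w →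
      (∀ φ : K →+* ℂ, r ^ 3 ≤ C * ‖φ (w : K)‖) →
      ∀ φ : K →+* ℂ, r ^ 3 ≤ C * (L * C1) * ‖φ (w' : K)‖ := by
    intro w w' r hw h1 φ
    have h2 : sz φ m * sz φ w' = sz φ k * sz φ w := by rw [← sz_mul, ← sz_mul, hw]
    have h3 := hlow k hk hbk φ
    have h4 : sz φ m ≤ C1 := hbm φ
    have h5 : r ^ 3 ≤ C * sz φ w := h1 φ
    have h6 := sz_nonneg φ w'
    show r ^ 3 ≤ C * (L * C1) * sz φ w'
    calc r ^ 3 ≤ C * (1 * sz φ w) := by rw [one_mul]; exact h5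
      _ ≤ C * ((L * sz φ k) * sz φ w) := mul_le_mul_of_nonneg_left
          (mul_le_mul_of_nonneg_right h3 (sz_nonneg _ _)) hC0.le
      _ = C * (L * (sz φ m * sz φ w')) := by rw [mul_assoc L, h2]
      _ ≤ C * (L * (C1 * sz φ w')) := mul_le_mul_of_nonneg_left (mul_le_mul_of_nonneg_left
          (mul_le_mul_of_nonneg_right h4 h6) hL0.le) hC0.le
      _ = C * (L * C1) * sz φ w' := by ring
  obtain ⟨x, hx⟩ := hdiv k hk hbk
  have hsq : ∀ w w' : 𝓞 K, m * w' = k * w → (∀ I : Ideal (𝓞 K), I ^ 2 ∣ Ideal.span {w} →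
      I ∣ Ideal.span {(M : 𝓞 K)}) → ∀ I : Ideal (𝓞 K), I ^ 2 ∣ Ideal.span {w'} →
      I ∣ Ideal.span {((N * N * M : ℕ) : 𝓞 K)} := by
    intro w w' hw h1 I hI
    have h2 : w' ∣ k ^ 2 * w := ⟨k * m, by linear_combination (-k) * hw⟩
    have h3 := sq_mul hk h1 (hI.trans (radm_span K h2))
    refine h3.trans (radm_span K ⟨x * (N : 𝓞 K), ?_⟩)
    push_cast
    linear_combination (N : 𝓞 K) * (M : 𝓞 K) * hx
  refine ⟨?_, ?_, hle u u' s hu (radm_pos K hC0 h.u0 h.ule) h.ule, hge u u' s hu h.uge,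
    hle v v' t hv (radm_pos K hC0 h.v0 h.vle) h.vle, hge v v' t hv h.vge, hsq u u' hu h.squ,
    hsq v v' hv h.sqv, ?_⟩
  · rintro rfl
    rw [mul_zero] at hu
    exact mul_ne_zero hk h.u0 hu.symm
  · rintro rfl
    rw [mul_zero] at hv
    exact mul_ne_zero hk h.v0 hv.symm
  · obtain ⟨p, q, hpq⟩ := Ideal.mem_span_pair.1 h.cop
    refine Ideal.mem_span_pair.2 ⟨(N : 𝓞 K) * x * m * p, (N : 𝓞 K) * x * m * q, ?_⟩
    push_cast
    rw [← hpq]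
    linear_combination (N : 𝓞 K) * x * p * hu + (N : 𝓞 K) * x * q * hv -
      (N : 𝓞 K) * (p * u + q * v) * hx

/-- Monotonicity in `M` and `C`. -/
theorem adm_mono {M M' : ℕ} (hM : M ∣ M') {C C' s t : ℝ} (hs : 0 < s) (ht : 0 < t) (hC : C ≤ C')
    {u v : 𝓞 K} (h : Adm M C s t u v) : Adm M' C' s t u v :=
  Pool.Agent.H67.WA.adm_mono K hs ht hM hC h

end H88.A4
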