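import Pool.Agent.H88.A4.RCub

/-!
# [H88 A4 RAlg] The algebra of step 3

`x_i` in `F`, `m a x_i x_j = A_ij + B_ij t1 + C_ij t2`.

`det_pencil`: `det (λ B + μ C) = κ (u λ ^ 3 + v μ ^ 3)` for all `λ`, `μ` in `K`, `κ ≠ 0` if the `x_i`
are independent. PROOF. Let `G(λ, μ)` be the symmetric matrix of the form
`(x, y) ↦ λ (x y)_1 + μ (x y)_2` in the basis `1, t1, t2`, where `z = z_0 + z_1 t1 + z_2 t2`:
`t1 ^ 2 = v t2`, `t2 ^ 2 = u t1`, so `G = (0 λ μ; λ (v μ) 0; μ 0 (u λ))`, `det G = -(u λ^3 + v μ^3)`.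
Let `P` be the matrix of coordinates of `x_0, x_1, x_2` (columns) and `N` the matrix of
multiplication by `m a` in the basis. Then `λ B + μ C = Pᵀ (Nᵀ G) P`, because the form is
`G(m a x, y)`; `det N = m ^ 3 N(a)` (`norm_cub`), so `κ = - m ^ 3 N(a) det(P) ^ 2`.

`zz_square`: for `x = x_0`, `y = x_1` with coordinates `x0, x1, x2`, `y0, y1, y2` put
`ξ = (x0 y1 - x1 y0) t1 - (x0 y2 - x2 y0) t2 + (x1 y2 - x2 y1) u v`. IDENTITY:
`a (u v D2 - u D3 t1 - v D1 t2) = m ^ 2 N(a) ξ ^ 2`, where `b11 = (m a x x)_1`, `b12 = (m a x y)_1`,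
`b22 = (m a y y)_1`, `c_ij` with `(·)_2`, `D1 = b11 b22 - b12 ^ 2` etc. (Background: with the
conjugates `'`, `''`, `t1 (z)_1 - t2 (z)_2 = ((ω^2 - ω)/3) (z' - z'')`, so
`D1 t1^2 - D2 t1 t2 + D3 t2^2 = -m^2 a' a'' ξ^2`.) Lean: substitute `u = t2^2/t1`, `v = t1^2/t2` in `F`
(`t1, t2 ≠ 0`) and the coordinates of `m a x x`, `m a x y`, `m a y y` (products of the coordinates
`a0, a1, a2`, `x0, ..`; they are unique by `coord_unique`), `field_simp; ring`; second part: `ξ ≠ 0` if `x`, `y` are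
independent (all `x_i y_j - x_j y_i = 0` would make them dependent; `coord_unique`); it may help to do it
first for the ring `R[t1, t1⁻¹, t2, t2⁻¹]` in two steps (`a x x`, `a x y`, `a y y` as abstract elements
`w = a x`...). Since `N(a)` is a square, `a zz` is a square.
-/

open scoped NumberField

noncomputable section

namespace H88.A4

variable {K : Type} [Field K] [CharZero K] {F : Type} [Field F] [Algebra K F]

omit [CharZero K] in
private theorem ralg_mul {u v : K} {t1 t2 : F} (s1 : t1 ^ 2 = algebraMap K F v * t2)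
    (s2 : t2 ^ 2 = algebraMap K F u * t1) (h2 : t1 * t2 = algebraMap K F (u * v))
    (z0 z1 z2 w0 w1 w2 : K) :
    (algebraMap K F z0 + algebraMap K F z1 * t1 + algebraMap K F z2 * t2) *
      (algebraMap K F w0 + algebraMap K F w1 * t1 + algebraMap K F w2 * t2) =
    algebraMap K F (z0 * w0 + u * v * (z1 * w2 + z2 * w1)) +
      algebraMap K F (z0 * w1 + z1 * w0 + u * z2 * w2) * t1 +
      algebraMap K F (z0 * w2 + z2 * w0 + v * z1 * w1) * t2 := by
  simp only [map_add, map_mul] at *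
  linear_combination (algebraMap K F z1 * algebraMap K F w1) * s1 +
    (algebraMap K F z2 * algebraMap K F w2) * s2 +
    (algebraMap K F z1 * algebraMap K F w2 + algebraMap K F z2 * algebraMap K F w1) * h2

omit [CharZero K] in
private theorem ralg_smul {t1 t2 : F} (m z0 z1 z2 : K) :
    algebraMap K F m * (algebraMap K F z0 + algebraMap K F z1 * t1 + algebraMap K F z2 * t2) =
    algebraMap K F (m * z0) + algebraMap K F (m * z1) * t1 + algebraMap K F (m * z2) * t2 := by
  simp only [map_mul]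
  ring

omit [CharZero K] in
private theorem ralg_eq {u v : K} {t1 t2 : F} (hu : u ≠ 0) (hv : v ≠ 0)
    (hd : Module.finrank K F = 3) (hg : IntermediateField.adjoin K {t1} = ⊤)
    (h1 : t1 ^ 3 = algebraMap K F (u * v ^ 2)) (h2 : t1 * t2 = algebraMap K F (u * v))
    {z0 z1 z2 w0 w1 w2 : K}
    (h : algebraMap K F z0 + algebraMap K F z1 * t1 + algebraMap K F z2 * t2 =
      algebraMap K F w0 + algebraMap K F w1 * t1 + algebraMap K F w2 * t2) :
    z0 = w0 ∧ z1 = w1 ∧ z2 = w2 := by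
  have h3 : algebraMap K F (z0 - w0) + algebraMap K F (z1 - w1) * t1 +
      algebraMap K F (z2 - w2) * t2 = 0 := by
    simp only [map_sub]
    linear_combination h
  obtain ⟨e0, e1, e2⟩ := coord_unique hu hv hd hg h1 h2 h3
  exact ⟨sub_eq_zero.1 e0, sub_eq_zero.1 e1, sub_eq_zero.1 e2⟩

theorem det_pencil {u v : K} {t1 t2 : F} (hu : u ≠ 0) (hv : v ≠ 0)
    (hd : Module.finrank K F = 3) (hg : IntermediateField.adjoin K {t1} = ⊤)
    (h1 : t1 ^ 3 = algebraMap K F (u * v ^ 2)) (h2 : t1 * t2 = algebraMap K F (u * v))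
    (a : F) (ha : a ≠ 0) (m : K) (hm : m ≠ 0) (x : Fin 3 → F) (hx : LinearIndependent K x)
    (A B C : Matrix (Fin 3) (Fin 3) K)
    (h : ∀ i j, algebraMap K F m * a * x i * x j =
      algebraMap K F (A i j) + algebraMap K F (B i j) * t1 + algebraMap K F (C i j) * t2) :
    ∃ κ : K, κ ≠ 0 ∧ ∀ l μ : K, (l • B + μ • C).det = κ * (u * l ^ 3 + v * μ ^ 3) := by
  have s1 := sq1 hu hv h1 h2
  have s2 := sq2 hu hv h1 h2
  obtain ⟨a0, a1, a2, hma⟩ := exists_coord hu hv hd hg h1 h2 (algebraMap K F m * a)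
  have hX : ∀ i, ∃ p : Fin 3 → K, x i = algebraMap K F (p 0) + algebraMap K F (p 1) * t1 +
      algebraMap K F (p 2) * t2 := by
    intro i
    obtain ⟨z0, z1, z2, hz⟩ := exists_coord hu hv hd hg h1 h2 (x i)
    exact ⟨![z0, z1, z2], by simpa using hz⟩
  choose P hP using hX
  have hmane : algebraMap K F m * a ≠ 0 := by
    refine mul_ne_zero ?_ ha
    rw [Ne, map_eq_zero]
    exact hm
  have hN := norm_cub hu hv hd hg h1 h2 a0 a1 a2
  rw [← hma] at hN
  have hfd : FiniteDimensional K F := FiniteDimensional.of_finrank_pos (by rw [hd]; norm_num)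
  have hN0 : a0 ^ 3 + u * v ^ 2 * a1 ^ 3 + u ^ 2 * v * a2 ^ 3 - 3 * u * v * a0 * a1 * a2 ≠ 0 := by
    rw [← hN]
    exact Algebra.norm_ne_zero_iff.2 hmane
  have hPd : (Matrix.of P).det ≠ 0 := by
    intro hdet
    obtain ⟨w, hw0, hw⟩ := Matrix.exists_vecMul_eq_zero_iff.2 hdet
    apply hw0
    have h3 : ∀ k, w 0 * P 0 k + w 1 * P 1 k + w 2 * P 2 k = 0 := by
      intro k
      have h4 := congrFun hw k
      simpa [Matrix.vecMul, dotProduct, Fin.sum_univ_three] using h4
    have h5 : ∑ i, w i • x i = 0 := by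
      rw [Fin.sum_univ_three, hP 0, hP 1, hP 2]
      simp only [Algebra.smul_def]
      have e0 := congrArg (algebraMap K F) (h3 0)
      have e1 := congrArg (algebraMap K F) (h3 1)
      have e2 := congrArg (algebraMap K F) (h3 2)
      simp only [map_add, map_mul, map_zero] at e0 e1 e2
      linear_combination e0 + t1 * e1 + t2 * e2
    funext i
    exact Fintype.linearIndependent_iff.1 hx w h5 i
  have key : ∀ i j, B i j = (a0 * P i 0 + u * v * (a1 * P i 2 + a2 * P i 1)) * P j 1 +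
      (a0 * P i 1 + a1 * P i 0 + u * a2 * P i 2) * P j 0 +
      u * (a0 * P i 2 + a2 * P i 0 + v * a1 * P i 1) * P j 2 ∧
      C i j = (a0 * P i 0 + u * v * (a1 * P i 2 + a2 * P i 1)) * P j 2 +
      (a0 * P i 2 + a2 * P i 0 + v * a1 * P i 1) * P j 0 +
      v * (a0 * P i 1 + a1 * P i 0 + u * a2 * P i 2) * P j 1 := by
    intro i j
    have h3 := h i j
    rw [hma, hP i, hP j, ralg_mul s1 s2 h2, ralg_mul s1 s2 h2] at h3
    obtain ⟨_, e1, e2⟩ := ralg_eq hu hv hd hg h1 h2 h3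
    exact ⟨e1.symm, e2.symm⟩
  refine ⟨-((Matrix.of P).det ^ 2 *
    (a0 ^ 3 + u * v ^ 2 * a1 ^ 3 + u ^ 2 * v * a2 ^ 3 - 3 * u * v * a0 * a1 * a2)),
    neg_ne_zero.2 (mul_ne_zero (pow_ne_zero _ hPd) hN0), ?_⟩
  intro l μ
  have hM : l • B + μ • C = Matrix.of P *
      !![l * a1 + μ * a2, l * a0 + μ * v * a1, l * u * a2 + μ * a0;
        l * a0 + μ * v * a1, v * (l * u * a2 + μ * a0), u * v * (l * a1 + μ * a2);
        l * u * a2 + μ * a0, u * v * (l * a1 + μ * a2), u * (l * a0 + μ * v * a1)] *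
      (Matrix.of P).transpose := by
    ext i j
    rw [Matrix.mul_apply, Fin.sum_univ_three]
    simp only [Matrix.mul_apply, Fin.sum_univ_three, Matrix.of_apply, Matrix.transpose_apply,
      Matrix.add_apply, Matrix.smul_apply, smul_eq_mul, Matrix.cons_val', Matrix.cons_val_zero,
      Matrix.cons_val_one, Matrix.cons_val, Matrix.empty_val', Matrix.cons_val_fin_one]
    rw [(key i j).1, (key i j).2]
    ring
  rw [hM, Matrix.det_mul, Matrix.det_mul, Matrix.det_transpose]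
  have hdM : (!![l * a1 + μ * a2, l * a0 + μ * v * a1, l * u * a2 + μ * a0;
        l * a0 + μ * v * a1, v * (l * u * a2 + μ * a0), u * v * (l * a1 + μ * a2);
        l * u * a2 + μ * a0, u * v * (l * a1 + μ * a2), u * (l * a0 + μ * v * a1)] :
          Matrix (Fin 3) (Fin 3) K).det = -((a0 ^ 3 + u * v ^ 2 * a1 ^ 3 + u ^ 2 * v * a2 ^ 3 -
          3 * u * v * a0 * a1 * a2) * (u * l ^ 3 + v * μ ^ 3)) := by
    rw [Matrix.det_fin_three]
    simp only [Matrix.of_apply, Matrix.cons_val', Matrix.cons_val_zero,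
      Matrix.cons_val_one, Matrix.cons_val, Matrix.empty_val', Matrix.cons_val_fin_one]
    ring
  rw [hdM]
  ring

theorem zz_square {u v : K} {t1 t2 : F} (hu : u ≠ 0) (hv : v ≠ 0)
    (hd : Module.finrank K F = 3) (hg : IntermediateField.adjoin K {t1} = ⊤)
    (h1 : t1 ^ 3 = algebraMap K F (u * v ^ 2)) (h2 : t1 * t2 = algebraMap K F (u * v))
    (a : F) (hn : IsSquare (Algebra.norm K a)) (m : K) (x y : F)
    (a11 a12 a22 b11 b12 b22 c11 c12 c22 : K)
    (h11 : algebraMap K F m * a * x * x =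
      algebraMap K F a11 + algebraMap K F b11 * t1 + algebraMap K F c11 * t2)
    (h12 : algebraMap K F m * a * x * y =
      algebraMap K F a12 + algebraMap K F b12 * t1 + algebraMap K F c12 * t2)
    (h22 : algebraMap K F m * a * y * y =
      algebraMap K F a22 + algebraMap K F b22 * t1 + algebraMap K F c22 * t2) :
    IsSquare (a * (algebraMap K F (u * v * (b11 * c22 + b22 * c11 - 2 * b12 * c12)) -
      algebraMap K F (u * (c11 * c22 - c12 ^ 2)) * t1 -
      algebraMap K F (v * (b11 * b22 - b12 ^ 2)) * t2)) ∧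
    (a ≠ 0 → m ≠ 0 → LinearIndependent K ![x, y] →
      (algebraMap K F (u * v * (b11 * c22 + b22 * c11 - 2 * b12 * c12)) -
        algebraMap K F (u * (c11 * c22 - c12 ^ 2)) * t1 -
        algebraMap K F (v * (b11 * b22 - b12 ^ 2)) * t2) ≠ 0) := by
  have s1 := sq1 hu hv h1 h2
  have s2 := sq2 hu hv h1 h2
  obtain ⟨a0, a1, a2, hA⟩ := exists_coord hu hv hd hg h1 h2 a
  obtain ⟨x0, x1, x2, hX⟩ := exists_coord hu hv hd hg h1 h2 x
  obtain ⟨y0, y1, y2, hY⟩ := exists_coord hu hv hd hg h1 h2 y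
  have hN := norm_cub hu hv hd hg h1 h2 a0 a1 a2
  rw [← hA] at hN
  have hzz : a * (algebraMap K F (u * v * (b11 * c22 + b22 * c11 - 2 * b12 * c12)) -
      algebraMap K F (u * (c11 * c22 - c12 ^ 2)) * t1 -
      algebraMap K F (v * (b11 * b22 - b12 ^ 2)) * t2) =
      algebraMap K F (m ^ 2 * Algebra.norm K a) *
        (algebraMap K F (u * v * (x1 * y2 - x2 * y1)) + algebraMap K F (x0 * y1 - x1 * y0) * t1 +
          algebraMap K F (x2 * y0 - x0 * y2) * t2) ^ 2 := by
    rw [hA, hX, ralg_smul, ralg_mul s1 s2 h2, ralg_mul s1 s2 h2] at h11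
    rw [hA, hX, hY, ralg_smul, ralg_mul s1 s2 h2, ralg_mul s1 s2 h2] at h12
    rw [hA, hY, ralg_smul, ralg_mul s1 s2 h2, ralg_mul s1 s2 h2] at h22
    obtain ⟨_, rfl, rfl⟩ := ralg_eq hu hv hd hg h1 h2 h11
    obtain ⟨_, rfl, rfl⟩ := ralg_eq hu hv hd hg h1 h2 h12
    obtain ⟨_, rfl, rfl⟩ := ralg_eq hu hv hd hg h1 h2 h22
    have hneg : ∀ p q r : K, algebraMap K F p - algebraMap K F q * t1 - algebraMap K F r * t2 =
        algebraMap K F p + algebraMap K F (-q) * t1 + algebraMap K F (-r) * t2 := by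
      intro p q r
      simp only [map_neg]
      ring
    rw [hneg, hN]
    conv_lhs => rw [hA]
    rw [ralg_mul s1 s2 h2, sq (algebraMap K F (u * v * (x1 * y2 - x2 * y1)) +
      algebraMap K F (x0 * y1 - x1 * y0) * t1 + algebraMap K F (x2 * y0 - x0 * y2) * t2),
      ralg_mul s1 s2 h2, ralg_smul]
    congr 1
    · congr 1
      · congr 1
        ring
      · congr 2
        ring
    · congr 2
      ring
  refine ⟨?_, ?_⟩
  · rw [hzz]
    obtain ⟨n, hn⟩ := hn
    refine ⟨algebraMap K F (m * n) * (algebraMap K F (u * v * (x1 * y2 - x2 * y1)) +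
      algebraMap K F (x0 * y1 - x1 * y0) * t1 + algebraMap K F (x2 * y0 - x0 * y2) * t2), ?_⟩
    rw [hn]
    simp only [map_mul, map_pow]
    ring
  · intro ha hm hxy h0
    rw [h0, mul_zero] at hzz
    have hfd : FiniteDimensional K F := FiniteDimensional.of_finrank_pos (by rw [hd]; norm_num)
    have hne : algebraMap K F (m ^ 2 * Algebra.norm K a) ≠ 0 := by
      rw [Ne, map_eq_zero]
      exact mul_ne_zero (pow_ne_zero _ hm) (Algebra.norm_ne_zero_iff.2 ha)
    have hxi := pow_eq_zero_iff (two_ne_zero) |>.1 ((mul_eq_zero.1 hzz.symm).resolve_left hne)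
    obtain ⟨e0, e1, e2⟩ := coord_unique hu hv hd hg h1 h2 hxi
    have e0' : x1 * y2 - x2 * y1 = 0 := (mul_eq_zero.1 e0).resolve_left (mul_ne_zero hu hv)
    rw [LinearIndependent.pair_iff] at hxy
    have hk : ∀ p q : K, p * x0 = q * y0 → p * x1 = q * y1 → p * x2 = q * y2 → p = 0 := by
      intro p q f0 f1 f2
      refine (hxy p (-q) ?_).1
      rw [Algebra.smul_def, Algebra.smul_def, hX, hY]
      have f0' := congrArg (algebraMap K F) f0
      have f1' := congrArg (algebraMap K F) f1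
      have f2' := congrArg (algebraMap K F) f2
      simp only [map_mul, map_neg] at f0' f1' f2' ⊢
      linear_combination f0' + t1 * f1' + t2 * f2'
    have g0 : y0 = 0 := hk y0 x0 (by ring) (by linear_combination -e1) (by linear_combination e2)
    have g1 : y1 = 0 := hk y1 x1 (by linear_combination e1) (by ring) (by linear_combination -e0')
    have g2 : y2 = 0 := hk y2 x2 (by linear_combination -e2) (by linear_combination e0') (by ring)
    have hy0 : y = 0 := by
      rw [hY, g0, g1, g2]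
      simp
    have := (hxy 0 1 (by rw [hy0]; simp)).2
    exact one_ne_zero this

/-- No nonzero `x` has `a x ^ 2` in `K`, unless `a` is a square: `a x ^ 2 = z0` gives
`N(a) N(x) ^ 2 = z0 ^ 3`, so `z0 ^ 3`, `z0 = z0 ^ 3 / z0 ^ 2` and `a = z0 / x ^ 2` are squares. -/
theorem no_iso (hd : Module.finrank K F = 3) (a : F) (ha : a ≠ 0)
    (hn : IsSquare (Algebra.norm K a)) (hs : ¬ IsSquare a) (x : F) (hx : x ≠ 0) (z0 : K) :
    a * x ^ 2 ≠ algebraMap K F z0 := by
  intro h
  apply hs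
  have hz0 : z0 ≠ 0 := by
    rintro rfl
    rw [map_zero] at h
    exact mul_ne_zero ha (pow_ne_zero _ hx) h
  have h1 := congrArg (Algebra.norm K) h
  rw [map_mul, map_pow, Algebra.norm_algebraMap, hd] at h1
  obtain ⟨n, hn⟩ := hn
  have h2 : z0 = (n * Algebra.norm K x / z0) ^ 2 := by
    rw [hn] at h1
    field_simp
    linear_combination -h1
  refine ⟨algebraMap K F (n * Algebra.norm K x / z0) / x, ?_⟩
  rw [div_mul_div_comm, ← map_mul, ← sq, ← sq, ← h2, ← h]
  field_simp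

/-- The four equations from the determinant of the pencil. PROOF: expand the determinant; the
coefficients of `l^3, l^2 μ, l μ^2, μ^3` are `e1, e2, e3, e4` (left minus right sides of `Sol`); put
`(l, μ) = (1, 0), (0, 1), (1, 1), (1, -1)` and use characteristic zero. -/
theorem sol_of_pencil (β : Blk K) (π : Row K) (r r' u v : K)
    (h : ∀ l μ : K, (l • !![β.b1, β.b2, π.p1; β.b2, β.b3, π.p2; π.p1, π.p2, r] +
      μ • !![β.c1, β.c2, π.q1; β.c2, β.c3, π.q2; π.q1, π.q2, r']).det =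
        u * l ^ 3 + v * μ ^ 3) : Sol β π r r' u v := by
  have h10 := h 1 0
  have h01 := h 0 1
  have h11 := h 1 1
  have h1m := h 1 (-1)
  rw [Matrix.det_fin_three] at h10 h01 h11 h1m
  simp only [Matrix.add_apply, Matrix.smul_apply, Matrix.of_apply, Matrix.cons_val',
    Matrix.cons_val_zero, Matrix.cons_val_one, Matrix.cons_val, Matrix.empty_val',
    Matrix.cons_val_fin_one, smul_eq_mul] at h10 h01 h11 h1m
  have h2 : (2 : K) ≠ 0 := two_ne_zero
  constructor
  · unfold Blk.D1 Blk.Ab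
    linear_combination h10
  · unfold Blk.D1 Blk.D2 Blk.Ab Blk.Ac
    have : (2 : K) * (r * (β.b1 * β.c3 + β.b3 * β.c1 - 2 * β.b2 * β.c2) +
        r' * (β.b1 * β.b3 - β.b2 ^ 2)) = 2 * (β.c3 * π.p1 * π.p1 -
        β.c2 * (π.p1 * π.p2 + π.p2 * π.p1) + β.c1 * π.p2 * π.p2 +
        2 * (β.b3 * π.p1 * π.q1 - β.b2 * (π.p1 * π.q2 + π.p2 * π.q1) + β.b1 * π.p2 * π.q2)) := by
      linear_combination h11 - h1m - 2 * h01
    exact mul_left_cancel₀ h2 this
  · unfold Blk.D3 Blk.D2 Blk.Ab Blk.Ac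
    have : (2 : K) * (r * (β.c1 * β.c3 - β.c2 ^ 2) +
        r' * (β.b1 * β.c3 + β.b3 * β.c1 - 2 * β.b2 * β.c2)) = 2 * (β.b3 * π.q1 * π.q1 -
        β.b2 * (π.q1 * π.q2 + π.q2 * π.q1) + β.b1 * π.q2 * π.q2 +
        2 * (β.c3 * π.p1 * π.q1 - β.c2 * (π.p1 * π.q2 + π.p2 * π.q1) + β.c1 * π.p2 * π.q2)) := by
      linear_combination h11 + h1m - 2 * h10
    exact mul_left_cancel₀ h2 this
  · unfold Blk.D3 Blk.Ac
    linear_combination h01

end H88.A4
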