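import Pool.Agent.H88.A4.RCub
import Pool.Agent.H88.A4.Geo

/-!
# [H88 A4 RDis] The discriminant of `F = K(t1)` is `O(N(uv)^2)`

`|disc F| ≤ |disc K| ^ 3 27 ^ d M ^ {3 d} nm(u v) ^ 2`.

PROOF. `t1`, `t2` are integral (`t1 ^ 3 = u v ^ 2`, `t2 ^ 3 = u ^ 2 v`) and generate `F`; the
derivatives of their minimal polynomials `X ^ 3 - u v ^ 2`, `X ^ 3 - u ^ 2 v` at `t1`, `t2` are
`3 t1 ^ 2`, `3 t2 ^ 2`, so both lie in the different `𝔇` of `𝓞 F` over `𝓞 K` (Mathlib: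
`aeval_derivative_mem_differentIdeal`; see also H38/ML/Disc, H63/MA/GDisc). Let
`I = (t1 ^ 2, t2 ^ 2) = (v t2, u t1)`, `J = (t1, t2)`, ideals of `𝓞 F`; `3 I ⊆ 𝔇`. Products of
generators: `I J = (u v^2, u v t1, u v t2, u^2 v) = (u v)(u, v, t1, t2) ∋ u v M` because `M ∈ (u, v)`,
so `N(I) N(J) ≤ N_F(u v M) = (nm(u v) M ^ d) ^ 3` (norms from `F`: `nm` of an element of `K` to the
power 3). `J ^ 3 = (u v^2, u v t1, u v t2, u^2 v) ⊆ (u v)`, so `N(J) ^ 3 ≥ N_F(u v) = nm(u v) ^ 3`,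
`N(J) ≥ nm(u v)`. Hence `N(I) ≤ nm(u v) ^ 2 M ^ {3 d}` and
`N(𝔇) ≤ N(3 I) = 27 ^ d N(I)`. Finally `|disc F| = N(diff(F/ℚ))`, `diff(F/ℚ) = diff(K/ℚ) 𝔇`
(tower formula of the different in Mathlib) and `N_F(diff(K/ℚ)) = |disc K| ^ 3`.
-/

open scoped NumberField

noncomputable section

namespace H88.A4

variable {K : Type} [Field K] [NumberField K] {F : Type} [Field F] [NumberField F] [Algebra K F]

private theorem rdis_mem (hd : Module.finrank K F = 3) (T : 𝓞 F) (c : 𝓞 K)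
    (hT : T ^ 3 = algebraMap (𝓞 K) (𝓞 F) c)
    (hg : IntermediateField.adjoin K {algebraMap (𝓞 F) F T} = ⊤) :
    3 * T ^ 2 ∈ differentIdeal (𝓞 K) (𝓞 F) := by
  have hfd : FiniteDimensional K F := FiniteDimensional.of_finrank_pos (by rw [hd]; norm_num)
  have hint : IsIntegral (𝓞 K) T := Algebra.IsIntegral.isIntegral T
  have hintK : IsIntegral K (algebraMap (𝓞 F) F T) := IsIntegral.of_finite K _
  obtain ⟨p, hp⟩ : ∃ p : Polynomial (𝓞 K), p = Polynomial.X ^ 3 - Polynomial.C c := ⟨_, rfl⟩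
  have hpm : p.Monic := by rw [hp]; exact Polynomial.monic_X_pow_sub_C _ (by norm_num)
  have hpd : p.natDegree = 3 := by rw [hp]; exact Polynomial.natDegree_X_pow_sub_C
  have hp0 : Polynomial.aeval T p = 0 := by
    rw [hp, map_sub, map_pow, Polynomial.aeval_X, Polynomial.aeval_C, hT, sub_self]
  have hdvd : minpoly (𝓞 K) T ∣ p := minpoly.isIntegrallyClosed_dvd hint hp0
  have hmin : minpoly K (algebraMap (𝓞 F) F T) = (minpoly (𝓞 K) T).map (algebraMap (𝓞 K) K) :=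
    minpoly.isIntegrallyClosed_eq_field_fractions K F hint
  have hdeg : (minpoly (𝓞 K) T).natDegree = 3 := by
    have h2 : (minpoly K (algebraMap (𝓞 F) F T)).natDegree = 3 := by
      rw [← IntermediateField.adjoin.finrank hintK, hg, IntermediateField.finrank_top', hd]
    rw [hmin, (minpoly.monic hint).natDegree_map] at h2
    exact h2
  have heq : p = minpoly (𝓞 K) T :=
    Polynomial.eq_of_monic_of_dvd_of_natDegree_le (minpoly.monic hint) hpm hdvd (by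
      rw [hpd, hdeg])
  have halg : Algebra.adjoin K {algebraMap (𝓞 F) F T} = ⊤ := by
    have h1 := IntermediateField.adjoin_simple_toSubalgebra_of_isAlgebraic (F := K)
      hintK.isAlgebraic
    rw [hg, IntermediateField.top_toSubalgebra] at h1
    exact h1.symm
  have h1 := aeval_derivative_mem_differentIdeal (𝓞 K) K F T halg
  have h2 : Polynomial.aeval T (Polynomial.derivative (minpoly (𝓞 K) T)) = 3 * T ^ 2 := by
    rw [← heq, hp, Polynomial.derivative_sub, Polynomial.derivative_C, sub_zero,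
      Polynomial.derivative_X_pow, map_mul, Polynomial.aeval_C, map_pow, Polynomial.aeval_X,
      map_natCast]
    norm_num
  rw [h2] at h1
  exact h1

open Pointwise in
theorem discr_bound (M : ℕ) (hM : M ≠ 0) {C s t : ℝ} {u v : 𝓞 K} (hA : Adm M C s t u v)
    {t1 t2 a : F} (hD : Dat F u v t1 t2 a) :
    |(NumberField.discr F : ℝ)| ≤ |(NumberField.discr K : ℝ)| ^ 3 *
      27 ^ Module.finrank ℚ K * (M : ℝ) ^ (3 * Module.finrank ℚ K) *
        nm ((u : K) * (v : K)) ^ 2 := by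
  classical
  have hd := hD.deg
  have hfd : FiniteDimensional K F := FiniteDimensional.of_finrank_pos (by rw [hd]; norm_num)
  have hu' : (u : K) ≠ 0 := by
    intro h0
    exact hA.u0 (NumberField.RingOfIntegers.ext h0)
  have hv' : (v : K) ≠ 0 := by
    intro h0
    exact hA.v0 (NumberField.RingOfIntegers.ext h0)
  have s1 := sq1 hu' hv' hD.cub hD.prd
  have s2 := sq2 hu' hv' hD.cub hD.prd
  have i1 : IsIntegral ℤ t1 := by
    refine IsIntegral.of_pow (n := 3) (by norm_num) ?_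
    rw [hD.cub]
    exact ((u.2).mul ((v.2).pow 2)).algebraMap
  have c2 : t2 ^ 3 = algebraMap K F ((u : K) ^ 2 * (v : K)) := by
    have : t2 ^ 3 = t2 ^ 2 * t2 := by ring
    rw [this, s2, mul_assoc, hD.prd, ← map_mul]
    congr 1
    ring
  have i2 : IsIntegral ℤ t2 := by
    refine IsIntegral.of_pow (n := 3) (by norm_num) ?_
    rw [c2]
    exact (((u.2).pow 2).mul v.2).algebraMap
  obtain ⟨T1, hT1⟩ : ∃ T1 : 𝓞 F, algebraMap (𝓞 F) F T1 = t1 := ⟨⟨t1, i1⟩, rfl⟩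
  obtain ⟨T2, hT2⟩ : ∃ T2 : 𝓞 F, algebraMap (𝓞 F) F T2 = t2 := ⟨⟨t2, i2⟩, rfl⟩
  have hinj : Function.Injective (algebraMap (𝓞 F) F) := FaithfulSMul.algebraMap_injective _ _
  obtain ⟨U, hU⟩ : ∃ U : 𝓞 F, U = algebraMap (𝓞 K) (𝓞 F) u := ⟨_, rfl⟩
  obtain ⟨V, hV⟩ : ∃ V : 𝓞 F, V = algebraMap (𝓞 K) (𝓞 F) v := ⟨_, rfl⟩
  have hUF : algebraMap (𝓞 F) F U = algebraMap K F (u : K) := by rw [hU]; rfl
  have hVF : algebraMap (𝓞 F) F V = algebraMap K F (v : K) := by rw [hV]; rfl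
  have q1 : T1 ^ 2 = V * T2 := by
    apply hinj
    rw [map_pow, map_mul, hT1, hT2, hVF, s1]
  have q2 : T2 ^ 2 = U * T1 := by
    apply hinj
    rw [map_pow, map_mul, hT1, hT2, hUF, s2]
  have q12 : T1 * T2 = U * V := by
    apply hinj
    rw [map_mul, map_mul, hT1, hT2, hUF, hVF, hD.prd, map_mul]
  -- the different
  have hgen2 : IntermediateField.adjoin K {t2} = ⊤ := by
    rw [eq_top_iff, ← hD.gen, IntermediateField.adjoin_le_iff, Set.singleton_subset_iff]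
    have h1 : t1 = algebraMap K F (u : K)⁻¹ * t2 ^ 2 := by
      have h0 : algebraMap K F (u : K) ≠ 0 := by
        intro h
        exact hu' ((algebraMap K F).injective (by rw [h, map_zero]))
      rw [s2, map_inv₀, inv_mul_cancel_left₀ h0]
    rw [SetLike.mem_coe, h1]
    have h2 : t2 ∈ IntermediateField.adjoin K {t2} :=
      IntermediateField.subset_adjoin K _ (Set.mem_singleton _)
    exact mul_mem (IntermediateField.algebraMap_mem _ _) (pow_mem h2 2)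
  have m1 : 3 * T1 ^ 2 ∈ differentIdeal (𝓞 K) (𝓞 F) :=
    rdis_mem hd T1 (u * v ^ 2) (by
      have : T1 ^ 3 = T1 ^ 2 * T1 := by ring
      rw [this, q1, mul_assoc, mul_comm T2, q12, map_mul, map_pow, hU, hV]
      ring) (by rw [hT1]; exact hD.gen)
  have m2 : 3 * T2 ^ 2 ∈ differentIdeal (𝓞 K) (𝓞 F) :=
    rdis_mem hd T2 (u ^ 2 * v) (by
      have : T2 ^ 3 = T2 ^ 2 * T2 := by ring
      rw [this, q2, mul_assoc, q12, map_mul, map_pow, hU, hV]
      ring) (by rw [hT2]; exact hgen2)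
  -- the ideals
  obtain ⟨I, hI⟩ : ∃ I : Ideal (𝓞 F), I = Ideal.span {T1 ^ 2, T2 ^ 2} := ⟨_, rfl⟩
  obtain ⟨J, hJ⟩ : ∃ J : Ideal (𝓞 F), J = Ideal.span {T1, T2} := ⟨_, rfl⟩
  have hUV0 : U * V ≠ 0 := by
    intro h0
    have h1 : algebraMap (𝓞 F) F (U * V) = 0 := by rw [h0, map_zero]
    rw [map_mul, hUF, hVF, ← map_mul] at h1
    exact (mul_ne_zero hu' hv') ((algebraMap K F).injective (by rw [h1, map_zero]))
  have hIJ : Ideal.span {U * V * (M : 𝓞 F)} ≤ I * J := by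
    rw [Ideal.span_singleton_le_iff_mem]
    obtain ⟨x, y, hxy⟩ := Ideal.mem_span_pair.1 hA.cop
    have h1 : (M : 𝓞 F) = algebraMap (𝓞 K) (𝓞 F) x * U + algebraMap (𝓞 K) (𝓞 F) y * V := by
      rw [hU, hV, ← map_mul, ← map_mul, ← map_add, hxy, map_natCast]
    have h2 : T1 ^ 2 * T1 ∈ I * J := Ideal.mul_mem_mul
      (by rw [hI]; exact Ideal.subset_span (by simp)) (by rw [hJ]; exact Ideal.subset_span (by simp))
    have h3 : T2 ^ 2 * T2 ∈ I * J := Ideal.mul_mem_mul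
      (by rw [hI]; exact Ideal.subset_span (by simp)) (by rw [hJ]; exact Ideal.subset_span (by simp))
    have h4 : U * V * (M : 𝓞 F) = algebraMap (𝓞 K) (𝓞 F) x * (T2 ^ 2 * T2) +
        algebraMap (𝓞 K) (𝓞 F) y * (T1 ^ 2 * T1) := by
      have h5 : T2 ^ 2 * T2 = U * (U * V) := by rw [q2, mul_assoc, q12]
      have h6 : T1 ^ 2 * T1 = V * (U * V) := by rw [q1, mul_assoc, mul_comm T2, q12]
      rw [h5, h6, h1]
      ring
    rw [h4]
    exact Ideal.add_mem _ (Ideal.mul_mem_left _ _ h3) (Ideal.mul_mem_left _ _ h2)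
  have hJ3 : J * J * J ≤ Ideal.span {U * V} := by
    rw [hJ, Ideal.span_mul_span', Ideal.span_mul_span', Ideal.span_le]
    rintro _ ⟨_, ⟨x, hx, y, hy, rfl⟩, z, hz, rfl⟩
    rw [SetLike.mem_coe, Ideal.mem_span_singleton]
    have e11 : T1 * T1 * T1 = U * V * V := by
      have : T1 * T1 * T1 = T1 ^ 2 * T1 := by ring
      rw [this, q1, mul_assoc, mul_comm T2, q12]
      ring
    have e22 : T2 * T2 * T2 = U * V * U := by
      have : T2 * T2 * T2 = T2 ^ 2 * T2 := by ring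
      rw [this, q2, mul_assoc, q12]
      ring
    simp only [Set.mem_insert_iff, Set.mem_singleton_iff] at hx hy hz
    show U * V ∣ x * y * z
    rcases hx with hx | hx <;> rcases hy with hy | hy <;> rcases hz with hz | hz <;>
      rw [hx, hy, hz]
    · exact ⟨V, e11⟩
    · exact ⟨T1, by rw [mul_assoc, q12]; ring⟩
    · exact ⟨T1, by rw [q12]⟩
    · exact ⟨T2, by rw [q12]⟩
    · exact ⟨T1, by rw [mul_comm T2, q12]⟩
    · exact ⟨T2, by rw [mul_comm T2, q12]⟩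
    · exact ⟨T2, by rw [mul_assoc, mul_comm T2 T1, q12]; ring⟩
    · exact ⟨U, e22⟩
  have hID : Ideal.span {(3 : 𝓞 F)} * I ≤ differentIdeal (𝓞 K) (𝓞 F) := by
    rw [hI, Ideal.span_mul_span', Ideal.span_le]
    rintro _ ⟨x, hx, y, hy, rfl⟩
    simp only [Set.mem_insert_iff, Set.mem_singleton_iff] at hx hy
    subst hx
    rcases hy with rfl | rfl
    · exact m1
    · exact m2
  -- norms
  have hfin : Module.finrank (𝓞 K) (𝓞 F) = 3 := by
    rw [← IsFractionRing.finrank_eq (𝓞 K) K (𝓞 F) F, hd]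
  have hnm : ∀ x : 𝓞 K, (Ideal.absNorm (Ideal.span {algebraMap (𝓞 K) (𝓞 F) x}) : ℝ) =
      nm (x : K) ^ 3 := by
    intro x
    have h1 : Ideal.span {algebraMap (𝓞 K) (𝓞 F) x} =
        Ideal.map (algebraMap (𝓞 K) (𝓞 F)) (Ideal.span {x}) := by
      rw [Ideal.map_span, Set.image_singleton]
    rw [h1, Ideal.absNorm_algebraMap, hfin, nm_eq]
    push_cast
    rfl
  have nmM : nm ((M : 𝓞 K) : K) = (M : ℝ) ^ Module.finrank ℚ K := by
    unfold nm
    have h1 : ∀ φ : K →+* ℂ, ‖φ (((M : 𝓞 K)) : K)‖ = (M : ℝ) := by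
      intro φ
      show ‖φ (algebraMap (𝓞 K) K (M : 𝓞 K))‖ = (M : ℝ)
      rw [map_natCast, map_natCast, Complex.norm_natCast]
    rw [Finset.prod_congr rfl fun φ _ => h1 φ, Finset.prod_const, Finset.card_univ]
    congr 1
    exact NumberField.Embeddings.card K ℂ
  have nm3 : nm ((3 : 𝓞 K) : K) = (3 : ℝ) ^ Module.finrank ℚ K := by
    unfold nm
    have h1 : ∀ φ : K →+* ℂ, ‖φ (((3 : 𝓞 K)) : K)‖ = (3 : ℝ) := by
      intro φ
      show ‖φ (algebraMap (𝓞 K) K (3 : 𝓞 K))‖ = (3 : ℝ)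
      rw [map_ofNat, map_ofNat]
      norm_num
    rw [Finset.prod_congr rfl fun φ _ => h1 φ, Finset.prod_const, Finset.card_univ]
    congr 1
    exact NumberField.Embeddings.card K ℂ
  have nmuv : nm ((u : K) * (v : K)) = nm ((u * v : 𝓞 K) : K) := rfl
  have huv1 : 1 ≤ nm ((u : K) * (v : K)) := by
    rw [nmuv]
    exact one_le_nm K _ (mul_ne_zero hA.u0 hA.v0)
  obtain ⟨n, hn⟩ : ∃ n : ℝ, n = nm ((u : K) * (v : K)) := ⟨_, rfl⟩
  rw [← hn] at huv1 ⊢
  have hUVm : U * V = algebraMap (𝓞 K) (𝓞 F) (u * v) := by rw [map_mul, hU, hV]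
  have hN1 : (Ideal.absNorm I : ℝ) * Ideal.absNorm J ≤
      n ^ 3 * (M : ℝ) ^ (3 * Module.finrank ℚ K) := by
    have h1 := Ideal.absNorm_dvd_absNorm_of_le hIJ
    have h2 : U * V * (M : 𝓞 F) = algebraMap (𝓞 K) (𝓞 F) (u * v * (M : 𝓞 K)) := by
      rw [map_mul, ← hUVm, map_natCast]
    have hM0 : (u * v * (M : 𝓞 K)) ≠ 0 :=
      mul_ne_zero (mul_ne_zero hA.u0 hA.v0) (Nat.cast_ne_zero.2 hM)
    have h3 : (Ideal.absNorm (Ideal.span {U * V * (M : 𝓞 F)}) : ℝ) =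
        n ^ 3 * (M : ℝ) ^ (3 * Module.finrank ℚ K) := by
      have h4 : nm (((u * v * (M : 𝓞 K) : 𝓞 K)) : K) = nm ((u : K) * (v : K)) *
          nm ((M : 𝓞 K) : K) := nm_mul K _ _
      rw [h2, hnm, h4, nmM, hn]
      ring
    have h4 : 0 < Ideal.absNorm (Ideal.span {U * V * (M : 𝓞 F)}) := by
      have h5 : (0 : ℝ) < (Ideal.absNorm (Ideal.span {U * V * (M : 𝓞 F)}) : ℝ) := by
        rw [h3]
        have : (0 : ℝ) < M := by exact_mod_cast Nat.pos_of_ne_zero hM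
        positivity
      exact_mod_cast h5
    have h5 := Nat.le_of_dvd h4 h1
    rw [map_mul] at h5
    rw [← h3]
    exact_mod_cast h5
  have hN2 : n ≤ Ideal.absNorm J := by
    have h1 := Ideal.absNorm_dvd_absNorm_of_le hJ3
    have hJ0 : J ≠ ⊥ := by
      rw [hJ]
      intro h0
      rw [Ideal.span_eq_bot] at h0
      have h2 : T1 = 0 := h0 T1 (by simp)
      rw [h2, zero_mul] at q12
      exact hUV0 q12.symm
    have h2 : 0 < Ideal.absNorm J := Nat.pos_of_ne_zero (by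
      rw [Ne, Ideal.absNorm_eq_zero_iff]
      exact hJ0)
    have h3 : Ideal.absNorm (Ideal.span {U * V}) ≤ Ideal.absNorm (J * J * J) :=
      Nat.le_of_dvd (by rw [map_mul, map_mul]; positivity) h1
    rw [map_mul, map_mul] at h3
    have h4 : (Ideal.absNorm (Ideal.span {U * V}) : ℝ) = n ^ 3 := by
      rw [hUVm, hnm, hn, nmuv]
    have h5 : n ^ 3 ≤ (Ideal.absNorm J : ℝ) ^ 3 := by
      rw [← h4]
      have h6 : (Ideal.absNorm (Ideal.span {U * V}) : ℝ) ≤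
          (Ideal.absNorm J : ℝ) * Ideal.absNorm J * Ideal.absNorm J := by exact_mod_cast h3
      refine h6.trans (le_of_eq ?_)
      ring
    exact le_of_pow_le_pow_left₀ (by norm_num) (Nat.cast_nonneg _) h5
  have hN3 : (Ideal.absNorm I : ℝ) ≤ n ^ 2 * (M : ℝ) ^ (3 * Module.finrank ℚ K) := by
    have h1 : (Ideal.absNorm I : ℝ) * n ≤ n ^ 3 * (M : ℝ) ^ (3 * Module.finrank ℚ K) :=
      (mul_le_mul_of_nonneg_left hN2 (Nat.cast_nonneg _)).trans hN1
    have hn0 : 0 < n := by linarith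
    have h2 : n ^ 3 * (M : ℝ) ^ (3 * Module.finrank ℚ K) =
        (n ^ 2 * (M : ℝ) ^ (3 * Module.finrank ℚ K)) * n := by ring
    rw [h2] at h1
    exact le_of_mul_le_mul_right h1 hn0
  have hI0 : 0 < Ideal.absNorm I := Nat.pos_of_ne_zero (by
    rw [Ne, Ideal.absNorm_eq_zero_iff, hI]
    intro h0
    rw [Ideal.span_eq_bot] at h0
    have h2 : T1 ^ 2 = 0 := h0 _ (by simp)
    have h3 : T1 = 0 := by simpa using h2
    rw [h3, zero_mul] at q12
    exact hUV0 q12.symm)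
  have hN4 : (Ideal.absNorm (differentIdeal (𝓞 K) (𝓞 F)) : ℝ) ≤
      27 ^ Module.finrank ℚ K * Ideal.absNorm I := by
    have h1 := Ideal.absNorm_dvd_absNorm_of_le hID
    have h3 : (Ideal.absNorm (Ideal.span {(3 : 𝓞 F)}) : ℝ) = 27 ^ Module.finrank ℚ K := by
      have h4 : (3 : 𝓞 F) = algebraMap (𝓞 K) (𝓞 F) 3 := by rw [map_ofNat]
      rw [h4, hnm, nm3, ← pow_mul, mul_comm, pow_mul]
      norm_num
    have h30 : 0 < Ideal.absNorm (Ideal.span {(3 : 𝓞 F)}) := by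
      have : (0 : ℝ) < (Ideal.absNorm (Ideal.span {(3 : 𝓞 F)}) : ℝ) := by rw [h3]; positivity
      exact_mod_cast this
    have h5 := Nat.le_of_dvd (by rw [map_mul]; positivity) h1
    rw [map_mul] at h5
    rw [← h3]
    exact_mod_cast h5
  have hdisc := NumberField.natAbs_discr_eq_absNorm_differentIdeal_mul_natAbs_discr_pow K (𝓞 K) F
    (𝓞 F)
  rw [hd] at hdisc
  have hcast : ∀ z : ℤ, |(z : ℝ)| = (z.natAbs : ℝ) := by
    intro z
    rw [Nat.cast_natAbs, Int.cast_abs]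
  rw [hcast, hcast, hdisc]
  push_cast
  have h1 : (Ideal.absNorm (differentIdeal (𝓞 K) (𝓞 F)) : ℝ) ≤
      27 ^ Module.finrank ℚ K * (n ^ 2 * (M : ℝ) ^ (3 * Module.finrank ℚ K)) :=
    hN4.trans (mul_le_mul_of_nonneg_left hN3 (by positivity))
  refine (mul_le_mul_of_nonneg_right h1 (by positivity)).trans (le_of_eq ?_)
  ring

end H88.A4
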