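import Pool.Agent.H88.A4.RCub

/-!
# [H88 A4 RSiz] Sizes of coordinates

`z = z0 + z1 t1 + z2 t2`, `ψ : K →+* ℂ`, `|φ z| ≤ Λ` for the embeddings `φ` of `F` over `ψ`. Then
`|ψ z1| |ψ(u v)| ≤ Λ |ψ(u^2 v)|^{1/3}`, `|ψ z2| |ψ(u v)| ≤ Λ |ψ(u v^2)|^{1/3}`, `|ψ z0| ≤ Λ`.

PROOF. `Tr(z t2) = 3 u v z1`, `Tr(z t1) = 3 u v z2`, `Tr z = 3 z0` (`trace_cub` applied to the
coordinates of `z t2`, `z t1`: `t1 t2 = u v`, `t2 ^ 2 = u t1`, `t1 ^ 2 = v t2`), and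
`ψ (Tr y) = ∑ φ y` over the three embeddings over `ψ` (`trace_eq_sum_embeddings` for the
`K`-algebra `ℂ` given by `ψ`, `RingHom.toAlgebra`; the number of them is 3). Finally
`|φ t2| ^ 3 = |ψ (u ^ 2 v)|` (`t2 ^ 3 = u t1 t2 = u ^ 2 v`), `|φ t1| ^ 3 = |ψ (u v ^ 2)|`.
-/

open scoped NumberField

noncomputable section

namespace H88.A4

variable {K : Type} [Field K] [NumberField K] {F : Type} [Field F] [NumberField F] [Algebra K F]

private theorem rsiz_tr (hd : Module.finrank K F = 3) (y : F) (ψ : K →+* ℂ) (B : ℝ)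
    (hB : ∀ φ : F →+* ℂ, φ.comp (algebraMap K F) = ψ → ‖φ y‖ ≤ B) :
    ‖ψ (Algebra.trace K F y)‖ ≤ 3 * B := by
  letI : Algebra K ℂ := ψ.toAlgebra
  have hfd : FiniteDimensional K F := FiniteDimensional.of_finrank_pos (by rw [hd]; norm_num)
  have h1 : ψ (Algebra.trace K F y) = ∑ σ : F →ₐ[K] ℂ, σ y := trace_eq_sum_embeddings ℂ
  have h2 : Fintype.card (F →ₐ[K] ℂ) = 3 := by rw [AlgHom.card, hd]
  rw [h1]
  have h3 : ∀ σ : F →ₐ[K] ℂ, ‖σ y‖ ≤ B := by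
    intro σ
    refine hB (σ : F →+* ℂ) ?_
    ext x
    exact σ.commutes x
  refine le_trans (norm_sum_le _ _) (le_trans (Finset.sum_le_sum fun σ _ => h3 σ) ?_)
  rw [Finset.sum_const, Finset.card_univ, h2, nsmul_eq_mul]
  norm_num

private theorem rsiz_rt (φ : F →+* ℂ) (x : F) (ψ : K →+* ℂ) (hφ : φ.comp (algebraMap K F) = ψ)
    (c : K) (h : x ^ 3 = algebraMap K F c) : ‖φ x‖ = ‖ψ c‖ ^ (1 / 3 : ℝ) := by
  have h1 : ‖ψ c‖ = ‖φ x‖ ^ 3 := by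
    rw [← norm_pow, ← map_pow, h, ← hφ]
    rfl
  have h2 := Real.pow_rpow_inv_natCast (norm_nonneg (φ x)) (n := 3) (by norm_num)
  rw [h1, one_div]
  exact h2.symm

theorem coord_size {u v : 𝓞 K} (hu : u ≠ 0) (hv : v ≠ 0)
    {t1 t2 a : F} (hD : Dat F u v t1 t2 a) (z : F) (z0 z1 z2 : K)
    (h : z = algebraMap K F z0 + algebraMap K F z1 * t1 + algebraMap K F z2 * t2)
    (ψ : K →+* ℂ) (Λ : ℝ)
    (hΛ : ∀ φ : F →+* ℂ, φ.comp (algebraMap K F) = ψ → ‖φ z‖ ≤ Λ) :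
    ‖ψ z0‖ ≤ Λ ∧
      ‖ψ z1‖ * ‖ψ ((u : K) * (v : K))‖ ≤ Λ * ‖ψ ((u : K) ^ 2 * (v : K))‖ ^ (1 / 3 : ℝ) ∧
      ‖ψ z2‖ * ‖ψ ((u : K) * (v : K))‖ ≤ Λ * ‖ψ ((u : K) * (v : K) ^ 2)‖ ^ (1 / 3 : ℝ) := by
  have hu' : (u : K) ≠ 0 := by
    intro h0
    exact hu (NumberField.RingOfIntegers.ext h0)
  have hv' : (v : K) ≠ 0 := by
    intro h0
    exact hv (NumberField.RingOfIntegers.ext h0)
  have s1 := sq1 hu' hv' hD.cub hD.prd
  have s2 := sq2 hu' hv' hD.cub hD.prd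
  have hprd := hD.prd
  have htr := fun z0 z1 z2 => trace_cub hu' hv' hD.deg hD.gen hD.cub hD.prd z0 z1 z2
  have c2 : t2 ^ 3 = algebraMap K F ((u : K) ^ 2 * (v : K)) := by
    have : t2 ^ 3 = t2 ^ 2 * t2 := by ring
    rw [this, s2, mul_assoc, hprd, ← map_mul]
    congr 1
    ring
  have n3 : ‖(3 : ℂ)‖ = 3 := by norm_num
  refine ⟨?_, ?_, ?_⟩
  · have h1 := rsiz_tr hD.deg z ψ Λ hΛ
    rw [h, htr, map_mul, norm_mul, map_ofNat, n3] at h1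
    linarith
  · have h1 := rsiz_tr hD.deg (z * t2) ψ (Λ * ‖ψ ((u : K) ^ 2 * (v : K))‖ ^ (1 / 3 : ℝ)) (by
      intro φ hφ
      rw [map_mul, norm_mul, rsiz_rt φ t2 ψ hφ _ c2]
      exact mul_le_mul_of_nonneg_right (hΛ φ hφ) (by positivity))
    have h2 : z * t2 = algebraMap K F ((u : K) * (v : K) * z1) +
        algebraMap K F ((u : K) * z2) * t1 + algebraMap K F z0 * t2 := by
      rw [h, map_mul _ _ z1, ← hprd, map_mul _ _ z2]
      have : (algebraMap K F z0 + algebraMap K F z1 * t1 + algebraMap K F z2 * t2) * t2 =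
        algebraMap K F z0 * t2 + algebraMap K F z1 * (t1 * t2) + algebraMap K F z2 * t2 ^ 2 := by
        ring
      rw [this, s2]
      ring
    rw [h2, htr, map_mul, norm_mul, map_ofNat, n3, map_mul, norm_mul] at h1
    linarith
  · have h1 := rsiz_tr hD.deg (z * t1) ψ (Λ * ‖ψ ((u : K) * (v : K) ^ 2)‖ ^ (1 / 3 : ℝ)) (by
      intro φ hφ
      rw [map_mul, norm_mul, rsiz_rt φ t1 ψ hφ _ hD.cub]
      exact mul_le_mul_of_nonneg_right (hΛ φ hφ) (by positivity))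
    have h2 : z * t1 = algebraMap K F ((u : K) * (v : K) * z2) +
        algebraMap K F z0 * t1 + algebraMap K F ((v : K) * z1) * t2 := by
      rw [h, map_mul _ _ z2, ← hprd, map_mul _ _ z1]
      have : (algebraMap K F z0 + algebraMap K F z1 * t1 + algebraMap K F z2 * t2) * t1 =
        algebraMap K F z0 * t1 + algebraMap K F z1 * t1 ^ 2 + algebraMap K F z2 * (t1 * t2) := by
        ring
      rw [this, s1]
      ring
    rw [h2, htr, map_mul, norm_mul, map_ofNat, n3, map_mul, norm_mul] at h1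
    linarith

end H88.A4
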