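import Pool.Agent.H88.A4.RInt
import Pool.Agent.H88.A4.RSiz
import Pool.Agent.H88.A4.RDis
import Pool.Agent.H88.A4.RAlg
import Pool.Agent.H88.A4.RAdm
import Pool.Agent.H88.A4.Geo

/-!
# [H88 A4 RFin] Assembly of steps 2, 3: `RedFieldStmt` from `MinkStmt`

PROOF. `(u, v)`, `F`, `t1`, `t2`, `a`, `(a) = J ^ 2` given; `X = (s t) ^ 3`. Apply `MinkStmt` to the
weights `w φ = |φ a| ^ {1/2}` and `L = J⁻¹`. `absNorm L * ∏ w = 1`: `∏ φ |φ a| = |N_{F/ℚ} a| =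
absNorm (J ^ 2)`. With `discr_bound`: `(l0 l1 l2) ^ d ≤ C nm(u v) ≤ C (s t) ^ {3 d}`, so
`l0 l1 l2 ≤ C (s t) ^ 3`. Put `ρ1 = l0 / (s t)`, `ρ2 = l1 / (s t)`, `ρ3 = l2 / (s t)`:
`ρ1 ≤ ρ2 ≤ ρ3`, `ρ1 ρ2 ρ3 ≤ C`, hence `ρ1 ^ 3 ≤ C`, `ρ1 ρ2 ^ 2 ≤ C`: `Rho`.
For `x_i, x_j ∈ L`: `a x_i x_j` is integral (`(a) L ^ 2 = 1`), and `|φ (a x_i x_j)| ≤ l_i l_j`.
With `m1 = 3 M ^ 6`: `m1 a x_i x_j = A_ij + B_ij t1 + C_ij t2` with `A, B, C` integral
(`coord_int`), `B_ij, C_ij ∈ 𝓞 K` symmetric. Sizes (`coord_size`): `|ψ B_ij| |ψ(u v)| ≤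
m1 l_i l_j |ψ(u^2 v)|^{1/3}`, so `|B_ij| ≤ C ρ_i ρ_j s`, and `|C_ij| ≤ C ρ_i ρ_j t` (use the sizes of
`u`, `v` in `Adm`). `β = (B_00, B_01, B_11, C_00, C_01, C_11)`, `π = (B_02, B_12, C_02, C_12)`,
`r = B_22`, `r' = C_22`. `Sz` holds. `det_pencil`: `det(l B + μ C) = κ (u l^3 + v μ^3)`, `κ ≠ 0`;
`u' = κ u = det B`, `v' = κ v = det C` are in `𝓞 K`; `M ∈ (u, v)` gives `k := M κ ∈ 𝓞 K`, `m := M`;
`m u' = k u`. `|ψ u'| = |det B| ≤ 6 (C s)^3 (ρ1ρ2ρ3)^2 ≤ C s^3 ≤ C |ψ u|`, so `|ψ κ| ≤ C`: `Bd C' k`.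
`Adm M' C' s t u' v'` by `adm_scale`. `Sol` by `sol_of_pencil`. `IsSquare (a zz)` by `zz_square`
(`x = x_0`, `y = x_1`). `Aniso`: `y = y1 x_0 + y2 x_1 ≠ 0`, `m1 a y ^ 2` has coordinates 1, 2 equal to
the two forms; if both vanish `a y ^ 2 ∈ K`: contradiction with `no_iso`.
Polynomial bound of `π`: `|B_i2| ≤ C s ρ_i ρ3`; by `Aniso`, `B_00` or `C_00` is a nonzero element of
`𝓞 K`, `1 ≤ nm ≤ (C s ρ1^2)^d` (as `t ≤ s`), so `ρ1 ≥ c s^{-1/2}` and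
`ρ3 ≤ C / (ρ1 ρ2) ≤ C ρ1 ^ {-2} ≤ C s`, `ρ2 ≤ ρ3`; `s ≥ t ≥ 1/C`. So all entries are
`≤ C s ^ 3 ≤ Hp C' 3 s`.
-/

open scoped NumberField nonZeroDivisors

noncomputable section

namespace H88.A4

variable (K : Type) [Field K] [NumberField K]

private theorem prod_norm {F : Type} [Field F] [NumberField F] (x : F) :
    ∏ φ : F →+* ℂ, ‖φ x‖ = |((Algebra.norm ℚ x : ℚ) : ℝ)| := by
  have h := Algebra.norm_eq_prod_embeddings ℚ ℂ x
  have h2 : ‖(algebraMap ℚ ℂ) (Algebra.norm ℚ x)‖ = ∏ σ : F →ₐ[ℚ] ℂ, ‖σ x‖ := by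
    rw [h, norm_prod]
  have h3 : ∏ φ : F →+* ℂ, ‖φ x‖ = ∏ σ : F →ₐ[ℚ] ℂ, ‖σ x‖ :=
    Fintype.prod_equiv (RingHom.equivRatAlgHom F ℂ) _ _ (fun φ => rfl)
  rw [h3, ← h2, eq_ratCast, Complex.norm_ratCast]

private theorem prod_one {F : Type} [Field F] [NumberField F] {a : F} (ha : a ≠ 0)
    {J : FractionalIdeal (𝓞 F)⁰ F} (h : FractionalIdeal.spanSingleton (𝓞 F)⁰ a = J ^ 2) :
    ((FractionalIdeal.absNorm J⁻¹ : ℚ) : ℝ) * ∏ φ : F →+* ℂ, Real.sqrt ‖φ a‖ = 1 := by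
  have h1 : (FractionalIdeal.absNorm J) ^ 2 = |Algebra.norm ℚ a| := by
    rw [← map_pow, ← h, FractionalIdeal.absNorm_span_singleton]
  have h2 : ((FractionalIdeal.absNorm J : ℚ) : ℝ) ^ 2 = ∏ φ : F →+* ℂ, ‖φ a‖ := by
    rw [prod_norm]
    exact_mod_cast h1
  have hJ : J ≠ 0 := by
    rintro rfl
    rw [zero_pow two_ne_zero, FractionalIdeal.spanSingleton_eq_zero_iff] at h
    exact ha h
  have h3 : (0 : ℝ) < ((FractionalIdeal.absNorm J : ℚ) : ℝ) := by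
    have : (0 : ℚ) ≤ FractionalIdeal.absNorm J := FractionalIdeal.absNorm_nonneg J
    have h4 : FractionalIdeal.absNorm J ≠ 0 := by
      rw [Ne, FractionalIdeal.absNorm_eq_zero_iff]
      exact hJ
    exact_mod_cast lt_of_le_of_ne this (Ne.symm h4)
  have h5 : (∏ φ : F →+* ℂ, Real.sqrt ‖φ a‖) ^ 2 = ∏ φ : F →+* ℂ, ‖φ a‖ := by
    rw [← Finset.prod_pow]
    exact Finset.prod_congr rfl fun φ _ => Real.sq_sqrt (norm_nonneg _)
  have h6 : (0 : ℝ) ≤ ∏ φ : F →+* ℂ, Real.sqrt ‖φ a‖ :=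
    Finset.prod_nonneg fun φ _ => Real.sqrt_nonneg _
  have h7 : ∏ φ : F →+* ℂ, Real.sqrt ‖φ a‖ = ((FractionalIdeal.absNorm J : ℚ) : ℝ) := by
    rw [← h2] at h5
    exact (pow_left_inj₀ h6 h3.le two_ne_zero).1 h5
  rw [h7, map_inv₀]
  push_cast
  exact inv_mul_cancel₀ h3.ne'

private theorem le_of_pow (d : ℕ) (hd : 0 < d) {x y C1 : ℝ} (hx : 0 ≤ x) (hy : 0 ≤ y)
    (h : x ^ d ≤ C1 * y ^ d) : x ≤ max 1 C1 * y := by
  have h1 : C1 ≤ (max 1 C1) ^ d := by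
    have : max 1 C1 ≤ (max 1 C1) ^ d := le_self_pow₀ (le_max_left _ _) hd.ne'
    exact (le_max_right _ _).trans this
  have h2 : x ^ d ≤ (max 1 C1 * y) ^ d := by
    rw [mul_pow]
    exact h.trans (mul_le_mul_of_nonneg_right h1 (pow_nonneg hy d))
  exact (pow_le_pow_iff_left₀ hx (mul_nonneg (zero_le_one.trans (le_max_left _ _)) hy) hd.ne').1 h2

private theorem size1 {X Y L Z C s t : ℝ} (hX : 0 ≤ X) (hL : 0 ≤ L) (hC : 0 < C) (hs : 0 < s)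
    (ht : 0 < t) (h : X * Y ≤ L * Z) (hY : s ^ 3 * t ^ 3 ≤ C ^ 2 * Y) (hZ : Z ≤ C * (s ^ 2 * t)) :
    X ≤ C ^ 3 * s * (L / (s * t) ^ 2) := by
  have h1 : X * (s ^ 3 * t ^ 3) ≤ C ^ 3 * L * (s ^ 2 * t) := by
    calc X * (s ^ 3 * t ^ 3) ≤ X * (C ^ 2 * Y) := mul_le_mul_of_nonneg_left hY hX
      _ = C ^ 2 * (X * Y) := by ring
      _ ≤ C ^ 2 * (L * Z) := mul_le_mul_of_nonneg_left h (by positivity)
      _ ≤ C ^ 2 * (L * (C * (s ^ 2 * t))) := by gcongr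
      _ = C ^ 3 * L * (s ^ 2 * t) := by ring
  have h2 : C ^ 3 * s * (L / (s * t) ^ 2) = C ^ 3 * L * (s ^ 2 * t) / (s ^ 3 * t ^ 3) := by
    field_simp
  rw [h2, le_div_iff₀ (by positivity)]
  exact h1

private theorem size2 {X Y L Z C s t : ℝ} (hX : 0 ≤ X) (hL : 0 ≤ L) (hC : 0 < C) (hs : 0 < s)
    (ht : 0 < t) (h : X * Y ≤ L * Z) (hY : s ^ 3 * t ^ 3 ≤ C ^ 2 * Y) (hZ : Z ≤ C * (s * t ^ 2)) :
    X ≤ C ^ 3 * t * (L / (s * t) ^ 2) := by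
  have := size1 (s := t) (t := s) hX hL hC ht hs h (by rw [mul_comm]; exact hY)
    (by rw [mul_comm (t ^ 2) s]; exact hZ)
  rwa [mul_comm t s] at this

private theorem cube_root {Z W : ℝ} (hZ : 0 ≤ Z) (hW : 0 ≤ W) (h : Z ≤ W ^ 3) :
    Z ^ (1 / 3 : ℝ) ≤ W := by
  have h1 : Z ^ (1 / 3 : ℝ) ≤ (W ^ 3) ^ (1 / 3 : ℝ) := Real.rpow_le_rpow hZ h (by norm_num)
  have h2 : (W ^ 3) ^ (1 / 3 : ℝ) = W := by
    rw [← Real.rpow_natCast, ← Real.rpow_mul hW]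
    norm_num
  rwa [h2] at h1

private theorem det_le {b : Fin 3 → Fin 3 → ℂ} {c : ℝ} {ρ : Fin 3 → ℝ}
    (h : ∀ i j, ‖b i j‖ ≤ c * (ρ i * ρ j)) (z : ℂ)
    (hz : z = b 2 2 * (b 0 0 * b 1 1 - b 0 1 ^ 2) -
      (b 1 1 * b 0 2 * b 0 2 - b 0 1 * (b 0 2 * b 1 2 + b 1 2 * b 0 2) + b 0 0 * b 1 2 * b 1 2)) :
    ‖z‖ ≤ 6 * c ^ 3 * (ρ 0 * ρ 1 * ρ 2) ^ 2 := by
  have e : z = b 2 2 * b 0 0 * b 1 1 + -(b 2 2 * b 0 1 * b 0 1) + -(b 1 1 * b 0 2 * b 0 2) +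
      b 0 1 * b 0 2 * b 1 2 + b 0 1 * b 1 2 * b 0 2 + -(b 0 0 * b 1 2 * b 1 2) := by
    rw [hz]; ring
  have h3 : ∀ i j k l m n, ‖b i j * b k l * b m n‖ ≤
      (c * (ρ i * ρ j)) * (c * (ρ k * ρ l)) * (c * (ρ m * ρ n)) := by
    intro i j k l m n
    rw [norm_mul, norm_mul]
    have p1 := (norm_nonneg (b i j)).trans (h i j)
    have p2 := (norm_nonneg (b k l)).trans (h k l)
    exact mul_le_mul (mul_le_mul (h i j) (h k l) (norm_nonneg _) p1) (h m n) (norm_nonneg _)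
      (mul_nonneg p1 p2)
  have q1 := h3 2 2 0 0 1 1
  have q2 := h3 2 2 0 1 0 1
  have q3 := h3 1 1 0 2 0 2
  have q4 := h3 0 1 0 2 1 2
  have q5 := h3 0 1 1 2 0 2
  have q6 := h3 0 0 1 2 1 2
  rw [e]
  refine (norm_add_le _ _).trans ?_
  have r5 := norm_add_le (b 2 2 * b 0 0 * b 1 1 + -(b 2 2 * b 0 1 * b 0 1) +
    -(b 1 1 * b 0 2 * b 0 2) + b 0 1 * b 0 2 * b 1 2) (b 0 1 * b 1 2 * b 0 2)
  have r4 := norm_add_le (b 2 2 * b 0 0 * b 1 1 + -(b 2 2 * b 0 1 * b 0 1) +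
    -(b 1 1 * b 0 2 * b 0 2)) (b 0 1 * b 0 2 * b 1 2)
  have r3 := norm_add_le (b 2 2 * b 0 0 * b 1 1 + -(b 2 2 * b 0 1 * b 0 1))
    (-(b 1 1 * b 0 2 * b 0 2))
  have r2 := norm_add_le (b 2 2 * b 0 0 * b 1 1) (-(b 2 2 * b 0 1 * b 0 1))
  rw [norm_neg] at r3 r2
  rw [norm_neg]
  have s1 : (c * (ρ 2 * ρ 2)) * (c * (ρ 0 * ρ 0)) * (c * (ρ 1 * ρ 1)) =
    c ^ 3 * (ρ 0 * ρ 1 * ρ 2) ^ 2 := by ring
  have s2 : (c * (ρ 2 * ρ 2)) * (c * (ρ 0 * ρ 1)) * (c * (ρ 0 * ρ 1)) =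
    c ^ 3 * (ρ 0 * ρ 1 * ρ 2) ^ 2 := by ring
  have s3 : (c * (ρ 1 * ρ 1)) * (c * (ρ 0 * ρ 2)) * (c * (ρ 0 * ρ 2)) =
    c ^ 3 * (ρ 0 * ρ 1 * ρ 2) ^ 2 := by ring
  have s4 : (c * (ρ 0 * ρ 1)) * (c * (ρ 0 * ρ 2)) * (c * (ρ 1 * ρ 2)) =
    c ^ 3 * (ρ 0 * ρ 1 * ρ 2) ^ 2 := by ring
  have s5 : (c * (ρ 0 * ρ 1)) * (c * (ρ 1 * ρ 2)) * (c * (ρ 0 * ρ 2)) =
    c ^ 3 * (ρ 0 * ρ 1 * ρ 2) ^ 2 := by ring
  have s6 : (c * (ρ 0 * ρ 0)) * (c * (ρ 1 * ρ 2)) * (c * (ρ 1 * ρ 2)) =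
    c ^ 3 * (ρ 0 * ρ 1 * ρ 2) ^ 2 := by ring
  rw [s1] at q1
  rw [s2] at q2
  rw [s3] at q3
  rw [s4] at q4
  rw [s5] at q5
  rw [s6] at q6
  linarith

private theorem one_le_of_bd {K : Type} [Field K] [NumberField K] {x : 𝓞 K} (hx : x ≠ 0) {B : ℝ}
    (h : Bd B x) : 1 ≤ B := by
  classical
  by_contra hB
  push Not at hB
  have h1 := one_le_nm K x hx
  have h2 : nm (x : K) < 1 := by
    have hne : (Finset.univ : Finset (K →+* ℂ)).Nonempty := Finset.univ_nonempty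
    obtain ⟨φ, hφ⟩ := hne
    unfold nm
    rw [← Finset.mul_prod_erase _ _ hφ]
    have h3 : ‖φ (x : K)‖ < 1 := (h φ).trans_lt hB
    have h4 : ∏ ψ ∈ Finset.univ.erase φ, ‖ψ (x : K)‖ ≤ 1 :=
      Finset.prod_le_one (fun _ _ => norm_nonneg _) fun ψ _ => ((h ψ).trans_lt hB).le
    calc ‖φ (x : K)‖ * ∏ ψ ∈ Finset.univ.erase φ, ‖ψ (x : K)‖ ≤ ‖φ (x : K)‖ * 1 :=
          mul_le_mul_of_nonneg_left h4 (norm_nonneg _)
      _ < 1 := by rw [mul_one]; exact h3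
  linarith

private theorem nm_uv_le {K : Type} [Field K] [NumberField K] {M : ℕ} {C s t : ℝ} {u v : 𝓞 K}
    (hA : Adm M C s t u v) (hC : 0 < C) (hs : 0 < s) :
    nm ((u : K) * (v : K)) ≤ (C ^ 2 * (s * t) ^ 3) ^ Module.finrank ℚ K := by
  unfold nm
  rw [← NumberField.Embeddings.card K ℂ, ← Finset.card_univ, ← Finset.prod_const]
  refine Finset.prod_le_prod (fun _ _ => norm_nonneg _) fun φ _ => ?_
  rw [map_mul, norm_mul]
  have h1 := hA.ule φ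
  have h2 := hA.vle φ
  calc ‖φ (u : K)‖ * ‖φ (v : K)‖ ≤ (C * s ^ 3) * (C * t ^ 3) :=
        mul_le_mul h1 h2 (norm_nonneg _) (by positivity)
    _ = C ^ 2 * (s * t) ^ 3 := by ring


private theorem exists_int {K : Type} [Field K] [NumberField K] {z : K} (hz : IsIntegral ℤ z) :
    ∃ y : 𝓞 K, (y : K) = z := ⟨⟨z, hz⟩, rfl⟩

/-- The integrality of `a x y`. -/
private theorem int_axx {F : Type} [Field F] [NumberField F] {a : F} (ha : a ≠ 0)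
    {J : FractionalIdeal (𝓞 F)⁰ F} (h : FractionalIdeal.spanSingleton (𝓞 F)⁰ a = J ^ 2) {x y : F}
    (hx : x ∈ J⁻¹) (hy : y ∈ J⁻¹) : IsIntegral ℤ (a * x * y) := by
  have hJ : J ≠ 0 := by
    rintro rfl
    rw [zero_pow two_ne_zero, FractionalIdeal.spanSingleton_eq_zero_iff] at h
    exact ha h
  have h1 : a * x * y ∈ J ^ 2 * J⁻¹ * J⁻¹ := by
    refine FractionalIdeal.mul_mem_mul (FractionalIdeal.mul_mem_mul ?_ hx) hy
    rw [← h]
    exact FractionalIdeal.mem_spanSingleton_self _ _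
  have h2 : J ^ 2 * J⁻¹ * J⁻¹ = 1 := by
    rw [sq, mul_assoc J J, mul_inv_cancel₀ hJ, mul_one, mul_inv_cancel₀ hJ]
  rw [h2, FractionalIdeal.mem_one_iff] at h1
  obtain ⟨z, hz⟩ := h1
  rw [← hz]
  exact z.isIntegral_coe

/-- The data of the reduction. -/
private theorem red_data (hmk : MinkStmt K) (M : ℕ) (hM : M ≠ 0) (C : ℝ) (hC : 1 ≤ C) :
    ∃ C2 : ℝ, 1 ≤ C2 ∧ ∀ s t : ℝ, Rg C s t → ∀ u v : 𝓞 K, Adm M C s t u v →
    ∀ (F : Type) [Field F] [NumberField F] [Algebra K F] (t1 t2 a : F), Dat F u v t1 t2 a →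
      ∃ (x : Fin 3 → F) (ρ : Fin 3 → ℝ), LinearIndependent K x ∧ 0 < ρ 0 ∧ ρ 0 ≤ ρ 1 ∧
        ρ 1 ≤ ρ 2 ∧ ρ 0 * ρ 1 * ρ 2 ≤ C2 ∧ (∀ i j, IsIntegral ℤ (a * x i * x j)) ∧
        ∀ i j (φ : F →+* ℂ), ‖φ (a * x i * x j)‖ ≤ (s * t) ^ 2 * (ρ i * ρ j) := by
  obtain ⟨C0, hC0, hmk⟩ := hmk
  have hd0 : 0 < Module.finrank ℚ K := Module.finrank_pos
  set d := Module.finrank ℚ K with hd
  let Dd : ℝ := Real.sqrt (|(NumberField.discr K : ℝ)| ^ 3 * 27 ^ d * (M : ℝ) ^ (3 * d))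
  refine ⟨max 1 (C0 * Dd * (C ^ 2) ^ d), le_max_left _ _, ?_⟩
  intro s t hR u v hA F _ _ _ t1 t2 a hD
  have hC' : 0 < C := by linarith
  have ht : 0 < t := by
    by_contra h
    push Not at h
    have := hR.1
    nlinarith
  have hs : 0 < s := ht.trans_le hR.2
  obtain ⟨J, hJ⟩ := hD.isq
  have hJ0 : J ≠ 0 := by
    rintro rfl
    rw [zero_pow two_ne_zero, FractionalIdeal.spanSingleton_eq_zero_iff] at hJ
    exact hD.a0 hJ
  have hw0 : ∀ φ : F →+* ℂ, 0 < ‖φ a‖ := fun φ =>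
    norm_pos_iff.2 ((map_ne_zero φ).2 hD.a0)
  obtain ⟨x, l, hx, hxL, hl0, hl01, hl12, hlx, hprod⟩ := hmk F hD.deg (fun φ => Real.sqrt ‖φ a‖)
    (fun φ => Real.sqrt_pos.2 (hw0 φ))
    (fun φ => by
      rw [NumberField.ComplexEmbedding.conjugate_coe_eq, RCLike.norm_conj]) J⁻¹
    (inv_ne_zero hJ0)
  have hl1 : 0 < l 1 := hl0.trans_le hl01
  have hl2 : 0 < l 2 := hl1.trans_le hl12
  have h1 := prod_one hD.a0 hJ
  rw [mul_assoc (C0 * _), h1, mul_one] at hprod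
  have h2 := discr_bound M hM hA hD
  rw [← hd] at h2
  have hnm0 : 0 ≤ nm ((u : K) * (v : K)) := Finset.prod_nonneg fun _ _ => norm_nonneg _
  have h3 : Real.sqrt |(NumberField.discr F : ℝ)| ≤ Dd * nm ((u : K) * (v : K)) := by
    calc Real.sqrt |(NumberField.discr F : ℝ)| ≤ Real.sqrt (|(NumberField.discr K : ℝ)| ^ 3 *
          27 ^ d * (M : ℝ) ^ (3 * d) * nm ((u : K) * (v : K)) ^ 2) := Real.sqrt_le_sqrt h2
      _ = Dd * nm ((u : K) * (v : K)) := by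
          rw [Real.sqrt_mul' _ (sq_nonneg _), Real.sqrt_sq hnm0]
  have h4 : nm ((u : K) * (v : K)) ≤ (C ^ 2 * (s * t) ^ 3) ^ d := nm_uv_le hA hC' hs
  have hDd : 0 ≤ Dd := Real.sqrt_nonneg _
  have h5 : (l 0 * l 1 * l 2) ^ d ≤ (C0 * Dd * (C ^ 2) ^ d) * ((s * t) ^ 3) ^ d := by
    calc (l 0 * l 1 * l 2) ^ d ≤ C0 * Real.sqrt |(NumberField.discr F : ℝ)| := hprod
      _ ≤ C0 * (Dd * nm ((u : K) * (v : K))) := mul_le_mul_of_nonneg_left h3 hC0.le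
      _ ≤ C0 * (Dd * (C ^ 2 * (s * t) ^ 3) ^ d) := by gcongr
      _ = (C0 * Dd * (C ^ 2) ^ d) * ((s * t) ^ 3) ^ d := by rw [mul_pow]; ring
  have h6 := le_of_pow d hd0 (by positivity) (by positivity) h5
  have hst : 0 < s * t := mul_pos hs ht
  refine ⟨x, fun i => l i / (s * t), hx, div_pos hl0 hst, div_le_div_of_nonneg_right hl01 hst.le,
    div_le_div_of_nonneg_right hl12 hst.le, ?_, fun i j => int_axx hD.a0 hJ (hxL i) (hxL j),
    fun i j φ => ?_⟩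
  · have : l 0 / (s * t) * (l 1 / (s * t)) * (l 2 / (s * t)) =
        l 0 * l 1 * l 2 / (s * t) ^ 3 := by field_simp
    rw [this, div_le_iff₀ (by positivity)]
    exact h6
  · have h7 : (s * t) ^ 2 * (l i / (s * t) * (l j / (s * t))) = l i * l j := by
      field_simp
    rw [h7]
    have h8 : ‖φ (a * x i * x j)‖ =
        (Real.sqrt ‖φ a‖ * ‖φ (x i)‖) * (Real.sqrt ‖φ a‖ * ‖φ (x j)‖) := by
      rw [map_mul, map_mul, norm_mul, norm_mul]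
      have := Real.mul_self_sqrt (norm_nonneg (φ a))
      calc ‖φ a‖ * ‖φ (x i)‖ * ‖φ (x j)‖ =
            (Real.sqrt ‖φ a‖ * Real.sqrt ‖φ a‖) * ‖φ (x i)‖ * ‖φ (x j)‖ := by rw [this]
        _ = _ := by ring
    rw [h8]
    have h9 : 0 ≤ Real.sqrt ‖φ a‖ * ‖φ (x i)‖ := by positivity
    exact mul_le_mul (hlx i φ) (hlx j φ) (by positivity) (h9.trans (hlx i φ))

theorem redField (hmk : MinkStmt K) : RedFieldStmt K := by
  intro M hM C hC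
  obtain ⟨C2, hC2, hdata⟩ := red_data K hmk M hM C hC
  have hC0 : 0 < C := by linarith
  have hM1 : (1 : ℝ) ≤ (M : ℝ) := by exact_mod_cast Nat.one_le_iff_ne_zero.2 hM
  set C3 : ℝ := 3 * (M : ℝ) ^ 6 * C ^ 3 with hC3d
  have hC3 : 1 ≤ C3 := by
    have h1 : (1 : ℝ) ≤ (M : ℝ) ^ 6 := one_le_pow₀ hM1
    have h2 : (1 : ℝ) ≤ C ^ 3 := one_le_pow₀ hC
    nlinarith
  have hC30 : 0 < C3 := by linarith
  set C4 : ℝ := 6 * C3 ^ 3 * C2 ^ 2 * C with hC4d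
  have hC4 : 0 < C4 := by positivity
  set Ck : ℝ := M * C4 + M with hCkd
  have hCk : 1 ≤ Ck := by nlinarith
  obtain ⟨M', C5, hM', hC5, hMM', hCC5, hadm⟩ := adm_scale K M hM C Ck hC hCk
  set C' : ℝ := C5 + Ck + C3 + C2 + C3 ^ 3 * C2 ^ 2 with hC'd
  have hpos : 0 ≤ C3 ^ 3 * C2 ^ 2 := by positivity
  have hC'1 : 1 ≤ C' := by linarith
  refine ⟨M', 3, C', hM', hC'1, ?_⟩
  intro s t hR u v hA F _ _ _ t1 t2 a hD hns
  have ht : 0 < t := by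
    by_contra h
    push Not at h
    have := hR.1
    nlinarith
  have hts := hR.2
  have hs : 0 < s := ht.trans_le hts
  have hu : (u : K) ≠ 0 := by
    rw [Ne, NumberField.RingOfIntegers.coe_eq_zero_iff]
    exact hA.u0
  have hv : (v : K) ≠ 0 := by
    rw [Ne, NumberField.RingOfIntegers.coe_eq_zero_iff]
    exact hA.v0
  obtain ⟨x, ρ, hx, hρ0, hρ01, hρ12, hρ, hint, hsz⟩ := hdata s t hR u v hA F t1 t2 a hD
  have hρ1 : 0 < ρ 1 := hρ0.trans_le hρ01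
  have hρ2 : 0 < ρ 2 := hρ1.trans_le hρ12
  have hρp : ∀ i, 0 < ρ i := by
    intro i
    fin_cases i
    · exact hρ0
    · exact hρ1
    · exact hρ2
  have hco := fun z => exists_coord hu hv hD.deg hD.gen hD.cub hD.prd z
  choose c0 c1 c2 hc using hco
  have hci := fun i j => coord_int M hM hA hD _ (hint i j) _ _ _ (hc _)
  have hbO := fun i j => exists_int (hci i j).2.1
  have hcO := fun i j => exists_int (hci i j).2.2
  choose b hb using hbO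
  choose c hcc using hcO
  have hsym : ∀ i j, a * x i * x j = a * x j * x i := fun i j => by ring
  have hbs : ∀ i j, b i j = b j i := by
    intro i j
    apply NumberField.RingOfIntegers.coe_injective
    show ((b i j : 𝓞 K) : K) = ((b j i : 𝓞 K) : K)
    rw [hb, hb, hsym]
  have hcs : ∀ i j, c i j = c j i := by
    intro i j
    apply NumberField.RingOfIntegers.coe_injective
    show ((c i j : 𝓞 K) : K) = ((c j i : 𝓞 K) : K)
    rw [hcc, hcc, hsym]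
  -- sizes
  have hbsz : ∀ i j (ψ : K →+* ℂ), ‖ψ (b i j : K)‖ ≤ C3 * s * (ρ i * ρ j) ∧
      ‖ψ (c i j : K)‖ ≤ C3 * t * (ρ i * ρ j) := by
    intro i j ψ
    have hpp := mul_pos (hρp i) (hρp j)
    obtain ⟨_, h1, h2⟩ := coord_size hA.u0 hA.v0 hD _ _ _ _ (hc (a * x i * x j)) ψ
      ((s * t) ^ 2 * (ρ i * ρ j)) (fun φ _ => hsz i j φ)
    have hul := hA.ule ψ
    have hug := hA.uge ψ
    have hvl := hA.vle ψ
    have hvg := hA.vge ψ
    have hY : s ^ 3 * t ^ 3 ≤ C ^ 2 * ‖ψ ((u : K) * (v : K))‖ := by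
      rw [map_mul, norm_mul]
      calc s ^ 3 * t ^ 3 ≤ (C * ‖ψ (u : K)‖) * (C * ‖ψ (v : K)‖) :=
            mul_le_mul hug hvg (by positivity) (by positivity)
        _ = _ := by ring
    have hZ1 : ‖ψ ((u : K) ^ 2 * (v : K))‖ ^ (1 / 3 : ℝ) ≤ C * (s ^ 2 * t) := by
      refine cube_root (norm_nonneg _) (by positivity) ?_
      rw [map_mul, map_pow, norm_mul, norm_pow]
      calc ‖ψ (u : K)‖ ^ 2 * ‖ψ (v : K)‖ ≤ (C * s ^ 3) ^ 2 * (C * t ^ 3) :=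
            mul_le_mul (pow_le_pow_left₀ (norm_nonneg _) hul 2) hvl (norm_nonneg _)
              (by positivity)
        _ = _ := by ring
    have hZ2 : ‖ψ ((u : K) * (v : K) ^ 2)‖ ^ (1 / 3 : ℝ) ≤ C * (s * t ^ 2) := by
      refine cube_root (norm_nonneg _) (by positivity) ?_
      rw [map_mul, map_pow, norm_mul, norm_pow]
      calc ‖ψ (u : K)‖ * ‖ψ (v : K)‖ ^ 2 ≤ (C * s ^ 3) * (C * t ^ 3) ^ 2 :=
            mul_le_mul hul (pow_le_pow_left₀ (norm_nonneg _) hvl 2) (by positivity)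
              (by positivity)
        _ = _ := by ring
    have k1 := size1 (norm_nonneg _) (by positivity) hC0 hs ht h1 hY hZ1
    have k2 := size2 (norm_nonneg _) (by positivity) hC0 hs ht h2 hY hZ2
    have e0 : (s * t) ^ 2 * (ρ i * ρ j) / (s * t) ^ 2 = ρ i * ρ j := by
      field_simp
    rw [e0] at k1 k2
    have em : ‖ψ (3 * (M : K) ^ 6)‖ = 3 * (M : ℝ) ^ 6 := by
      rw [map_mul, map_pow, map_natCast, map_ofNat, norm_mul, norm_pow, Complex.norm_natCast]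
      norm_num
    rw [hb, hcc, map_mul, norm_mul, em, map_mul, norm_mul, em]
    constructor
    · calc 3 * (M : ℝ) ^ 6 * ‖ψ (c1 (a * x i * x j))‖ ≤
            3 * (M : ℝ) ^ 6 * (C ^ 3 * s * (ρ i * ρ j)) := by gcongr
        _ = _ := by rw [hC3d]; ring
    · calc 3 * (M : ℝ) ^ 6 * ‖ψ (c2 (a * x i * x j))‖ ≤
            3 * (M : ℝ) ^ 6 * (C ^ 3 * t * (ρ i * ρ j)) := by gcongr
        _ = _ := by rw [hC3d]; ring
  -- the pencil
  have hm1 : (3 * (M : K) ^ 6) ≠ 0 :=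
    mul_ne_zero (by norm_num) (pow_ne_zero _ (by exact_mod_cast hM))
  have hrel : ∀ i j, algebraMap K F (3 * (M : K) ^ 6) * a * x i * x j =
      algebraMap K F (3 * (M : K) ^ 6 * c0 (a * x i * x j)) + algebraMap K F (b i j : K) * t1 +
        algebraMap K F (c i j : K) * t2 := by
    intro i j
    rw [hb, hcc]
    have := hc (a * x i * x j)
    calc algebraMap K F (3 * (M : K) ^ 6) * a * x i * x j =
          algebraMap K F (3 * (M : K) ^ 6) * (a * x i * x j) := by ring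
      _ = algebraMap K F (3 * (M : K) ^ 6) * (algebraMap K F (c0 (a * x i * x j)) +
          algebraMap K F (c1 (a * x i * x j)) * t1 +
            algebraMap K F (c2 (a * x i * x j)) * t2) := by rw [← this]
      _ = _ := by simp only [map_mul]; ring
  let BM : Matrix (Fin 3) (Fin 3) K := fun i j => (b i j : K)
  let CM : Matrix (Fin 3) (Fin 3) K := fun i j => (c i j : K)
  obtain ⟨κ, hκ, hdet⟩ := det_pencil hu hv hD.deg hD.gen hD.cub hD.prd a hD.a0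
    (3 * (M : K) ^ 6) hm1 x hx (fun i j => 3 * (M : K) ^ 6 * c0 (a * x i * x j)) BM CM hrel
  have hsol := sol_of_pencil (⟨b 0 0, b 0 1, b 1 1, c 0 0, c 0 1, c 1 1⟩ : Blk K)
    ⟨b 0 2, b 1 2, c 0 2, c 1 2⟩ (b 2 2 : K) (c 2 2 : K) (κ * u) (κ * v) (by
      intro l μ
      have := hdet l μ
      have e : l • BM + μ • CM =
          l • !![(b 0 0 : K), (b 0 1 : K), (b 0 2 : K); (b 0 1 : K), (b 1 1 : K), (b 1 2 : K);
              (b 0 2 : K), (b 1 2 : K), (b 2 2 : K)] +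
            μ • !![(c 0 0 : K), (c 0 1 : K), (c 0 2 : K); (c 0 1 : K), (c 1 1 : K), (c 1 2 : K);
              (c 0 2 : K), (c 1 2 : K), (c 2 2 : K)] := by
        have hBM : ∀ i j, BM i j = (b i j : K) := fun _ _ => rfl
        have hCM : ∀ i j, CM i j = (c i j : K) := fun _ _ => rfl
        ext i j
        fin_cases i <;> fin_cases j <;>
          simp [hBM, hCM, hbs 1 0, hbs 2 0, hbs 2 1, hcs 1 0, hcs 2 0, hcs 2 1]
      rw [e] at this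
      rw [this]
      ring)
  clear_value BM CM
  let β : Blk (𝓞 K) := ⟨b 0 0, b 0 1, b 1 1, c 0 0, c 0 1, c 1 1⟩
  let π : Row (𝓞 K) := ⟨b 0 2, b 1 2, c 0 2, c 1 2⟩
  let u' : 𝓞 K := b 2 2 * β.D1 - β.Ab π.p1 π.p2 π.p1 π.p2
  let v' : 𝓞 K := c 2 2 * β.D3 - β.Ac π.q1 π.q2 π.q1 π.q2
  have hu' : (u' : K) = κ * u := by
    rw [← hsol.e1]
    simp [u', β, π, Blk.D1, Blk.Ab]
  have hv' : (v' : K) = κ * v := by
    rw [← hsol.e4]
    simp [v', β, π, Blk.D3, Blk.Ac]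
  have hSol : Sol β π (b 2 2) (c 2 2) u' v' := by
    refine ⟨rfl, ?_, ?_, rfl⟩
    · apply NumberField.RingOfIntegers.coe_injective
      have := hsol.e2
      simp only [Blk.D1, Blk.D2, Blk.Ab, Blk.Ac] at this
      simp only [β, π, Blk.D1, Blk.D2, Blk.Ab, Blk.Ac, map_add, map_mul, map_sub, map_pow,
        map_ofNat]
      exact this
    · apply NumberField.RingOfIntegers.coe_injective
      have := hsol.e3
      simp only [Blk.D3, Blk.D2, Blk.Ab, Blk.Ac] at this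
      simp only [β, π, Blk.D3, Blk.D2, Blk.Ab, Blk.Ac, map_add, map_mul, map_sub, map_pow,
        map_ofNat]
      exact this
  obtain ⟨xx, yy, hxy⟩ := Ideal.mem_span_pair.1 hA.cop
  have hxyK : (xx : K) * u + yy * v = M := by
    have := congrArg (fun z : 𝓞 K => (z : K)) hxy
    simpa using this
  have hkK : ((xx * u' + yy * v' : 𝓞 K) : K) = κ * M := by
    rw [← hxyK]
    simp only [map_add, map_mul, hu', hv']
    ring
  have hkK' : algebraMap (𝓞 K) K (xx * u' + yy * v') = κ * M := hkK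
  have hu'' : algebraMap (𝓞 K) K u' = κ * algebraMap (𝓞 K) K u := hu'
  have hv'' : algebraMap (𝓞 K) K v' = κ * algebraMap (𝓞 K) K v := hv'
  have hMK : (M : K) ≠ 0 := by exact_mod_cast hM
  have hk0 : xx * u' + yy * v' ≠ 0 := by
    intro h
    rw [h, map_zero] at hkK'
    exact mul_ne_zero hκ hMK hkK'.symm
  have hM0 : (M : 𝓞 K) ≠ 0 := by exact_mod_cast hM
  have e1 : (M : 𝓞 K) * u' = (xx * u' + yy * v') * u := by
    apply NumberField.RingOfIntegers.coe_injective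
    show algebraMap (𝓞 K) K ((M : 𝓞 K) * u') = algebraMap (𝓞 K) K ((xx * u' + yy * v') * u)
    rw [map_mul, map_mul, hkK', hu'', map_natCast]
    ring
  have e2 : (M : 𝓞 K) * v' = (xx * u' + yy * v') * v := by
    apply NumberField.RingOfIntegers.coe_injective
    show algebraMap (𝓞 K) K ((M : 𝓞 K) * v') = algebraMap (𝓞 K) K ((xx * u' + yy * v') * v)
    rw [map_mul, map_mul, hkK', hv'', map_natCast]
    ring
  -- the size of `κ`
  have hκb : ∀ ψ : K →+* ℂ, ‖ψ κ‖ ≤ C4 := by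
    intro ψ
    have h1 := det_le (b := fun i j => ψ (b i j : K)) (c := C3 * s) (ρ := ρ)
      (fun i j => (hbsz i j ψ).1) (ψ (u' : K)) (by
        simp [u', β, π, Blk.D1, Blk.Ab])
    rw [hu', map_mul, norm_mul] at h1
    have h2 : (ρ 0 * ρ 1 * ρ 2) ^ 2 ≤ C2 ^ 2 := pow_le_pow_left₀ (by positivity) hρ 2
    have h3 := hA.uge ψ
    have h4 : 0 < ‖ψ (u : K)‖ := norm_pos_iff.2 ((map_ne_zero ψ).2 hu)
    have h5 : ‖ψ κ‖ * ‖ψ (u : K)‖ ≤ C4 * ‖ψ (u : K)‖ := by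
      calc ‖ψ κ‖ * ‖ψ (u : K)‖ ≤ 6 * (C3 * s) ^ 3 * (ρ 0 * ρ 1 * ρ 2) ^ 2 := h1
        _ ≤ 6 * (C3 * s) ^ 3 * C2 ^ 2 := mul_le_mul_of_nonneg_left h2 (by positivity)
        _ = 6 * C3 ^ 3 * C2 ^ 2 * s ^ 3 := by ring
        _ ≤ 6 * C3 ^ 3 * C2 ^ 2 * (C * ‖ψ (u : K)‖) := mul_le_mul_of_nonneg_left h3 (by positivity)
        _ = C4 * ‖ψ (u : K)‖ := by rw [hC4d]; ring
    exact le_of_mul_le_mul_right h5 h4
  have hkb : Bd Ck (xx * u' + yy * v') := by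
    intro ψ
    rw [hkK, map_mul, norm_mul, map_natCast, Complex.norm_natCast]
    calc ‖ψ κ‖ * (M : ℝ) ≤ C4 * M := mul_le_mul_of_nonneg_right (hκb ψ) (by positivity)
      _ ≤ Ck := by rw [hCkd]; nlinarith
  have hmb : Bd Ck (M : 𝓞 K) := by
    intro ψ
    show ‖ψ (algebraMap (𝓞 K) K (M : 𝓞 K))‖ ≤ Ck
    rw [map_natCast, map_natCast, Complex.norm_natCast, hCkd]
    have : 0 ≤ (M : ℝ) * C4 := by positivity
    linarith
  have hAdm' := hadm s t u v u' v' _ _ hA hk0 hM0 hkb hmb e1 e2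
  -- no isotropic vectors
  have hAn : Aniso β := by
    rintro y1 y2 hy ⟨f1, f2⟩
    have f1' : (b 0 0 : K) * y1 ^ 2 + 2 * b 0 1 * y1 * y2 + b 1 1 * y2 ^ 2 = 0 := by
      have := congrArg (algebraMap (𝓞 K) K) f1
      simp only [β, map_add, map_mul, map_pow, map_ofNat, map_zero] at this
      exact this
    have f2' : (c 0 0 : K) * y1 ^ 2 + 2 * c 0 1 * y1 * y2 + c 1 1 * y2 ^ 2 = 0 := by
      have := congrArg (algebraMap (𝓞 K) K) f2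
      simp only [β, map_add, map_mul, map_pow, map_ofNat, map_zero] at this
      exact this
    have hy0 : algebraMap K F y1 * x 0 + algebraMap K F y2 * x 1 ≠ 0 := by
      intro h
      have h1 := Fintype.linearIndependent_iff.1 hx ![(y1 : K), (y2 : K), 0] (by
        rw [Fin.sum_univ_three]
        simp only [Matrix.cons_val_zero, Matrix.cons_val_one, Matrix.cons_val, Algebra.smul_def,
          map_zero, zero_mul, add_zero]
        exact h)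
      have h2 := h1 0
      have h3 := h1 1
      simp only [Matrix.cons_val_zero, Matrix.cons_val_one] at h2 h3
      exact hy ⟨by exact_mod_cast h2, by exact_mod_cast h3⟩
    refine no_iso hD.deg a hD.a0 hD.nsq hns _ hy0
      ((y1 ^ 2 * (3 * (M : K) ^ 6 * c0 (a * x 0 * x 0)) +
        2 * y1 * y2 * (3 * (M : K) ^ 6 * c0 (a * x 0 * x 1)) +
        y2 ^ 2 * (3 * (M : K) ^ 6 * c0 (a * x 1 * x 1))) / (3 * (M : K) ^ 6)) ?_
    have g0 := hrel 0 0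
    have g1 := hrel 0 1
    have g2 := hrel 1 1
    have hmF : algebraMap K F (3 * (M : K) ^ 6) ≠ 0 := (map_ne_zero _).2 hm1
    rw [map_div₀, eq_div_iff hmF]
    have f1F := congrArg (algebraMap K F) f1'
    have f2F := congrArg (algebraMap K F) f2'
    simp only [map_add, map_mul, map_pow, map_zero, map_ofNat] at f1F f2F g0 g1 g2 ⊢
    linear_combination (algebraMap K F y1) ^ 2 * g0 +
      2 * (algebraMap K F y1) * (algebraMap K F y2) * g1 + (algebraMap K F y2) ^ 2 * g2 +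
      t1 * f1F + t2 * f2F
  -- polynomial bounds
  have hne : ¬ (b 0 0 = 0 ∧ c 0 0 = 0) := by
    intro h
    refine hAn 1 0 (fun h' => one_ne_zero h'.1) ⟨?_, ?_⟩
    · simp [β, h.1]
    · simp [β, h.2]
  have hlow : 1 ≤ C3 * s * (ρ 0 * ρ 0) := by
    by_cases h : b 0 0 = 0
    · have h' : c 0 0 ≠ 0 := fun h'' => hne ⟨h, h''⟩
      refine one_le_of_bd h' fun ψ => ((hbsz 0 0 ψ).2).trans ?_
      gcongr
    · exact one_le_of_bd h fun ψ => (hbsz 0 0 ψ).1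
  have hρ2b : ρ 2 ≤ C2 * C3 * s := by
    have h1 : ρ 0 * ρ 0 * ρ 2 ≤ C2 := by
      refine le_trans ?_ hρ
      gcongr
    calc ρ 2 = 1 * ρ 2 := (one_mul _).symm
      _ ≤ C3 * s * (ρ 0 * ρ 0) * ρ 2 := mul_le_mul_of_nonneg_right hlow hρ2.le
      _ = C3 * s * (ρ 0 * ρ 0 * ρ 2) := by ring
      _ ≤ C3 * s * C2 := mul_le_mul_of_nonneg_left h1 (by positivity)
      _ = C2 * C3 * s := by ring
  have hρle : ∀ i, ρ i ≤ ρ 2 := by
    intro i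
    fin_cases i
    · exact hρ01.trans hρ12
    · exact hρ12
    · exact le_rfl
  have hρρ : ∀ i j, C3 * s * (ρ i * ρ j) ≤ Hp C' 3 s := by
    intro i j
    have h1 : ρ i * ρ j ≤ (C2 * C3 * s) * (C2 * C3 * s) :=
      mul_le_mul ((hρle i).trans hρ2b) ((hρle j).trans hρ2b) (hρp j).le (by positivity)
    have h2 : C3 ^ 3 * C2 ^ 2 ≤ C' := by linarith
    have h3 : C' ≤ C' ^ 3 := le_self_pow₀ hC'1 (by norm_num)
    calc C3 * s * (ρ i * ρ j) ≤ C3 * s * ((C2 * C3 * s) * (C2 * C3 * s)) :=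
          mul_le_mul_of_nonneg_left h1 (by positivity)
      _ = (C3 ^ 3 * C2 ^ 2) * s ^ 3 := by ring
      _ ≤ C' ^ 3 * (1 + s) ^ 3 := by
          refine mul_le_mul (h2.trans h3) (pow_le_pow_left₀ hs.le (by linarith) 3)
            (by positivity) (by positivity)
      _ = Hp C' 3 s := by unfold Hp; rw [mul_pow]
  have hbH : ∀ i j, Bd (Hp C' 3 s) (b i j) := fun i j ψ => ((hbsz i j ψ).1).trans (hρρ i j)
  have hcH : ∀ i j, Bd (Hp C' 3 s) (c i j) := fun i j ψ => ((hbsz i j ψ).2).trans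
    (le_trans (by have := hρp i; have := hρp j; gcongr) (hρρ i j))
  have hbC : ∀ i j, Bd (C' * s * (ρ i * ρ j)) (b i j) := fun i j ψ =>
    ((hbsz i j ψ).1).trans (by
      have := hρp i
      have := hρp j
      have : C3 ≤ C' := by linarith
      gcongr)
  have hcC : ∀ i j, Bd (C' * t * (ρ i * ρ j)) (c i j) := fun i j ψ =>
    ((hbsz i j ψ).2).trans (by
      have := hρp i
      have := hρp j
      have : C3 ≤ C' := by linarith
      gcongr)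
  refine ⟨xx * u' + yy * v', (M : 𝓞 K), u', v', β, ρ 0, ρ 1, hk0, hM0, ?_, ?_, e1, e2,
    adm_mono K dvd_rfl hs ht (by linarith) hAdm', ⟨hρ0, hρ01, ?_, ?_⟩, ?_, hAn, ?_, ?_, ?_, ?_⟩
  · exact fun ψ => (hkb ψ).trans (by linarith)
  · exact fun ψ => (hmb ψ).trans (by linarith)
  · by_contra h
    push Not at h
    have h0 : C2 < ρ 0 := lt_of_le_of_lt (by linarith) h
    have h1 : 1 ≤ ρ 0 := hC2.trans h0.le
    have h2 : ρ 0 ≤ ρ 0 * ρ 1 * ρ 2 := by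
      have h3 : 1 ≤ ρ 1 * ρ 2 := one_le_mul_of_one_le_of_one_le (h1.trans hρ01)
        ((h1.trans hρ01).trans hρ12)
      calc ρ 0 = ρ 0 * 1 := (mul_one _).symm
        _ ≤ ρ 0 * (ρ 1 * ρ 2) := mul_le_mul_of_nonneg_left h3 hρ0.le
        _ = ρ 0 * ρ 1 * ρ 2 := by ring
    linarith
  · calc ρ 0 * ρ 1 ^ 2 = ρ 0 * ρ 1 * ρ 1 := by ring
      _ ≤ ρ 0 * ρ 1 * ρ 2 := mul_le_mul_of_nonneg_left hρ12 (by positivity)
      _ ≤ C2 := hρ
      _ ≤ C' := by linarith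
  · refine ⟨?_, ?_, ?_, ?_, ?_, ?_⟩
    · have := hbC 0 0
      rwa [← sq] at this
    · exact hbC 0 1
    · have := hbC 1 1
      rwa [← sq] at this
    · have := hcC 0 0
      rwa [← sq] at this
    · exact hcC 0 1
    · have := hcC 1 1
      rwa [← sq] at this
  · exact ⟨hbH 0 0, hbH 0 1, hbH 1 1, hcH 0 0, hcH 0 1, hcH 1 1⟩
  · exact ⟨π, b 2 2, c 2 2, ⟨hbH 0 2, hbH 1 2, hcH 0 2, hcH 1 2⟩, hSol⟩
  all_goals
    have h1 := zz_square hu hv hD.deg hD.gen hD.cub hD.prd a hD.nsq (3 * (M : K) ^ 6) (x 0) (x 1)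
      _ _ _ (b 0 0 : K) (b 0 1 : K) (b 1 1 : K) (c 0 0 : K) (c 0 1 : K) (c 1 1 : K)
      (hrel 0 0) (hrel 0 1) (hrel 1 1)
    have h2 : zz u v t1 t2 β = algebraMap K F ((u : K) * v * ((b 0 0 : K) * c 1 1 +
        b 1 1 * c 0 0 - 2 * b 0 1 * c 0 1)) -
      algebraMap K F ((u : K) * ((c 0 0 : K) * c 1 1 - (c 0 1 : K) ^ 2)) * t1 -
      algebraMap K F ((v : K) * ((b 0 0 : K) * b 1 1 - (b 0 1 : K) ^ 2)) * t2 := by
      simp only [zz, β, Blk.D1, Blk.D2, Blk.D3, map_mul, map_sub, map_add, map_pow, map_ofNat]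
    rw [h2]
  · refine h1.2 hD.a0 hm1 ?_
    have h3 := hx.comp (![0, 1] : Fin 2 → Fin 3) (by decide)
    have h4 : x ∘ (![0, 1] : Fin 2 → Fin 3) = ![x 0, x 1] := by
      ext i
      fin_cases i <;> rfl
    rwa [h4] at h3
  · exact h1.1

end H88.A4
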