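import Pool.Agent.H88.A4.IfRed

/-!
# [H88 A4 RCub] The cubic extension `F = K(t1)`, `t1 ^ 3 = u v ^ 2`, `t1 t2 = u v`

`t1 ^ 2 = v t2`, `t2 ^ 2 = u t1`; `1, t1, t2` is a basis; formulas for norm and trace.

PROOFS. `sq1`: `t1 ≠ 0` (its cube is not zero) and `t1 * (v t2) = u v ^ 2 = t1 * t1 ^ 2`; `sq2`:
`t1 * (u t1) = u v t2 ... `: multiply by `v`: `v t2 ^ 2 = t1 ^ 2 t2 = t1 u v`. `exists_basis`: the
power basis of `t1` (`IntermediateField.adjoin.powerBasis`, degree 3) is `1, t1, t1 ^ 2 = v t2`; or: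
`1, t1, t2` span (they span the subalgebra generated by `t1`, which is everything) and there are
`finrank = 3` of them. `norm_cub`, `trace_cub`: matrix of multiplication by `z0 + z1 t1 + z2 t2` in
the basis `1, t1, t2`: columns `(z0, z1, z2)`, `(u v z2, z0, v z1)`, `(u v z1, u z2, z0)`
(`Algebra.norm_eq_matrix_det`, `Algebra.trace_eq_matrix_trace`, `Algebra.leftMulMatrix`).
-/

open scoped NumberField

noncomputable section

namespace H88.A4

variable {K : Type} [Field K] {F : Type} [Field F] [Algebra K F]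

private theorem t1_ne {u v : K} {t1 : F} (hu : u ≠ 0) (hv : v ≠ 0)
    (h1 : t1 ^ 3 = algebraMap K F (u * v ^ 2)) : t1 ≠ 0 := by
  rintro rfl
  rw [zero_pow (by norm_num)] at h1
  have h : u * v ^ 2 = 0 := by
    apply (algebraMap K F).injective
    rw [← h1, map_zero]
  exact mul_ne_zero hu (pow_ne_zero 2 hv) h

theorem sq1 {u v : K} {t1 t2 : F} (hu : u ≠ 0) (hv : v ≠ 0)
    (h1 : t1 ^ 3 = algebraMap K F (u * v ^ 2)) (h2 : t1 * t2 = algebraMap K F (u * v)) :
    t1 ^ 2 = algebraMap K F v * t2 := by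
  apply mul_left_cancel₀ (t1_ne hu hv h1)
  calc t1 * t1 ^ 2 = t1 ^ 3 := by ring
    _ = algebraMap K F v * (t1 * t2) := by rw [h1, h2, ← map_mul]; ring_nf
    _ = t1 * (algebraMap K F v * t2) := by ring

theorem sq2 {u v : K} {t1 t2 : F} (hu : u ≠ 0) (hv : v ≠ 0)
    (h1 : t1 ^ 3 = algebraMap K F (u * v ^ 2)) (h2 : t1 * t2 = algebraMap K F (u * v)) :
    t2 ^ 2 = algebraMap K F u * t1 := by
  have hv' : algebraMap K F v ≠ 0 := by
    rw [Ne, map_eq_zero]
    exact hv
  apply mul_left_cancel₀ hv'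
  have h3 := sq1 hu hv h1 h2
  calc algebraMap K F v * t2 ^ 2 = (algebraMap K F v * t2) * t2 := by ring
    _ = t1 * (t1 * t2) := by rw [← h3]; ring
    _ = algebraMap K F v * (algebraMap K F u * t1) := by rw [h2, map_mul]; ring

theorem coord_unique {u v : K} {t1 t2 : F} (hu : u ≠ 0) (hv : v ≠ 0)
    (hd : Module.finrank K F = 3) (hg : IntermediateField.adjoin K {t1} = ⊤)
    (h1 : t1 ^ 3 = algebraMap K F (u * v ^ 2)) (h2 : t1 * t2 = algebraMap K F (u * v))
    {z0 z1 z2 : K}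
    (h : algebraMap K F z0 + algebraMap K F z1 * t1 + algebraMap K F z2 * t2 = 0) :
    z0 = 0 ∧ z1 = 0 ∧ z2 = 0 := by
  have hfd : FiniteDimensional K F := FiniteDimensional.of_finrank_pos (by rw [hd]; norm_num)
  have hint : IsIntegral K t1 := Algebra.IsIntegral.isIntegral t1
  have hdeg : (minpoly K t1).natDegree = 3 := by
    rw [← IntermediateField.adjoin.finrank hint, hg, IntermediateField.finrank_top', hd]
  have hli := linearIndependent_pow (K := K) t1
  rw [hdeg] at hli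
  have h3 := sq1 hu hv h1 h2
  have hv' : algebraMap K F v ≠ 0 := by
    rw [Ne, map_eq_zero]
    exact hv
  have h4 : t2 = algebraMap K F v⁻¹ * t1 ^ 2 := by
    rw [h3, map_inv₀, inv_mul_cancel_left₀ hv']
  rw [Fintype.linearIndependent_iff] at hli
  have h5 := hli ![z0, z1, z2 * v⁻¹] (by
    rw [Fin.sum_univ_three]
    simp only [Matrix.cons_val_zero, Matrix.cons_val_one, Matrix.cons_val,
      Fin.val_zero, Fin.val_one, Fin.val_two, pow_zero, pow_one, Algebra.smul_def, mul_one]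
    rw [h4] at h
    rw [map_mul, mul_assoc]
    exact h)
  have e0 := h5 0
  have e1 := h5 1
  have e2 := h5 2
  simp only [Matrix.cons_val_zero, Matrix.cons_val_one, Matrix.cons_val] at e0 e1 e2
  exact ⟨e0, e1, (mul_eq_zero.1 e2).resolve_right (inv_ne_zero hv)⟩

theorem exists_basis {u v : K} {t1 t2 : F} (hu : u ≠ 0) (hv : v ≠ 0)
    (hd : Module.finrank K F = 3) (hg : IntermediateField.adjoin K {t1} = ⊤)
    (h1 : t1 ^ 3 = algebraMap K F (u * v ^ 2)) (h2 : t1 * t2 = algebraMap K F (u * v)) :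
    ∃ B : Module.Basis (Fin 3) K F, B 0 = 1 ∧ B 1 = t1 ∧ B 2 = t2 := by
  have hli : LinearIndependent K ![(1 : F), t1, t2] := by
    rw [Fintype.linearIndependent_iff]
    intro g hg'
    rw [Fin.sum_univ_three] at hg'
    simp only [Matrix.cons_val_zero, Matrix.cons_val_one, Matrix.cons_val,
      Algebra.smul_def, mul_one] at hg'
    obtain ⟨a0, a1, a2⟩ := coord_unique hu hv hd hg h1 h2 hg'
    intro i
    fin_cases i
    · exact a0
    · exact a1
    · exact a2
  have hc : Fintype.card (Fin 3) = Module.finrank K F := by rw [hd, Fintype.card_fin]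
  refine ⟨basisOfLinearIndependentOfCardEqFinrank hli hc, ?_, ?_, ?_⟩ <;>
    rw [coe_basisOfLinearIndependentOfCardEqFinrank] <;> rfl

/-- Coordinates. -/
theorem exists_coord {u v : K} {t1 t2 : F} (hu : u ≠ 0) (hv : v ≠ 0)
    (hd : Module.finrank K F = 3) (hg : IntermediateField.adjoin K {t1} = ⊤)
    (h1 : t1 ^ 3 = algebraMap K F (u * v ^ 2)) (h2 : t1 * t2 = algebraMap K F (u * v)) (z : F) :
    ∃ z0 z1 z2 : K,
      z = algebraMap K F z0 + algebraMap K F z1 * t1 + algebraMap K F z2 * t2 := by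
  obtain ⟨B, b0, b1, b2⟩ := exists_basis hu hv hd hg h1 h2
  refine ⟨B.repr z 0, B.repr z 1, B.repr z 2, ?_⟩
  have h := B.sum_repr z
  rw [Fin.sum_univ_three, b0, b1, b2, Algebra.smul_def, Algebra.smul_def, Algebra.smul_def,
    mul_one] at h
  exact h.symm

private theorem mat_cub {u v : K} {t1 t2 : F} (hu : u ≠ 0) (hv : v ≠ 0)
    (h1 : t1 ^ 3 = algebraMap K F (u * v ^ 2)) (h2 : t1 * t2 = algebraMap K F (u * v))
    (B : Module.Basis (Fin 3) K F) (b0 : B 0 = 1) (b1 : B 1 = t1) (b2 : B 2 = t2)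
    (z0 z1 z2 : K) :
    Algebra.leftMulMatrix B (algebraMap K F z0 + algebraMap K F z1 * t1 + algebraMap K F z2 * t2)
      = !![z0, u * v * z2, u * v * z1; z1, z0, u * z2; z2, v * z1, z0] := by
  have s1 := sq1 hu hv h1 h2
  have s2 := sq2 hu hv h1 h2
  have key : ∀ j : Fin 3, (algebraMap K F z0 + algebraMap K F z1 * t1 + algebraMap K F z2 * t2)
      * B j = ∑ i, (!![z0, u * v * z2, u * v * z1; z1, z0, u * z2; z2, v * z1, z0] :
        Matrix (Fin 3) (Fin 3) K) i j • B i := by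
    intro j
    rw [Fin.sum_univ_three, b0, b1, b2]
    fin_cases j
    · simp [b0, Algebra.smul_def]
    · simp [b1, Algebra.smul_def]
      rw [map_mul] at h2
      linear_combination (algebraMap K F z1) * s1 + (algebraMap K F z2) * h2
    · simp [b2, Algebra.smul_def]
      rw [map_mul] at h2
      linear_combination (algebraMap K F z2) * s2 + (algebraMap K F z1) * h2
  ext i j
  rw [Algebra.leftMulMatrix_eq_repr_mul, key j, B.repr_sum_self]

theorem norm_cub {u v : K} {t1 t2 : F} (hu : u ≠ 0) (hv : v ≠ 0)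
    (hd : Module.finrank K F = 3) (hg : IntermediateField.adjoin K {t1} = ⊤)
    (h1 : t1 ^ 3 = algebraMap K F (u * v ^ 2)) (h2 : t1 * t2 = algebraMap K F (u * v))
    (z0 z1 z2 : K) :
    Algebra.norm K (algebraMap K F z0 + algebraMap K F z1 * t1 + algebraMap K F z2 * t2) =
      z0 ^ 3 + u * v ^ 2 * z1 ^ 3 + u ^ 2 * v * z2 ^ 3 - 3 * u * v * z0 * z1 * z2 := by
  obtain ⟨B, b0, b1, b2⟩ := exists_basis hu hv hd hg h1 h2
  rw [Algebra.norm_eq_matrix_det B, mat_cub hu hv h1 h2 B b0 b1 b2, Matrix.det_fin_three]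
  simp
  ring

theorem trace_cub {u v : K} {t1 t2 : F} (hu : u ≠ 0) (hv : v ≠ 0)
    (hd : Module.finrank K F = 3) (hg : IntermediateField.adjoin K {t1} = ⊤)
    (h1 : t1 ^ 3 = algebraMap K F (u * v ^ 2)) (h2 : t1 * t2 = algebraMap K F (u * v))
    (z0 z1 z2 : K) :
    Algebra.trace K F (algebraMap K F z0 + algebraMap K F z1 * t1 + algebraMap K F z2 * t2) =
      3 * z0 := by
  obtain ⟨B, b0, b1, b2⟩ := exists_basis hu hv hd hg h1 h2
  rw [Algebra.trace_eq_matrix_trace B, mat_cub hu hv h1 h2 B b0 b1 b2, Matrix.trace_fin_three]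
  simp
  ring

end H88.A4
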