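import Pool.Agent.H88.A4.RAdm
import Pool.Agent.H88.A4.RCub
import Pool.Agent.H88.A4.IfRed

/-!
# [H88 A4 RRed] `ReductionStmt` from `RedFieldStmt` and `BlockRedStmt`

PROOF. `RedFieldStmt` gives `k, m, u', v', β, ρ1, ρ2`; apply `BlockRedStmt` (with its `M`
the `M'` of `RedFieldStmt`, `C` the `C'`) to `(u', v')`, `β`: get `g`, `β'`. New data:
`u'' = g ^ 2 u'`, `v'' = g ^ 2 v'`, `k'' = g ^ 2 k`, `m`. `Adm` is part of `BlockRedStmt`.
`zz u v t1 t2 β' = g ^ 2 zz u v t1 t2 β`, so `zz β' ≠ 0` and `a zz β'` is a square. If `s < s0` (`s0` of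
`BlockRedStmt`) take the data of `RedFieldStmt` themselves (fourth case). Enlarge the constants (`Rho`, `Main`, `Deg`, `EZ`, `Bd`, `Hp` are monotone in `C`,
`A`; `adm_mono`).
-/

open scoped NumberField

noncomputable section

namespace H88.A4

variable (K : Type) [Field K] [NumberField K]

variable {K}

private theorem bd_mono {H H' : ℝ} (h : H ≤ H') {x : 𝓞 K} (hx : Bd H x) : Bd H' x :=
  fun φ => (hx φ).trans h

private theorem bd_mul {H H' : ℝ} (h0 : 0 ≤ H) {x y : 𝓞 K} (hx : Bd H x) (hy : Bd H' y) :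
    Bd (H * H') (x * y) := by
  intro φ
  have e : φ ((x * y : 𝓞 K) : K) = φ (x : K) * φ (y : K) := by
    rw [← map_mul]
    rfl
  rw [e, norm_mul]
  exact mul_le_mul (hx φ) (hy φ) (norm_nonneg _) h0

private theorem hp_mono {C C' s : ℝ} {A A' : ℕ} (hC : 1 ≤ C) (hs : 0 ≤ s) (h : C ≤ C')
    (hA : A ≤ A') : Hp C A s ≤ Hp C' A' s := by
  unfold Hp
  have h1 : 1 ≤ C' * (1 + s) := one_le_mul_of_one_le_of_one_le (hC.trans h) (by linarith)
  calc (C * (1 + s)) ^ A ≤ (C' * (1 + s)) ^ A := by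
        refine pow_le_pow_left₀ (by positivity) ?_ A
        exact mul_le_mul_of_nonneg_right h (by linarith)
    _ ≤ (C' * (1 + s)) ^ A' := pow_le_pow_right₀ h1 hA

private theorem ball_mono {H H' : ℝ} (h : H ≤ H') {β : Blk (𝓞 K)} (hβ : β.All (Bd H)) :
    β.All (Bd H') :=
  ⟨bd_mono h hβ.1, bd_mono h hβ.2.1, bd_mono h hβ.2.2.1, bd_mono h hβ.2.2.2.1,
    bd_mono h hβ.2.2.2.2.1, bd_mono h hβ.2.2.2.2.2⟩

private theorem rep_mono {H H' : ℝ} (h : H ≤ H') {β : Blk (𝓞 K)} {u v : 𝓞 K}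
    (hβ : Rep H β u v) : Rep H' β u v := by
  obtain ⟨π, r, r', hπ, hs⟩ := hβ
  exact ⟨π, r, r', ⟨bd_mono h hπ.1, bd_mono h hπ.2.1, bd_mono h hπ.2.2.1, bd_mono h hπ.2.2.2⟩, hs⟩

private theorem rho_mono {C C' a b : ℝ} (h : C ≤ C') (hr : Rho C a b) : Rho C' a b :=
  ⟨hr.1, hr.2.1, hr.2.2.1.trans h, hr.2.2.2.trans h⟩

private theorem sz_mono {C C' s t a b : ℝ} (h : C ≤ C') (hs : 0 ≤ s) (ht : 0 ≤ t) (ha : 0 ≤ a)
    (hb : 0 ≤ b) {β : Blk (𝓞 K)} (hz : Sz C s t a b β) : Sz C' s t a b β where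
  sb1 := bd_mono (by gcongr) hz.sb1
  sb2 := bd_mono (by gcongr) hz.sb2
  sb3 := bd_mono (by gcongr) hz.sb3
  sc1 := bd_mono (by gcongr) hz.sc1
  sc2 := bd_mono (by gcongr) hz.sc2
  sc3 := bd_mono (by gcongr) hz.sc3

private theorem zz_scale {F : Type} [Field F] [Algebra K F] (u v g : 𝓞 K) (t1 t2 : F)
    {β β' : Blk (𝓞 K)} (h1 : β'.D1 = g ^ 2 * β.D1) (h2 : β'.D2 = g ^ 2 * β.D2)
    (h3 : β'.D3 = g ^ 2 * β.D3) :
    zz u v t1 t2 β' = algebraMap K F ((g : 𝓞 K) : K) ^ 2 * zz u v t1 t2 β := by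
  have hc : ∀ x y : 𝓞 K, ((x * y : 𝓞 K) : K) = (x : K) * (y : K) := fun _ _ => rfl
  have hp : ((g ^ 2 : 𝓞 K) : K) = (g : K) ^ 2 := rfl
  unfold zz
  rw [h1, h2, h3]
  simp only [hc, hp, map_mul, map_pow]
  ring

variable (K)

theorem reduction (h1 : RedFieldStmt K) (h2 : BlockRedStmt K) : ReductionStmt K := by
  intro M hM C hC
  obtain ⟨M1, A1, C1, hM1, hC1, H1⟩ := h1 M hM C hC
  set C2 : ℝ := max C C1 with hC2d
  have hCC2 : C ≤ C2 := le_max_left _ _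
  have hC12 : C1 ≤ C2 := le_max_right _ _
  have hC2 : 1 ≤ C2 := hC.trans hCC2
  obtain ⟨M3, A3, C3, s0, hM3, hC3, H3⟩ := h2 M1 hM1 C2 hC2 A1
  set C' : ℝ := C3 ^ 2 * C2 with hC'd
  have hC30 : 0 < C3 := by linarith
  have hC20 : 0 < C2 := by linarith
  have h32 : 1 ≤ C3 ^ 2 := one_le_pow₀ hC3
  have h3C' : C3 ≤ C' := by
    calc C3 = C3 * 1 := (mul_one _).symm
      _ ≤ C3 ^ 2 * C2 := by
        refine mul_le_mul ?_ hC2 zero_le_one (by positivity)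
        calc C3 = C3 ^ 1 := (pow_one _).symm
          _ ≤ C3 ^ 2 := pow_le_pow_right₀ hC3 (by norm_num)
  have h2C' : C2 ≤ C' := le_mul_of_one_le_left hC20.le h32
  have h1C' : C1 ≤ C' := hC12.trans h2C'
  have hC' : 1 ≤ C' := hC2.trans h2C'
  refine ⟨M1 * M3, A1 + A3, C', s0, mul_ne_zero hM1 hM3, hC', ?_⟩
  intro s t hR u v ha F _ _ _ t1 t2 a hD hsq
  have ht : 0 < t := by
    by_contra hcon
    push Not at hcon
    have : C * t ≤ 0 := mul_nonpos_of_nonneg_of_nonpos (by linarith) hcon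
    linarith [hR.1]
  have hs : 0 < s := lt_of_lt_of_le ht hR.2
  obtain ⟨k, m, u', v', β, ρ1, ρ2, hk0, hm0, hk, hm, hu', hv', ha', hρ, hz, han, hall, hrep, hzz,
    hsz⟩ := H1 s t hR u v ha F t1 t2 a hD hsq
  rcases lt_or_ge s s0 with hss | hss
  · have hH : Hp C1 A1 s ≤ Hp C' (A1 + A3) s := hp_mono hC1 hs.le h1C' (Nat.le_add_right _ _)
    exact ⟨k, m, u', v', β, hk0, hm0, bd_mono h1C' hk, bd_mono h1C' hm, hu', hv',
      adm_mono K (Dvd.intro M3 rfl) hs ht h1C' ha', ball_mono hH hall,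
      rep_mono hH hrep, hzz, hsz, Or.inr (Or.inr (Or.inr hss.le))⟩
  · have hR2 : Rg C2 s t := ⟨hR.1.trans (mul_le_mul_of_nonneg_right hCC2 ht.le), hR.2⟩
    have hH2 : Hp C1 A1 s ≤ Hp C2 A1 s := hp_mono hC1 hs.le hC12 le_rfl
    have hρ1 : 0 < ρ1 := hρ.1
    have hρ2 : 0 < ρ2 := lt_of_lt_of_le hρ1 hρ.2.1
    obtain ⟨g, β', hg0, hg, d1, d2, d3, ha3, hall3, hrep3, hcase⟩ := H3 s t hR2 hss u' v'
      (adm_mono K dvd_rfl hs ht hC12 ha') ρ1 ρ2 (rho_mono hC12 hρ) β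
      (sz_mono hC12 hs.le ht.le hρ1.le hρ2.le hz) (ball_mono hH2 hall) (rep_mono hH2 hrep) han
    have hH3 : Hp C3 A3 s ≤ Hp C' (A1 + A3) s := hp_mono hC3 hs.le h3C' (Nat.le_add_left _ _)
    have hzs := zz_scale u v g t1 t2 d1 d2 d3
    have hgF : algebraMap K F ((g : 𝓞 K) : K) ≠ 0 := by
      rw [Ne, map_eq_zero]
      simpa using hg0
    have hgk : Bd C' (g ^ 2 * k) := by
      have e1 := bd_mul hC30.le hg hg
      rw [← pow_two, ← pow_two] at e1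
      exact bd_mul (by positivity) e1 (bd_mono hC12 hk)
    refine ⟨g ^ 2 * k, m, g ^ 2 * u', g ^ 2 * v', β', mul_ne_zero (pow_ne_zero 2 hg0) hk0, hm0,
      hgk, bd_mono h1C' hm, ?_, ?_, adm_mono K (Dvd.intro_left M1 rfl) hs ht h3C' ha3,
      ball_mono hH3 hall3, rep_mono hH3 hrep3, ?_, ?_, ?_⟩
    · linear_combination (g ^ 2) * hu'
    · linear_combination (g ^ 2) * hv'
    · rw [hzs]
      exact mul_ne_zero (pow_ne_zero 2 hgF) hzz
    · rw [hzs]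
      obtain ⟨w, hw⟩ := hsz
      exact ⟨algebraMap K F ((g : 𝓞 K) : K) * w, by
        linear_combination (algebraMap K F ((g : 𝓞 K) : K) ^ 2) * hw⟩
    · rcases hcase with ⟨σ1, σ2, hσ, hmain⟩ | hdeg | hez
      · left
        have hσ1 : 0 < σ1 := hσ.1
        have hσ2 : 0 < σ2 := lt_of_lt_of_le hσ1 hσ.2.1
        exact ⟨σ1, σ2, rho_mono h3C' hσ, sz_mono h3C' hs.le ht.le hσ1.le hσ2.le hmain.1, hmain.2⟩
      · right; left
        obtain ⟨x1, x2, x3, x4, x5, x6, x7, x8⟩ := hdeg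
        exact ⟨x1, x2, x3, x4, x5,
          fun φ => (x6 φ).trans (mul_le_mul_of_nonneg_right h3C' (norm_nonneg _)),
          bd_mono (mul_le_mul_of_nonneg_right h3C' (by positivity)) x7,
          bd_mono (mul_le_mul_of_nonneg_right h3C' (by positivity)) x8⟩
      · right; right; left
        obtain ⟨x1, x2, x3, x4, x5⟩ := hez
        exact ⟨x1, x2, x3, bd_mono (mul_le_mul_of_nonneg_right h3C' (by positivity)) x4,
          bd_mono (mul_le_mul_of_nonneg_right h3C' (by positivity)) x5⟩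

end H88.A4
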