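import Pool.Agent.H88.A4.CSum
import Pool.Agent.H88.A4.RFin
import Pool.Agent.H88.A4.RRed
import Pool.Agent.H67.WA.Main
import Pool.Agent.H67.WA.Deg
import Pool.Agent.H67.WA.S6
import Pool.Agent.H67.WA.Mk
import Pool.Agent.H77.CO.Fin
import Pool.Agent.H12.WM.Alg
import Pool.Agent.H12.WM.Cnt
import Pool.Agent.H28.A4.LocS
import Pool.Agent.H38.WM.NkU

/-!
# W1: weak Malle for `A_4` in degree 4 over every number field with a primitive cube root of unity
-/

open scoped NumberField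

noncomputable section

namespace H88.A4

open H38.ML H63.MA

/-- The core theorem (steps 2-9) over a number field containing the cube roots of unity. -/
theorem coreBound (K : IntermediateField ℚ QBar) [NumberField K] (ζ : K)
    (hζ : IsPrimitiveRoot ζ 3) : H38.WM.CoreBound K :=
  core_of K ζ hζ
    (reduction K (redField K (Pool.Agent.H67.WA.mink K)) (Pool.Agent.H67.WA.block_red K))
    (Pool.Agent.H67.WA.main_of K (H77.CO.completions K (Pool.Agent.H28.A4.locStmt K)))
    (Pool.Agent.H67.WA.deg_of K (H77.CO.completions K (Pool.Agent.H28.A4.locStmt K)))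
    (Pool.Agent.H12.WM.eZero K) (Pool.Agent.H12.WM.eZeroAlg K)

/-- W1. -/
theorem weak_malle_a4 (K : IntermediateField ℚ QBar) [NumberField K] (ζ : K)
    (hζ : IsPrimitiveRoot ζ 3) (ε : ℝ) (hε : 0 < ε) :
    ∃ C : ℝ, 0 < C ∧ ∀ B : ℝ, 1 ≤ B →
      Spec.nK K QBar (alternatingGroup (Fin 4)) B ≤ ((⌊C * B ^ (1 / 2 + ε)⌋₊ : ℕ) : ℕ∞) :=
  H38.WM.nkU ζ hζ (coreBound K ζ hζ) ε hε

end H88.A4
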