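import Pool.Agent.H88.A4.C2St

/-!
# [H88 A4 C2Sum] Stage 2: `CoreBound2 τ` from the fixed size counts

PROOF (port of `CSum.lean`). For `(u, a)` in `S`, `i = ⌊log₂ szG u⌋`, `s = 2^i ≤ szG u < 2 s`;
`Adm (m ^ m) (8 C₁) s s u (τ u)` (`admG_of`, `nm_tO`, `tO_smul`). `s ^ {6 d} ≤ nm u = |N u| ≤ R`
(`[M:ℚ] = 2 d`, `szG_pow`). Each class has at most `C' s ^ {6 d + ε'} ≤ C' R ^ {1 + ε'/(6 d)}` elements,
there are at most `1 + log₂ R` classes.
-/

open scoped NumberField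

noncomputable section

namespace H88.A4

open H38.ML H63.MA H38.WM

variable {K : IntermediateField ℚ QBar} [NumberField K] {M : IntermediateField K QBar}
  [NumberField M]

private theorem c2s_log {x : ℝ} (hx : 1 ≤ x) :
    (2 : ℝ) ^ Nat.log 2 ⌊x⌋₊ ≤ x ∧ x ≤ 2 * (2 : ℝ) ^ Nat.log 2 ⌊x⌋₊ := by
  have h0 : ⌊x⌋₊ ≠ 0 := by
    have : 1 ≤ ⌊x⌋₊ := Nat.le_floor (by exact_mod_cast hx)
    omega
  constructor
  · have h1 : 2 ^ Nat.log 2 ⌊x⌋₊ ≤ ⌊x⌋₊ := Nat.pow_log_le_self 2 h0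
    have h2 : ((2 ^ Nat.log 2 ⌊x⌋₊ : ℕ) : ℝ) ≤ (⌊x⌋₊ : ℝ) := by exact_mod_cast h1
    have h3 : (⌊x⌋₊ : ℝ) ≤ x := Nat.floor_le (by linarith)
    push_cast at h2
    linarith
  · have h1 : ⌊x⌋₊ < 2 ^ (Nat.log 2 ⌊x⌋₊ + 1) := Nat.lt_pow_succ_log_self (by norm_num) _
    have h2 : ((⌊x⌋₊ + 1 : ℕ) : ℝ) ≤ ((2 ^ (Nat.log 2 ⌊x⌋₊ + 1) : ℕ) : ℝ) := by exact_mod_cast h1
    have h3 : x < (⌊x⌋₊ : ℝ) + 1 := Nat.lt_floor_add_one x
    push_cast at h2
    rw [pow_succ] at h2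
    linarith

private theorem c2s_R {ε : ℝ} (hε : 0 < ε) {R : ℝ} (hR : 1 ≤ R) :
    ((Nat.log 2 ⌊R⌋₊ + 1 : ℕ) : ℝ) ≤ (1 + 1 / (ε * Real.log 2)) * R ^ ε := by
  have h1 := (c2s_log hR).1
  have hl2 : 0 < Real.log 2 := Real.log_pos (by norm_num)
  have h2 : (Nat.log 2 ⌊R⌋₊ : ℝ) * Real.log 2 ≤ Real.log R := by
    rw [← Real.log_pow]
    exact Real.log_le_log (by positivity) h1
  have h3 : Real.log R ≤ R ^ ε / ε := Real.log_le_rpow_div (by linarith) hε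
  have h4 : (1 : ℝ) ≤ R ^ ε := Real.one_le_rpow hR hε.le
  have h5 : (Nat.log 2 ⌊R⌋₊ : ℝ) ≤ 1 / (ε * Real.log 2) * R ^ ε := by
    have h6 : 1 / (ε * Real.log 2) * R ^ ε = R ^ ε / ε / Real.log 2 := by
      field_simp
    rw [h6, le_div_iff₀ hl2]
    linarith
  push_cast
  linarith

private theorem c2s_adm {N : Type} [Field N] [NumberField N] {m : ℕ} {C s s' : ℝ} {u v : 𝓞 N}
    (hC : 0 ≤ C) (hs0 : 0 ≤ s') (hs : s' ≤ s) (hs2 : s ≤ 2 * s')
    (h : H88.A4.Adm m C s s u v) : H88.A4.Adm m (8 * C) s' s' u v := by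
  have e1 : s ^ 3 ≤ 8 * s' ^ 3 := by
    calc s ^ 3 ≤ (2 * s') ^ 3 := pow_le_pow_left₀ (hs0.trans hs) hs2 3
      _ = 8 * s' ^ 3 := by ring
  have e3 : s' ^ 3 ≤ s ^ 3 := pow_le_pow_left₀ hs0 hs 3
  refine ⟨h.u0, h.v0, fun φ => ?_, fun φ => ?_, fun φ => ?_, fun φ => ?_, h.squ, h.sqv, h.cop⟩
  · have := h.ule φ
    nlinarith
  · have := h.uge φ
    have h0 : 0 ≤ C * ‖φ (u : N)‖ := mul_nonneg hC (norm_nonneg _)
    nlinarith
  · have := h.vle φ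
    nlinarith
  · have := h.vge φ
    have h0 : 0 ≤ C * ‖φ (v : N)‖ := mul_nonneg hC (norm_nonneg _)
    nlinarith

theorem core2_of (τ : Gal(M/K)) (ω : M) (H : Om τ ω)
    (h1 : Reduction2Stmt K M) (h2 : Main2Stmt K M) (h4 : EZero2Stmt K M)
    (h5 : EZeroAlg2Stmt K M) : CoreBound2 τ := by
  classical
  intro m C₀ ε hm _ hε
  have hdpos : 0 < Module.finrank ℚ K := Module.finrank_pos
  have hdM : Module.finrank ℚ M = 2 * Module.finrank ℚ K := by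
    have e1 := Module.finrank_mul_finrank ℚ K M
    rw [(br_invo τ ω H).deg] at e1
    omega
  have h36 : 3 * Module.finrank ℚ M = 6 * Module.finrank ℚ K := by omega
  obtain ⟨d, hd⟩ : ∃ d : ℝ, d = (Module.finrank ℚ K : ℝ) := ⟨_, rfl⟩
  have hd1 : 1 ≤ d := by
    rw [hd]
    exact_mod_cast hdpos
  obtain ⟨C₁, hC₁⟩ : ∃ C₁ : ℝ, C₁ = max C₀ 1 := ⟨_, rfl⟩
  have hC1 : 1 ≤ C₁ := by
    rw [hC₁]
    exact le_max_right _ _
  obtain ⟨C', hC', hfs⟩ := fixed_size2 τ ω H h1 h2 h4 h5 (m ^ m) (pow_ne_zero _ hm)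
    (8 * C₁) (by linarith) (6 * d * (ε / 2)) (by positivity)
  obtain ⟨c, hc⟩ : ∃ c : ℝ, c = 1 + 1 / (ε / 2 * Real.log 2) := ⟨_, rfl⟩
  have hl2 : 0 < Real.log 2 := Real.log_pos (by norm_num)
  have hc0 : 0 ≤ c := by
    rw [hc]
    positivity
  refine ⟨c * C', fun R hR S hS huniq => ?_⟩
  have hR0 : 0 < R := by linarith
  -- sizes
  have hsz : ∀ x ∈ S, 1 ≤ szG x.1 ∧ szG x.1 ^ (6 * Module.finrank ℚ K) ≤ R := by
    intro x hx
    obtain ⟨hadm, -, hN, -⟩ := hS x hx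
    refine ⟨one_le_szG _ hadm.u0, ?_⟩
    rw [← h36, szG_pow]
    have h6 : nm (x.1 : M) = |((Algebra.norm ℤ x.1 : ℤ) : ℝ)| := by
      rw [nm_eq, Ideal.absNorm_span_singleton, Nat.cast_natAbs, Int.cast_abs]
    rw [h6]
    exact hN
  have hle : ∀ x ∈ S, szG x.1 ≤ R := by
    intro x hx
    obtain ⟨hs, hst⟩ := hsz x hx
    have h3 : 6 * Module.finrank ℚ K ≠ 0 := by omega
    exact (le_self_pow₀ hs h3).trans hst
  let f : 𝓞 M × QBar → ℕ := fun x => Nat.log 2 ⌊szG x.1⌋₊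
  obtain ⟨L, hL⟩ : ∃ L : ℕ, L = Nat.log 2 ⌊R⌋₊ := ⟨_, rfl⟩
  have hmaps : ∀ x ∈ S, f x ∈ Finset.range (L + 1) := by
    intro x hx
    rw [Finset.mem_range, hL]
    exact Nat.lt_succ_of_le (Nat.log_mono_right (b := 2) (Nat.floor_mono (hle x hx)))
  have hfib : ∀ i ∈ Finset.range (L + 1),
      ((S.filter (fun x => f x = i)).card : ℝ) ≤ C' * R ^ (1 + ε / 2) := by
    rintro i -
    by_cases hne : (S.filter (fun x => f x = i)).Nonempty
    · obtain ⟨x0, hx0⟩ := hne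
      have hpow : ((2 : ℝ) ^ i) ^ (6 * Module.finrank ℚ K) ≤ R := by
        obtain ⟨hx0S, hx0f⟩ := Finset.mem_filter.1 hx0
        obtain ⟨hs, hst⟩ := hsz x0 hx0S
        have hi : Nat.log 2 ⌊szG x0.1⌋₊ = i := hx0f
        have e1 := (c2s_log hs).1
        rw [hi] at e1
        exact le_trans (pow_le_pow_left₀ (by positivity) e1 _) hst
      have h2i : (1 : ℝ) ≤ 2 ^ i := one_le_pow₀ (by norm_num)
      have hcard := hfs ((2 : ℝ) ^ i) (by nlinarith)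
        (S.filter (fun x => f x = i)) (by
          intro x hx
          obtain ⟨hxS, hxf⟩ := Finset.mem_filter.1 hx
          have hi : Nat.log 2 ⌊szG x.1⌋₊ = i := hxf
          obtain ⟨hs, -⟩ := hsz x hxS
          obtain ⟨e1, e1'⟩ := c2s_log hs
          rw [hi] at e1 e1'
          obtain ⟨hd1, hd2, -, hd4⟩ := hS x hxS
          have he : nm (x.1 : M) = nm ((τ • x.1 : 𝓞 M) : M) := by
            rw [← tO_smul τ x.1, nm_tO]
          have hadm := admG_of hm hd1 he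
          rw [← hC₁, ← tO_smul τ x.1] at hadm
          exact ⟨c2s_adm (by linarith) (by positivity) e1 e1' hadm, hd2, hd4⟩) (by
          intro u a b ha hb hab
          exact huniq u a b (Finset.mem_filter.1 ha).1 (Finset.mem_filter.1 hb).1 hab)
      refine hcard.trans (mul_le_mul_of_nonneg_left ?_ hC'.le)
      have h7 : 6 * (Module.finrank ℚ K : ℝ) + 6 * d * (ε / 2) =
          ((6 * Module.finrank ℚ K : ℕ) : ℝ) * (1 + ε / 2) := by
        push_cast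
        rw [hd]
        ring
      rw [h7, Real.rpow_mul (by positivity), Real.rpow_natCast]
      exact Real.rpow_le_rpow (by positivity) hpow (by linarith)
    · rw [Finset.not_nonempty_iff_eq_empty] at hne
      rw [hne, Finset.card_empty, Nat.cast_zero]
      positivity
  have hcardS : (S.card : ℝ) ≤ ((L + 1 : ℕ) : ℝ) * (C' * R ^ (1 + ε / 2)) := by
    rw [Finset.card_eq_sum_card_fiberwise hmaps]
    push_cast
    refine (Finset.sum_le_sum hfib).trans ?_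
    rw [Finset.sum_const, Finset.card_range, nsmul_eq_mul]
    push_cast
    exact le_refl _
  have hLR := c2s_R (ε := ε / 2) (by positivity) hR
  rw [← hL, ← hc] at hLR
  have hexp : R ^ (ε / 2) * R ^ (1 + ε / 2) = R ^ (1 + ε) := by
    rw [← Real.rpow_add hR0]
    congr 1
    ring
  calc (S.card : ℝ) ≤ ((L + 1 : ℕ) : ℝ) * (C' * R ^ (1 + ε / 2)) := hcardS
    _ ≤ (c * R ^ (ε / 2)) * (C' * R ^ (1 + ε / 2)) :=
        mul_le_mul_of_nonneg_right hLR (by positivity)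
    _ = c * C' * (R ^ (ε / 2) * R ^ (1 + ε / 2)) := by ring
    _ = c * C' * R ^ (1 + ε) := by rw [hexp]

end H88.A4
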