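import Pool.Agent.H38.WM.Def2
import Pool.Agent.H88.A4.Iface2
import Pool.Agent.H88.A4.Geo

/-!
# [H88 A4 C2Br] Stage 2: bridge for admissible pairs over any number field

The same as `adm_of` in `CBr.lean` for `H38.WM.AdmG` over a number field `M` (as a type): if
`AdmG M m C₀ u v` and `nm u = nm v` then `Adm (m ^ m) (max C₀ 1) s s u v` with
`s = nm u ^ {1/(3 [M:ℚ])}`. PROOF: see the header of `CBr.lean` (port its proof; `nrm1 M u = s ^ 3`).
-/

open scoped NumberField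

noncomputable section

namespace H88.A4

open H38.ML H63.MA
open IsDedekindDomain UniqueFactorizationMonoid

private theorem c2_dvd {R : Type} [CommRing R] [IsDedekindDomain R] {I J : Ideal R} (hI : I ≠ ⊥)
    (hJ : J ≠ ⊥) (h : ∀ (P : HeightOneSpectrum R) (n : ℕ), 1 ≤ n → P.asIdeal ^ n ∣ I →
      P.asIdeal ^ n ∣ J) : I ∣ J := by
  classical
  rw [dvd_iff_normalizedFactors_le_normalizedFactors hI hJ, Multiset.le_iff_count]
  intro p
  by_cases hp : p ∈ normalizedFactors I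
  · have hirr := irreducible_of_normalized_factor p hp
    have hpr : Prime p := hirr.prime
    set P : HeightOneSpectrum R := ⟨p, Ideal.isPrime_of_prime hpr, hpr.ne_zero⟩
    have h1 := emultiplicity_eq_count_normalizedFactors hirr hI
    have h2 := emultiplicity_eq_count_normalizedFactors hirr hJ
    rw [normalize_eq] at h1 h2
    have h3 : p ^ (Multiset.count p (normalizedFactors I)) ∣ I := by
      rw [pow_dvd_iff_le_emultiplicity, h1]
    have h4 := h P _ (Multiset.one_le_count_iff_mem.2 hp) h3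
    rw [pow_dvd_iff_le_emultiplicity, h2] at h4
    exact_mod_cast h4
  · rw [Multiset.count_eq_zero_of_notMem hp]
    exact Nat.zero_le _

/-- `|N u|^{1/(3 [M:ℚ])}` -/
def szG {M : Type} [Field M] [NumberField M] (u : 𝓞 M) : ℝ :=
  nm (u : M) ^ (1 / (3 * (Module.finrank ℚ M : ℝ)))

private theorem c2_nn {M : Type} [Field M] [NumberField M] (u : 𝓞 M) : 0 ≤ nm (u : M) :=
  Finset.prod_nonneg fun _ _ => norm_nonneg _

theorem szG_pow {M : Type} [Field M] [NumberField M] (u : 𝓞 M) :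
    szG u ^ (3 * Module.finrank ℚ M) = nm (u : M) := by
  have hd : Module.finrank ℚ M ≠ 0 := Module.finrank_pos.ne'
  have e : (1 / (3 * (Module.finrank ℚ M : ℝ))) = ((3 * Module.finrank ℚ M : ℕ) : ℝ)⁻¹ := by
    push_cast
    rw [one_div]
  unfold szG
  rw [e]
  exact Real.rpow_inv_natCast_pow (c2_nn u) (by omega)

theorem one_le_szG {M : Type} [Field M] [NumberField M] (u : 𝓞 M) (hu : u ≠ 0) :
    1 ≤ szG u :=
  Real.one_le_rpow (one_le_nm M u hu) (by positivity)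

private theorem c2_cube {M : Type} [Field M] [NumberField M] (u : 𝓞 M) :
    H38.WM.nrm1 M u = szG u ^ 3 := by
  have hd : (Module.finrank ℚ M : ℝ) ≠ 0 := Nat.cast_ne_zero.2 Module.finrank_pos.ne'
  have h1 : nm (u : M) = |((Algebra.norm ℤ u : ℤ) : ℝ)| := by
    rw [nm_eq, Ideal.absNorm_span_singleton, Nat.cast_natAbs, Int.cast_abs]
  unfold H38.WM.nrm1 szG
  rw [← h1, ← Real.rpow_natCast, ← Real.rpow_mul (c2_nn u)]
  congr 1
  field_simp
  norm_num

/-- the common part of `squ`, `sqv`, `cop` -/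
private theorem c2_pow {M : Type} [Field M] [NumberField M] {m : ℕ} {C₀ : ℝ} {u v : 𝓞 M}
    (h : H38.WM.AdmG M m C₀ u v)
    {P : HeightOneSpectrum (𝓞 M)} {n : ℕ} (hP : (m : 𝓞 M) ∈ P.asIdeal)
    (hn : u ∈ P.asIdeal ^ n ∨ v ∈ P.asIdeal ^ n) :
    P.asIdeal ^ n ∣ Ideal.span {((m ^ m : ℕ) : 𝓞 M)} := by
  have h1 : n ≤ m := by
    by_contra hcon
    push Not at hcon
    have h2 : P.asIdeal ^ n ≤ P.asIdeal ^ m := Ideal.pow_le_pow_right hcon.le
    rcases hn with hn | hn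
    · exact h.badu P hP (h2 hn)
    · exact h.badv P hP (h2 hn)
  rw [Ideal.dvd_span_singleton]
  push_cast
  exact Ideal.pow_le_pow_right h1 (Ideal.pow_mem_pow hP m)

private theorem c2_sq {M : Type} [Field M] [NumberField M] {m : ℕ} {C₀ : ℝ} (hm : m ≠ 0)
    {u v x : 𝓞 M} (h : H38.WM.AdmG M m C₀ u v)
    (hx : x = u ∨ x = v) {I : Ideal (𝓞 M)} (hI : I ^ 2 ∣ Ideal.span {x}) :
    I ∣ Ideal.span {((m ^ m : ℕ) : 𝓞 M)} := by
  have hx0 : x ≠ 0 := by
    rcases hx with rfl | rfl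
    · exact h.u0
    · exact h.v0
  have hI0 : I ≠ ⊥ := by
    rintro rfl
    rw [Ideal.dvd_span_singleton] at hI
    apply hx0
    have h1 : (⊥ : Ideal (𝓞 M)) ^ 2 ≤ ⊥ := by
      rw [pow_two]
      exact Ideal.mul_le_left
    exact (Submodule.mem_bot _).1 (h1 hI)
  have hM0 : (Ideal.span {((m ^ m : ℕ) : 𝓞 M)}) ≠ ⊥ := by
    rw [Ne, Ideal.span_singleton_eq_bot]
    exact Nat.cast_ne_zero.2 (pow_ne_zero _ hm)
  refine c2_dvd hI0 hM0 fun P n hn hPn => ?_
  have hPI : P.asIdeal ∣ I := (dvd_pow_self _ (by omega)).trans hPn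
  have h2 : x ∈ P.asIdeal ^ 2 := by
    rw [← Ideal.dvd_span_singleton]
    exact (pow_dvd_pow_of_dvd hPI 2).trans hI
  have h3 : x ∈ P.asIdeal ^ n := by
    rw [← Ideal.dvd_span_singleton]
    exact hPn.trans ((dvd_pow_self _ two_ne_zero).trans hI)
  have hMP : (m : 𝓞 M) ∈ P.asIdeal := by
    by_contra hcon
    apply h.good P hcon
    rcases hx with rfl | rfl
    · exact Ideal.mul_mem_right _ _ h2
    · exact Ideal.mul_mem_left _ _ h2
  refine c2_pow h hMP ?_
  rcases hx with rfl | rfl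
  · exact Or.inl h3
  · exact Or.inr h3

private theorem c2_cop {M : Type} [Field M] [NumberField M] {m : ℕ} {C₀ : ℝ} (hm : m ≠ 0)
    {u v : 𝓞 M} (h : H38.WM.AdmG M m C₀ u v) :
    ((m ^ m : ℕ) : 𝓞 M) ∈ Ideal.span {u, v} := by
  have hI0 : Ideal.span {u, v} ≠ ⊥ := by
    intro h0
    apply h.u0
    rw [← Submodule.mem_bot (R := 𝓞 M), ← h0]
    exact Ideal.subset_span (by simp)
  have hM0 : (Ideal.span {((m ^ m : ℕ) : 𝓞 M)}) ≠ ⊥ := by
    rw [Ne, Ideal.span_singleton_eq_bot]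
    exact Nat.cast_ne_zero.2 (pow_ne_zero _ hm)
  rw [← Ideal.dvd_span_singleton]
  refine c2_dvd hI0 hM0 fun P n hn hPn => ?_
  have hu : u ∈ P.asIdeal ^ n := (Ideal.dvd_iff_le.1 hPn) (Ideal.subset_span (by simp))
  have hv : v ∈ P.asIdeal ^ n := (Ideal.dvd_iff_le.1 hPn) (Ideal.subset_span (by simp))
  have hMP : (m : 𝓞 M) ∈ P.asIdeal := by
    by_contra hcon
    apply h.good P hcon
    have h1 : u ∈ P.asIdeal := Ideal.pow_le_self (by omega) hu
    have h2 : v ∈ P.asIdeal := Ideal.pow_le_self (by omega) hv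
    rw [pow_two]
    exact Ideal.mul_mem_mul h1 h2
  exact c2_pow h hMP (Or.inl hu)

theorem admG_of {M : Type} [Field M] [NumberField M] {m : ℕ} {C₀ : ℝ} (hm : m ≠ 0) {u v : 𝓞 M}
    (h : H38.WM.AdmG M m C₀ u v) (he : nm (u : M) = nm (v : M)) :
    Adm (m ^ m) (max C₀ 1) (szG u) (szG u) u v := by
  have hsz : szG u = szG v := by
    unfold szG
    rw [he]
  have key1 : ∀ x : 𝓞 M, (∀ w : NumberField.InfinitePlace M, w (x : M) ≤ C₀ * H38.WM.nrm1 M x) →
      ∀ φ : M →+* ℂ, ‖φ (x : M)‖ ≤ max C₀ 1 * szG x ^ 3 := by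
    intro x hx φ
    have h1 := hx (NumberField.InfinitePlace.mk φ)
    rw [NumberField.InfinitePlace.apply, c2_cube] at h1
    refine h1.trans (mul_le_mul_of_nonneg_right (le_max_left _ _) ?_)
    have h2 : 0 ≤ szG x := Real.rpow_nonneg (c2_nn x) _
    positivity
  have key2 : ∀ x : 𝓞 M, (∀ w : NumberField.InfinitePlace M, H38.WM.nrm1 M x ≤ C₀ * w (x : M)) →
      ∀ φ : M →+* ℂ, szG x ^ 3 ≤ max C₀ 1 * ‖φ (x : M)‖ := by
    intro x hx φ
    have h1 := hx (NumberField.InfinitePlace.mk φ)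
    rw [NumberField.InfinitePlace.apply, c2_cube] at h1
    exact h1.trans (mul_le_mul_of_nonneg_right (le_max_left _ _) (norm_nonneg _))
  refine ⟨h.u0, h.v0, key1 u h.upu, key2 u h.lou, ?_, ?_,
    fun I hI => c2_sq hm h (Or.inl rfl) hI, fun I hI => c2_sq hm h (Or.inr rfl) hI,
    c2_cop hm h⟩
  · rw [hsz]
    exact key1 v h.upv
  · rw [hsz]
    exact key2 v h.lov

/-- The norm is invariant under automorphisms: `φ ∘ τ` runs through the embeddings. -/
theorem nm_tO {k M : Type} [Field k] [NumberField k] [Field M] [NumberField M] [Algebra k M]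
    (τ : M ≃ₐ[k] M) (u : 𝓞 M) : nm ((tO τ u : 𝓞 M) : M) = nm (u : M) := by
  have h1 : Function.Bijective (fun φ : M →+* ℂ => φ.comp (τ : M ≃+* M).toRingHom) := by
    refine Function.bijective_iff_has_inverse.2
      ⟨fun φ => φ.comp (τ.symm : M ≃+* M).toRingHom, ?_, ?_⟩
    · intro φ
      ext x
      show φ (τ (τ.symm x)) = φ x
      rw [AlgEquiv.apply_symm_apply]
    · intro φ
      ext x
      show φ (τ.symm (τ x)) = φ x
      rw [AlgEquiv.symm_apply_apply]
  exact h1.prod_comp (fun φ : M →+* ℂ => ‖φ (u : M)‖)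

end H88.A4
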