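import Pool.Agent.H88.A4.Iface2
import Pool.Agent.H88.A4.Geo

/-!
# [H88 A4 C2Rho] Stage 2: the main case for all shapes `(ρ1, ρ2)`

Port of `CRho.lean` (`main_all`): dyadic `ρ1, ρ2`; lower bound for `ρ1`: `b1 ≠ 0` in `𝓞 M`, so
`C s ρ1 ^ 2 ≥ 1` at some embedding; `(1 + log (1 + s)) ^ 2 ≤ C'' s ^ {ε/2}` for `s ≥ 1/C`.
-/

open scoped NumberField

noncomputable section

namespace H88.A4

variable (k M : Type) [Field k] [NumberField k] [Field M] [NumberField M] [Algebra k M]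

private lemma c2r_bd {H H' : ℝ} (h : H ≤ H') {x : 𝓞 M} (hx : Bd H x) : Bd H' x :=
  fun φ => (hx φ).trans h

private lemma c2r_emb (x : 𝓞 M) (hx : x ≠ 0) : ∃ φ : M →+* ℂ, 1 ≤ ‖φ (x : M)‖ := by
  by_contra hcon
  push Not at hcon
  have h1 := one_le_nm M x hx
  have hx0 : (x : M) ≠ 0 := fun h => hx (by exact_mod_cast h)
  have h2 : nm (x : M) < ∏ _φ : M →+* ℂ, (1 : ℝ) := by
    unfold nm
    refine Finset.prod_lt_prod_of_nonempty (fun φ _ => ?_) (fun φ _ => hcon φ) Finset.univ_nonempty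
    rw [norm_pos_iff, Ne, map_eq_zero]
    exact hx0
  rw [Finset.prod_const_one] at h2
  linarith

/-- dyadic scale of a positive number -/
private lemma c2r_dy (ρ : ℝ) (h : 0 < ρ) : ∃ i : ℤ, ρ ≤ (2 : ℝ) ^ i ∧ (2 : ℝ) ^ i < 2 * ρ := by
  obtain ⟨n, hn1, hn2⟩ := exists_mem_Ioc_zpow (x := ρ) (y := 2) h (by norm_num)
  refine ⟨n + 1, hn2, ?_⟩
  rw [zpow_add₀ (by norm_num), zpow_one]
  linarith

private lemma c2r_main {C s ρ1 ρ2 : ℝ} (τ : M ≃ₐ[k] M) (hC : 1 ≤ C) (hs : 0 < s)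
    (hR : Rho C ρ1 ρ2) (β : Blk (𝓞 M)) (hM : Main2 τ C s ρ1 ρ2 β) (i j : ℤ)
    (hi1 : ρ1 ≤ (2 : ℝ) ^ i) (hi2 : (2 : ℝ) ^ i < 2 * ρ1) (hj1 : ρ2 ≤ (2 : ℝ) ^ j)
    (hj2 : (2 : ℝ) ^ j < 2 * ρ2) :
    Rho (8 * C) ((2 : ℝ) ^ i) ((2 : ℝ) ^ j) ∧ Main2 τ (8 * C) s ((2 : ℝ) ^ i) ((2 : ℝ) ^ j) β := by
  obtain ⟨h0, h12, h1C, h122⟩ := hR
  have hρ2 : 0 < ρ2 := h0.trans_le h12
  have hij : i ≤ j := by
    have h1 : (2 : ℝ) ^ i < 2 * (2 : ℝ) ^ j := by linarith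
    have h2 : (2 : ℝ) ^ i < (2 : ℝ) ^ (j + 1) := by
      rw [zpow_add₀ (by norm_num), zpow_one]
      linarith
    have h3 := (zpow_lt_zpow_iff_right₀ (by norm_num : (1 : ℝ) < 2)).1 h2
    omega
  have p1 : 0 < (2 : ℝ) ^ i := by positivity
  have p2 : 0 < (2 : ℝ) ^ j := by positivity
  constructor
  · refine ⟨p1, (zpow_le_zpow_iff_right₀ (by norm_num : (1 : ℝ) < 2)).2 hij, by linarith, ?_⟩
    calc (2 : ℝ) ^ i * ((2 : ℝ) ^ j) ^ 2 ≤ (2 * ρ1) * (2 * ρ2) ^ 2 := by gcongr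
      _ = 8 * (ρ1 * ρ2 ^ 2) := by ring
      _ ≤ 8 * C := by linarith
  · obtain ⟨hS, hr⟩ := hM
    have q1 : ρ1 ^ 2 ≤ ((2 : ℝ) ^ i) ^ 2 := by gcongr
    have q2 : ρ1 * ρ2 ≤ (2 : ℝ) ^ i * (2 : ℝ) ^ j := by gcongr
    have q3 : ρ2 ^ 2 ≤ ((2 : ℝ) ^ j) ^ 2 := by gcongr
    have c1 : C * s ≤ 8 * C * s := by nlinarith
    refine ⟨⟨c2r_bd M ?_ hS.sb1, c2r_bd M ?_ hS.sb2, c2r_bd M ?_ hS.sb3, c2r_bd M ?_ hS.sc1,
      c2r_bd M ?_ hS.sc2, c2r_bd M ?_ hS.sc3⟩, hr⟩ <;>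
      exact mul_le_mul (by assumption) (by assumption) (by positivity) (by positivity)

/-- the range of the dyadic exponents -/
private lemma c2r_rng {C s ρ1 ρ2 : ℝ} (τ : M ≃ₐ[k] M) (hC : 1 ≤ C) (hR : 1 ≤ C * s)
    (hρ : Rho C ρ1 ρ2) (β : Blk (𝓞 M)) (hM : Main2 τ C s ρ1 ρ2 β) (i j : ℤ)
    (hi1 : ρ1 ≤ (2 : ℝ) ^ i) (hi2 : (2 : ℝ) ^ i < 2 * ρ1) (hj1 : ρ2 ≤ (2 : ℝ) ^ j)
    (hj2 : (2 : ℝ) ^ j < 2 * ρ2) (L : ℕ) (hL : 16 * C ^ 3 * (1 + s) ≤ (2 : ℝ) ^ L) :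
    i ∈ Finset.Icc (-(L : ℤ)) L ∧ j ∈ Finset.Icc (-(L : ℤ)) L := by
  obtain ⟨h0, h12, h1C, h122⟩ := hρ
  have hC0 : 0 < C := by linarith
  have hs : 0 < s := by
    by_contra h
    push Not at h
    nlinarith
  have hρ2 : 0 < ρ2 := h0.trans_le h12
  have key : 1 ≤ C * s * ρ1 ^ 2 := by
    obtain ⟨hS, -, hb, -⟩ := hM
    obtain ⟨φ, hφ⟩ := c2r_emb M β.b1 hb
    have h1 := hS.sb1 φ
    linarith
  have hC3 : C ≤ C ^ 3 := by nlinarith [sq_nonneg (C - 1), sq_nonneg C]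
  have e2 : (2 : ℝ) ^ (L : ℤ) = (2 : ℝ) ^ L := zpow_natCast _ _
  have one2 : (1 : ℝ) < 2 := by norm_num
  have hCs : C * s ≤ (2 : ℝ) ^ L := by nlinarith
  have hC3s : C ^ 3 * s ≤ (2 : ℝ) ^ L := by nlinarith [pow_pos hC0 3]
  have h2C : 2 * C ≤ (2 : ℝ) ^ L := by nlinarith [pow_pos hC0 3]
  -- lower bound for `i`
  have hi : -(L : ℤ) ≤ i := by
    have h1 : ρ1 ^ 2 ≤ ((2 : ℝ) ^ i) ^ 2 := by gcongr
    have h2 : 1 ≤ (2 : ℝ) ^ L * ((2 : ℝ) ^ i) ^ 2 :=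
      key.trans (mul_le_mul hCs h1 (by positivity) (by positivity))
    have h3 : (2 : ℝ) ^ (0 : ℤ) ≤ (2 : ℝ) ^ ((L : ℤ) + 2 * i) := by
      rw [zpow_zero, zpow_add₀ (by norm_num), e2, mul_comm (2 : ℤ) i, zpow_mul, zpow_ofNat]
      exact h2
    have h4 := (zpow_le_zpow_iff_right₀ one2).1 h3
    omega
  have hi' : i ≤ L := by
    have h1 : (2 : ℝ) ^ i ≤ (2 : ℝ) ^ (L : ℤ) := by
      rw [e2]
      linarith
    exact (zpow_le_zpow_iff_right₀ one2).1 h1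
  have hij : i ≤ j := by
    have h2 : (2 : ℝ) ^ i < (2 : ℝ) ^ (j + 1) := by
      rw [zpow_add₀ (by norm_num), zpow_one]
      linarith
    have h3 := (zpow_lt_zpow_iff_right₀ one2).1 h2
    omega
  have hj' : j ≤ L := by
    -- `ρ2 ^ 4 ≤ C ^ 3 s`
    have h1 : ρ2 ^ 4 ≤ C ^ 3 * s := by
      have h2 : (ρ1 * ρ2 ^ 2) ^ 2 ≤ C ^ 2 := by gcongr
      have h3 : ρ2 ^ 4 * 1 ≤ ρ2 ^ 4 * (C * s * ρ1 ^ 2) := by gcongr
      have h4 : ρ2 ^ 4 * (C * s * ρ1 ^ 2) = C * s * (ρ1 * ρ2 ^ 2) ^ 2 := by ring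
      have h5 : C * s * (ρ1 * ρ2 ^ 2) ^ 2 ≤ C * s * C ^ 2 := by gcongr
      nlinarith
    have h6 : ((2 : ℝ) ^ j) ^ 4 ≤ (2 : ℝ) ^ L := by
      calc ((2 : ℝ) ^ j) ^ 4 ≤ (2 * ρ2) ^ 4 := by gcongr
        _ = 16 * ρ2 ^ 4 := by ring
        _ ≤ 16 * (C ^ 3 * s) := by linarith
        _ ≤ 16 * C ^ 3 * (1 + s) := by nlinarith [pow_pos hC0 3]
        _ ≤ _ := hL
    have h7 : (2 : ℝ) ^ (j * 4) ≤ (2 : ℝ) ^ (L : ℤ) := by
      rw [e2, zpow_mul, zpow_ofNat]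
      exact h6
    have h8 := (zpow_le_zpow_iff_right₀ one2).1 h7
    have h9 : (0 : ℤ) ≤ L := Int.natCast_nonneg L
    omega
  rw [Finset.mem_Icc, Finset.mem_Icc]
  exact ⟨⟨hi, hi'⟩, hi.trans hij, hj'⟩

theorem main2_all (hmain : Main2Stmt k M) (τ : M ≃ₐ[k] M) (hτ : Invo k M τ) (m : ℕ) (hm : m ≠ 0)
    (C : ℝ) (hC : 1 ≤ C) (A : ℕ) (ε : ℝ) (hε : 0 < ε) : ∃ C' : ℝ, 0 < C' ∧ ∀ s : ℝ, 1 ≤ C * s →
      ∀ S : Finset (𝓞 M × Blk (𝓞 M)),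
      (∀ x ∈ S, Adm m C s s x.1 (tO τ x.1) ∧ (∃ ρ1 ρ2 : ℝ, Rho C ρ1 ρ2 ∧ Main2 τ C s ρ1 ρ2 x.2) ∧
        x.2.All (Bd (Hp C A s)) ∧ Rep2 τ (Hp C A s) x.2 x.1) →
      (S.card : ℝ) ≤ C' * s ^ (6 * (Module.finrank ℚ k : ℝ) + ε) := by
  classical
  have hC0 : 0 < C := by linarith
  obtain ⟨C0, hC0', hmn⟩ := hmain τ hτ m hm (8 * C) (by linarith) A (ε / 2) (by positivity)
  obtain ⟨B, hB⟩ : ∃ B : ℝ, B = 3 + 2 / Real.log 2 * (4 / ε) := ⟨_, rfl⟩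
  have hl2 : 0 < Real.log 2 := Real.log_pos (by norm_num)
  have hB0 : 0 < B := by
    rw [hB]
    positivity
  refine ⟨B ^ 2 * (32 * C ^ 4) ^ (ε / 2) * C0, by positivity, fun s hR1 S hS => ?_⟩
  have hs : 0 < s := by
    by_contra h
    push Not at h
    nlinarith
  obtain ⟨y, hy⟩ : ∃ y : ℝ, y = 16 * C ^ 3 * (1 + s) := ⟨_, rfl⟩
  have hC1 : 1 ≤ C ^ 3 := one_le_pow₀ hC
  have hy1 : 1 ≤ y := by
    rw [hy]
    nlinarith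
  have hy2 : y ≤ 32 * C ^ 4 * s := by
    have h4 : 1 + s ≤ 2 * (C * s) := by nlinarith
    rw [hy]
    calc 16 * C ^ 3 * (1 + s) ≤ 16 * C ^ 3 * (2 * (C * s)) := by gcongr
      _ = _ := by ring
  obtain ⟨L, hL⟩ : ∃ L : ℕ, L = ⌈Real.logb 2 y⌉₊ := ⟨_, rfl⟩
  have hL1 : y ≤ (2 : ℝ) ^ L := by
    have h1 : Real.logb 2 y ≤ L := by
      rw [hL]
      exact Nat.le_ceil _
    have h2 := (Real.logb_le_iff_le_rpow (by norm_num) (by linarith)).1 h1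
    rwa [Real.rpow_natCast] at h2
  have hL2 : 2 * (L : ℝ) + 1 ≤ B * y ^ (ε / 4) := by
    have h1 : (L : ℝ) < Real.logb 2 y + 1 := by
      rw [hL]
      exact Nat.ceil_lt_add_one (Real.logb_nonneg (by norm_num) hy1)
    have h2 : Real.logb 2 y = Real.log y / Real.log 2 := rfl
    have h3 : Real.log y ≤ y ^ (ε / 4) / (ε / 4) := Real.log_le_rpow_div (by linarith) (by positivity)
    have h4 : 1 ≤ y ^ (ε / 4) := Real.one_le_rpow hy1 (by positivity)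
    have h5 : Real.log y / Real.log 2 ≤ y ^ (ε / 4) / (ε / 4) / Real.log 2 := by gcongr
    have h6 : B * y ^ (ε / 4) = 3 * y ^ (ε / 4) + 2 * (y ^ (ε / 4) / (ε / 4) / Real.log 2) := by
      rw [hB]
      field_simp
    rw [h6]
    linarith
  -- the classes
  have hcls : ∀ x ∈ S, ∃ ij : ℤ × ℤ, ij ∈ Finset.Icc (-(L : ℤ)) L ×ˢ Finset.Icc (-(L : ℤ)) L ∧
      Rho (8 * C) ((2 : ℝ) ^ ij.1) ((2 : ℝ) ^ ij.2) ∧
      Main2 τ (8 * C) s ((2 : ℝ) ^ ij.1) ((2 : ℝ) ^ ij.2) x.2 := by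
    intro x hx
    obtain ⟨-, ⟨ρ1, ρ2, hρ, hM⟩, -, -⟩ := hS x hx
    obtain ⟨i, hi1, hi2⟩ := c2r_dy ρ1 hρ.1
    obtain ⟨j, hj1, hj2⟩ := c2r_dy ρ2 (hρ.1.trans_le hρ.2.1)
    refine ⟨(i, j), ?_, c2r_main k M τ hC hs hρ x.2 hM i j hi1 hi2 hj1 hj2⟩
    rw [Finset.mem_product]
    exact c2r_rng k M τ hC hR1 hρ x.2 hM i j hi1 hi2 hj1 hj2 L (by rw [← hy]; exact hL1)
  choose! f hf1 hf2 hf3 using hcls
  obtain ⟨T, hT⟩ : ∃ T : Finset (ℤ × ℤ), T = Finset.Icc (-(L : ℤ)) L ×ˢ Finset.Icc (-(L : ℤ)) L :=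
    ⟨_, rfl⟩
  have hTc : (T.card : ℝ) = (2 * L + 1) ^ 2 := by
    rw [hT, Finset.card_product, Int.card_Icc]
    have h1 : ((L : ℤ) + 1 - -(L : ℤ)).toNat = 2 * L + 1 := by omega
    rw [h1]
    push_cast
    ring
  have hsum : S.card = ∑ b ∈ T, (S.filter fun x => f x = b).card :=
    Finset.card_eq_sum_card_fiberwise (fun x hx => by rw [hT]; exact hf1 x hx)
  have hone : ∀ b ∈ T, ((S.filter fun x => f x = b).card : ℝ) ≤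
      C0 * s ^ (6 * (Module.finrank ℚ k : ℝ) + ε / 2) := by
    intro b _
    rcases (S.filter fun x => f x = b).eq_empty_or_nonempty with h | ⟨x0, hx0⟩
    · rw [h, Finset.card_empty, Nat.cast_zero]
      positivity
    · rw [Finset.mem_filter] at hx0
      have hrho := hf2 x0 hx0.1
      rw [hx0.2] at hrho
      refine hmn s ((2 : ℝ) ^ b.1) ((2 : ℝ) ^ b.2) (by linarith) hrho _ fun x hx => ?_
      rw [Finset.mem_filter] at hx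
      obtain ⟨hA, -, hAll, hRep⟩ := hS x hx.1
      have hMn := hf3 x hx.1
      rw [hx.2] at hMn
      have hH : Hp C A s ≤ Hp (8 * C) A s := by
        unfold Hp
        gcongr
        linarith
      refine ⟨⟨hA.u0, hA.v0, fun φ => (hA.ule φ).trans ?_, fun φ => (hA.uge φ).trans ?_,
        fun φ => (hA.vle φ).trans ?_, fun φ => (hA.vge φ).trans ?_, hA.squ, hA.sqv, hA.cop⟩, hMn, ?_, ?_⟩
      · gcongr
        linarith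
      · gcongr
        linarith
      · gcongr
        linarith
      · gcongr
        linarith
      · obtain ⟨g1, g2, g3, g4, g5, g6⟩ := hAll
        exact ⟨c2r_bd M hH g1, c2r_bd M hH g2, c2r_bd M hH g3, c2r_bd M hH g4, c2r_bd M hH g5,
          c2r_bd M hH g6⟩
      · obtain ⟨π, r, r', hcj, ⟨g1, g2, g3, g4⟩, hsol⟩ := hRep
        exact ⟨π, r, r', hcj, ⟨c2r_bd M hH g1, c2r_bd M hH g2, c2r_bd M hH g3, c2r_bd M hH g4⟩, hsol⟩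
  have hy0 : 0 ≤ y := by linarith
  calc (S.card : ℝ) = ∑ b ∈ T, ((S.filter fun x => f x = b).card : ℝ) := by
        rw [hsum]
        push_cast
        rfl
    _ ≤ ∑ _b ∈ T, C0 * s ^ (6 * (Module.finrank ℚ k : ℝ) + ε / 2) := Finset.sum_le_sum hone
    _ = (2 * L + 1) ^ 2 * (C0 * s ^ (6 * (Module.finrank ℚ k : ℝ) + ε / 2)) := by
        rw [Finset.sum_const, nsmul_eq_mul, hTc]
    _ ≤ (B * y ^ (ε / 4)) ^ 2 * (C0 * s ^ (6 * (Module.finrank ℚ k : ℝ) + ε / 2)) := by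
        gcongr
    _ = B ^ 2 * y ^ (ε / 2) * (C0 * s ^ (6 * (Module.finrank ℚ k : ℝ) + ε / 2)) := by
        rw [mul_pow, ← Real.rpow_natCast (y ^ (ε / 4)), ← Real.rpow_mul hy0]
        congr 3
        push_cast
        ring
    _ ≤ B ^ 2 * (32 * C ^ 4 * s) ^ (ε / 2) *
          (C0 * s ^ (6 * (Module.finrank ℚ k : ℝ) + ε / 2)) := by
        gcongr
    _ = _ := by
        rw [Real.mul_rpow (by positivity) hs.le]
        have h1 : s ^ (6 * (Module.finrank ℚ k : ℝ) + ε) =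
            s ^ (ε / 2) * s ^ (6 * (Module.finrank ℚ k : ℝ) + ε / 2) := by
          rw [← Real.rpow_add hs]
          congr 1
          ring
        rw [h1]
        ring

end H88.A4
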