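import Pool.Agent.H38.WM.Def
import Pool.Agent.H88.A4.Iface
import Pool.Agent.H88.A4.Geo
import Pool.Agent.H94.TL.Glob

/-!
# [H88 A4 CBr] The bridge from `H38.WM` (chapters 1, 10) to the core

`adm_of`: `H38.WM.Adm K M C₀ u v` gives `H88.A4.Adm (M ^ M) C₁ s t u v` for `s = |N u|^{1/(3d)}`,
`t = |N v|^{1/(3d)}`, `C₁ = max C₀ 1`. PROOF. `‖φ x‖ = w x` for the infinite place `w` of `φ`
(`InfinitePlace.mk φ`, `InfinitePlace.apply`); `nrm1 K u = s ^ 3`. `squ`: let `I ^ 2 ∣ (u)` (`I ≠ 0`); at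
a prime `l` with `M ∉ l`: `l ^ 2` does not divide `(u)` (else `u v ∈ l ^ 2`), so `l` does not divide `I`;
at `M ∈ l`: `l ^ M` does not divide `(u)`, so `w_l(I) < M ≤ w_l(M ^ M)`; hence `I ∣ (M ^ M)` (compare
valuations at all primes). `cop`: the ideal `(u, v)` has `w_l = min(w_l(u), w_l(v))`, which is 0 if
`M ∉ l` (otherwise `u v ∈ l ^ 2`) and `< M ≤ w_l (M ^ M)` if `M ∈ l`; so `(u, v) ∣ (M ^ M)`.
`1 ≤ s`, `1 ≤ t`: norms of nonzero integers are at least 1.

`dat_of`: the data of `H38.WM.Dat` give `H88.A4.Dat` for `F = Fd K u v`, `t1 = rt K u v`,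
`t2 = u v / t1` (elements of `F`). `(a) = J ^ 2`: all valuations of `a` are even (`Sel.even`;
factorisation of fractional ideals, e.g. `FractionalIdeal.finprod_heightOneSpectrum_factorization`, or:
the ideal `J = ∏ P ^ (ord P a / 2)`).

`adm_swap`, `dat_swap`: the roles of `u`, `v` can be exchanged: `t2 ^ 3 = v u ^ 2`, `t1 = t2 ^ 2 / u`.
-/

open scoped NumberField nonZeroDivisors
open IsDedekindDomain UniqueFactorizationMonoid

noncomputable section

namespace H88.A4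

open H38.ML H63.MA

private theorem cbr_dvd {R : Type} [CommRing R] [IsDedekindDomain R] {I J : Ideal R} (hI : I ≠ ⊥)
    (hJ : J ≠ ⊥) (h : ∀ (P : HeightOneSpectrum R) (n : ℕ), 1 ≤ n → P.asIdeal ^ n ∣ I →
      P.asIdeal ^ n ∣ J) : I ∣ J := by
  classical
  rw [dvd_iff_normalizedFactors_le_normalizedFactors hI hJ, Multiset.le_iff_count]
  intro p
  by_cases hp : p ∈ normalizedFactors I
  · have hirr := irreducible_of_normalized_factor p hp
    have hpr : Prime p := hirr.prime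
    set P : HeightOneSpectrum R := ⟨p, Ideal.isPrime_of_prime hpr, hpr.ne_zero⟩
    have h1 := emultiplicity_eq_count_normalizedFactors hirr hI
    have h2 := emultiplicity_eq_count_normalizedFactors hirr hJ
    rw [normalize_eq] at h1 h2
    have h3 : p ^ (Multiset.count p (normalizedFactors I)) ∣ I := by
      rw [pow_dvd_iff_le_emultiplicity, h1]
    have h4 := h P _ (Multiset.one_le_count_iff_mem.2 hp) h3
    rw [pow_dvd_iff_le_emultiplicity, h2] at h4
    exact_mod_cast h4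
  · rw [Multiset.count_eq_zero_of_notMem hp]
    exact Nat.zero_le _

variable (K : IntermediateField ℚ QBar) [NumberField K]

/-- `|N u|^{1/(3d)}` -/
def sz (u : 𝓞 K) : ℝ := nm (u : K) ^ (1 / (3 * (Module.finrank ℚ K : ℝ)))

private theorem nm_nn (u : 𝓞 K) : 0 ≤ nm (u : K) := Finset.prod_nonneg fun _ _ => norm_nonneg _

theorem sz_pow (u : 𝓞 K) : sz K u ^ (3 * Module.finrank ℚ K) = nm (u : K) := by
  have hd : Module.finrank ℚ K ≠ 0 := Module.finrank_pos.ne'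
  have e : (1 / (3 * (Module.finrank ℚ K : ℝ))) = ((3 * Module.finrank ℚ K : ℕ) : ℝ)⁻¹ := by
    push_cast
    rw [one_div]
  unfold sz
  rw [e]
  exact Real.rpow_inv_natCast_pow (nm_nn K u) (by omega)

theorem one_le_sz (u : 𝓞 K) (hu : u ≠ 0) : 1 ≤ sz K u :=
  Real.one_le_rpow (one_le_nm K u hu) (by positivity)

private theorem sz_cube (u : 𝓞 K) : H38.WM.nrm1 K u = sz K u ^ 3 := by
  have hd : (Module.finrank ℚ K : ℝ) ≠ 0 := Nat.cast_ne_zero.2 Module.finrank_pos.ne'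
  have h1 : nm (u : K) = |((Algebra.norm ℤ u : ℤ) : ℝ)| := by
    rw [nm_eq, Ideal.absNorm_span_singleton, Nat.cast_natAbs, Int.cast_abs]
  unfold H38.WM.nrm1 sz
  rw [← h1, ← Real.rpow_natCast, ← Real.rpow_mul (nm_nn K u)]
  congr 1
  field_simp
  norm_num

/-- the common part of `squ`, `sqv`, `cop` -/
private theorem cbr_pow {M : ℕ} {C₀ : ℝ} {u v : 𝓞 K} (h : H38.WM.Adm K M C₀ u v)
    {P : HeightOneSpectrum (𝓞 K)} {n : ℕ} (hP : (M : 𝓞 K) ∈ P.asIdeal)
    (hn : u ∈ P.asIdeal ^ n ∨ v ∈ P.asIdeal ^ n) :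
    P.asIdeal ^ n ∣ Ideal.span {((M ^ M : ℕ) : 𝓞 K)} := by
  have h1 : n ≤ M := by
    by_contra hcon
    push Not at hcon
    have h2 : P.asIdeal ^ n ≤ P.asIdeal ^ M := Ideal.pow_le_pow_right hcon.le
    rcases hn with hn | hn
    · exact h.badu P hP (h2 hn)
    · exact h.badv P hP (h2 hn)
  rw [Ideal.dvd_span_singleton]
  push_cast
  exact Ideal.pow_le_pow_right h1 (Ideal.pow_mem_pow hP M)

private theorem cbr_sq {M : ℕ} {C₀ : ℝ} (hM : M ≠ 0) {u v x : 𝓞 K} (h : H38.WM.Adm K M C₀ u v)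
    (hx : x = u ∨ x = v) {I : Ideal (𝓞 K)} (hI : I ^ 2 ∣ Ideal.span {x}) :
    I ∣ Ideal.span {((M ^ M : ℕ) : 𝓞 K)} := by
  have hx0 : x ≠ 0 := by
    rcases hx with rfl | rfl
    · exact h.u0
    · exact h.v0
  have hI0 : I ≠ ⊥ := by
    rintro rfl
    rw [Ideal.dvd_span_singleton] at hI
    apply hx0
    have h1 : (⊥ : Ideal (𝓞 K)) ^ 2 ≤ ⊥ := by
      rw [pow_two]
      exact Ideal.mul_le_left
    exact (Submodule.mem_bot _).1 (h1 hI)
  have hM0 : (Ideal.span {((M ^ M : ℕ) : 𝓞 K)}) ≠ ⊥ := by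
    rw [Ne, Ideal.span_singleton_eq_bot]
    exact Nat.cast_ne_zero.2 (pow_ne_zero _ hM)
  refine cbr_dvd hI0 hM0 fun P n hn hPn => ?_
  have hPI : P.asIdeal ∣ I := (dvd_pow_self _ (by omega)).trans hPn
  have h2 : x ∈ P.asIdeal ^ 2 := by
    rw [← Ideal.dvd_span_singleton]
    exact (pow_dvd_pow_of_dvd hPI 2).trans hI
  have h3 : x ∈ P.asIdeal ^ n := by
    rw [← Ideal.dvd_span_singleton]
    exact hPn.trans ((dvd_pow_self _ two_ne_zero).trans hI)
  have hMP : (M : 𝓞 K) ∈ P.asIdeal := by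
    by_contra hcon
    apply h.good P hcon
    rcases hx with rfl | rfl
    · exact Ideal.mul_mem_right _ _ h2
    · exact Ideal.mul_mem_left _ _ h2
  refine cbr_pow K h hMP ?_
  rcases hx with rfl | rfl
  · exact Or.inl h3
  · exact Or.inr h3

private theorem cbr_cop {M : ℕ} {C₀ : ℝ} (hM : M ≠ 0) {u v : 𝓞 K} (h : H38.WM.Adm K M C₀ u v) :
    ((M ^ M : ℕ) : 𝓞 K) ∈ Ideal.span {u, v} := by
  have hI0 : Ideal.span {u, v} ≠ ⊥ := by
    intro h0
    apply h.u0
    rw [← Submodule.mem_bot (R := 𝓞 K), ← h0]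
    exact Ideal.subset_span (by simp)
  have hM0 : (Ideal.span {((M ^ M : ℕ) : 𝓞 K)}) ≠ ⊥ := by
    rw [Ne, Ideal.span_singleton_eq_bot]
    exact Nat.cast_ne_zero.2 (pow_ne_zero _ hM)
  rw [← Ideal.dvd_span_singleton]
  refine cbr_dvd hI0 hM0 fun P n hn hPn => ?_
  have hu : u ∈ P.asIdeal ^ n := (Ideal.dvd_iff_le.1 hPn) (Ideal.subset_span (by simp))
  have hv : v ∈ P.asIdeal ^ n := (Ideal.dvd_iff_le.1 hPn) (Ideal.subset_span (by simp))
  have hMP : (M : 𝓞 K) ∈ P.asIdeal := by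
    by_contra hcon
    apply h.good P hcon
    have h1 : u ∈ P.asIdeal := Ideal.pow_le_self (by omega) hu
    have h2 : v ∈ P.asIdeal := Ideal.pow_le_self (by omega) hv
    rw [pow_two]
    exact Ideal.mul_mem_mul h1 h2
  exact cbr_pow K h hMP (Or.inl hu)

theorem adm_of {M : ℕ} {C₀ : ℝ} (hM : M ≠ 0) {u v : 𝓞 K} (h : H38.WM.Adm K M C₀ u v) :
    Adm (M ^ M) (max C₀ 1) (sz K u) (sz K v) u v := by
  have key1 : ∀ x : 𝓞 K, (∀ w : NumberField.InfinitePlace K, w (x : K) ≤ C₀ * H38.WM.nrm1 K x) →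
      ∀ φ : K →+* ℂ, ‖φ (x : K)‖ ≤ max C₀ 1 * sz K x ^ 3 := by
    intro x hx φ
    have h1 := hx (NumberField.InfinitePlace.mk φ)
    rw [NumberField.InfinitePlace.apply, sz_cube] at h1
    refine h1.trans (mul_le_mul_of_nonneg_right (le_max_left _ _) ?_)
    have h2 : 0 ≤ sz K x := Real.rpow_nonneg (nm_nn K x) _
    positivity
  have key2 : ∀ x : 𝓞 K, (∀ w : NumberField.InfinitePlace K, H38.WM.nrm1 K x ≤ C₀ * w (x : K)) →
      ∀ φ : K →+* ℂ, sz K x ^ 3 ≤ max C₀ 1 * ‖φ (x : K)‖ := by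
    intro x hx φ
    have h1 := hx (NumberField.InfinitePlace.mk φ)
    rw [NumberField.InfinitePlace.apply, sz_cube] at h1
    exact h1.trans (mul_le_mul_of_nonneg_right (le_max_left _ _) (norm_nonneg _))
  exact ⟨h.u0, h.v0, key1 u h.upu, key2 u h.lou, key1 v h.upv, key2 v h.lov,
    fun I hI => cbr_sq K hM h (Or.inl rfl) hI, fun I hI => cbr_sq K hM h (Or.inr rfl) hI,
    cbr_cop K hM h⟩

/-- an element with even valuations generates a square of a fractional ideal -/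
private theorem cbr_isq {F : Type} [Field F] [NumberField F] (a : Fˣ)
    (h : ∀ P : Pl F, Even (ord P a)) :
    ∃ J : FractionalIdeal (𝓞 F)⁰ F, FractionalIdeal.spanSingleton (𝓞 F)⁰ (a : F) = J ^ 2 := by
  obtain ⟨x, y, hy, hxy⟩ := IsFractionRing.div_surjective (A := 𝓞 F) (a : F)
  have hy0 : y ≠ 0 := nonZeroDivisors.ne_zero hy
  have hyF : algebraMap (𝓞 F) F y ≠ 0 := by
    rw [Ne, FaithfulSMul.algebraMap_eq_zero_iff]; exact hy0
  have hx0 : x ≠ 0 := by
    rintro rfl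
    rw [map_zero, zero_div] at hxy
    exact a.ne_zero hxy.symm
  have hxyn : x * y ≠ 0 := mul_ne_zero hx0 hy0
  have hJ0 : Ideal.span {x * y} ≠ ⊥ := by
    rw [Ne, Ideal.span_singleton_eq_bot]
    exact hxyn
  have hmul : algebraMap (𝓞 F) F (x * y) = (a : F) * algebraMap (𝓞 F) F y ^ 2 := by
    rw [← hxy, map_mul]
    field_simp
  obtain ⟨I, hI, -⟩ := Pool.Agent.H94.TL.exists_pow_ideal 2 (Ideal.span {x * y}) hJ0 (by
    intro w
    obtain ⟨m, hm⟩ := h w
    have h1 : w.valuation F (a : F) = (WithZero.exp (-m)) ^ 2 := by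
      have h2 : WithZero.log (w.valuation F (a : F)) = -(m + m) := by
        have h3 : ord w a = -WithZero.log (w.valuation F (a : F)) := rfl
        rw [h3] at hm
        linarith
      have h4 : w.valuation F (a : F) ≠ 0 := by
        rw [Ne, map_eq_zero]
        exact a.ne_zero
      rw [← WithZero.exp_log h4, h2, ← WithZero.exp_nsmul]
      congr 1
      ring
    refine Pool.Agent.H94.TL.dvd_of_exp_eq_pow (s := WithZero.exp (-m) * w.valuation F
      (algebraMap (𝓞 F) F y)) ?_ two_ne_zero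
    have h5 : w.valuation F (algebraMap (𝓞 F) F (x * y)) = w.intValuation (x * y) :=
      w.valuation_of_algebraMap (x * y)
    rw [← w.intValuation_eq_exp_neg_multiplicity hxyn, ← h5, hmul, map_mul, h1, map_pow, mul_pow])
  refine ⟨(I : FractionalIdeal (𝓞 F)⁰ F) * FractionalIdeal.spanSingleton (𝓞 F)⁰
    (algebraMap (𝓞 F) F y)⁻¹, ?_⟩
  rw [mul_pow, ← FractionalIdeal.coeIdeal_pow, hI, FractionalIdeal.coeIdeal_span_singleton,
    FractionalIdeal.spanSingleton_pow, FractionalIdeal.spanSingleton_mul_spanSingleton, hmul]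
  congr 1
  field_simp

theorem dat_of {M : ℕ} {C₀ R : ℝ} {u v : 𝓞 K} {a : QBar} (h : H38.WM.Dat K M C₀ R u v a) :
    ∃ t1 t2 a' : H38.WM.Fd K u v, (t1 : QBar) = H38.WM.rt K u v ∧ (a' : QBar) = a ∧
      Dat (H38.WM.Fd K u v) u v t1 t2 a' := by
  obtain ⟨hadm, -, hdeg, a', ha', hsel⟩ := h
  have hmem : H38.WM.rt K u v ∈ H38.WM.Fd K u v := IntermediateField.mem_adjoin_simple_self K _
  obtain ⟨t1, ht1⟩ : ∃ t1 : H38.WM.Fd K u v, (t1 : QBar) = H38.WM.rt K u v := ⟨⟨_, hmem⟩, rfl⟩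
  have hcub : t1 ^ 3 = algebraMap K (H38.WM.Fd K u v) ((u : K) * (v : K) ^ 2) := by
    apply Subtype.ext
    have h1 := H38.WM.rt_pow K u v
    rw [← ht1] at h1
    push_cast
    rw [h1]
    rw [map_mul, map_pow]
    rfl
  have hu0 : (u : K) ≠ 0 := NumberField.RingOfIntegers.coe_ne_zero_iff.2 hadm.u0
  have hv0 : (v : K) ≠ 0 := NumberField.RingOfIntegers.coe_ne_zero_iff.2 hadm.v0
  have ht0 : t1 ≠ 0 := by
    rintro rfl
    rw [zero_pow three_ne_zero] at hcub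
    have h1 := hcub.symm
    rw [FaithfulSMul.algebraMap_eq_zero_iff] at h1
    exact mul_ne_zero hu0 (pow_ne_zero 2 hv0) h1
  refine ⟨t1, algebraMap K (H38.WM.Fd K u v) ((u : K) * (v : K)) / t1, a', ht1, ha', hdeg, ?_, hcub,
    ?_, a'.ne_zero, hsel.nsq, cbr_isq a' hsel.even⟩
  · apply IntermediateField.lift_injective
    rw [IntermediateField.lift_adjoin_simple, IntermediateField.lift_top, ht1]
    rfl
  · rw [mul_div_cancel₀ _ ht0]

theorem adm_swap {M : ℕ} {C s t : ℝ} {u v : 𝓞 K} (h : Adm M C s t u v) : Adm M C t s v u := by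
  refine ⟨h.v0, h.u0, h.vle, h.vge, h.ule, h.uge, h.sqv, h.squ, ?_⟩
  rw [Ideal.span_pair_comm]
  exact h.cop

theorem dat_swap {F : Type} [Field F] [NumberField F] [Algebra K F] {u v : 𝓞 K} (hu : u ≠ 0)
    (hv : v ≠ 0) {t1 t2 a : F} (h : Dat F u v t1 t2 a) : Dat F v u t2 t1 a := by
  have hu0 : algebraMap K F (u : K) ≠ 0 := by
    rw [Ne, FaithfulSMul.algebraMap_eq_zero_iff]
    exact NumberField.RingOfIntegers.coe_ne_zero_iff.2 hu
  have hv0 : algebraMap K F (v : K) ≠ 0 := by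
    rw [Ne, FaithfulSMul.algebraMap_eq_zero_iff]
    exact NumberField.RingOfIntegers.coe_ne_zero_iff.2 hv
  have hc := h.cub
  have hp := h.prd
  rw [map_mul, map_pow] at hc
  rw [map_mul] at hp
  have ht1 : t1 ≠ 0 := by
    rintro rfl
    rw [zero_pow three_ne_zero] at hc
    exact mul_ne_zero hu0 (pow_ne_zero 2 hv0) hc.symm
  have hc2 : t2 ^ 3 = algebraMap K F ((v : K) * (u : K) ^ 2) := by
    rw [map_mul, map_pow]
    have h1 : t1 ^ 3 * t2 ^ 3 = t1 ^ 3 * (algebraMap K F (v : K) * algebraMap K F (u : K) ^ 2) := by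
      calc t1 ^ 3 * t2 ^ 3 = (t1 * t2) ^ 3 := by ring
        _ = t1 ^ 3 * (algebraMap K F (v : K) * algebraMap K F (u : K) ^ 2) := by
          rw [hp, hc]
          ring
    exact mul_left_cancel₀ (pow_ne_zero 3 ht1) h1
  have ht : t1 = t2 ^ 2 * algebraMap K F (u : K)⁻¹ := by
    rw [map_inv₀]
    have h1 : t1 ^ 2 * (t1 * algebraMap K F (u : K)) = t1 ^ 2 * t2 ^ 2 := by
      calc t1 ^ 2 * (t1 * algebraMap K F (u : K)) = t1 ^ 3 * algebraMap K F (u : K) := by ring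
        _ = (t1 * t2) ^ 2 := by rw [hc, hp]; ring
        _ = t1 ^ 2 * t2 ^ 2 := by ring
    have h2 := mul_left_cancel₀ (pow_ne_zero 2 ht1) h1
    rw [← h2]
    field_simp
  refine ⟨h.deg, ?_, hc2, ?_, h.a0, h.nsq, h.isq⟩
  · rw [eq_top_iff, ← h.gen, IntermediateField.adjoin_simple_le_iff, ht]
    refine mul_mem (pow_mem (IntermediateField.mem_adjoin_simple_self K t2) 2) ?_
    exact algebraMap_mem _ _
  · rw [mul_comm t2 t1, h.prd, mul_comm]

end H88.A4
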