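import Pool.Agent.H88.A4.CSwp

/-!
# [H88 A4 CSum] `CoreBound K` from the fixed size counts

PROOF. `M, C₀, ε` given (`M ≠ 0`), `C₁ = 2 max C₀ 1`, `M₁ = M ^ M`. For `(u, v, a)` in `S` let
`i = ⌊log₂ sz u⌋`, `j = ⌊log₂ sz v⌋` (natural numbers: `sz ≥ 1`). `s = 2^i ≤ sz u < 2 s`, the same for
`t = 2^j`: `Adm M₁ (8 C₁) s t u v` (`adm_of` and monotonicity of the size conditions; `sz ^ 3 ≤ 8 s ^ 3`).
`(s t)^{3 d} ≤ nm (u v) = |N(u v)| ≤ R` (`sz_pow`, `nm` multiplicative, relation of `nm` with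
`Algebra.norm ℤ`). By `fixed_size_all` (with `ε' = ε/4` or `ε d`) each class `(i, j)` has at most
`C' (s t)^{3 d + ε'} ≤ C' R ^ {1 + ε' / (3 d)}` elements; `2 ^ {3 d i} ≤ R`, so `i, j ≤ log₂ R`: at most
`(1 + log₂ R) ^ 2 ≤ C'' R ^ {ε/2}` classes. Sum.
-/

open scoped NumberField

noncomputable section

namespace H88.A4

open H38.ML H63.MA

variable (K : IntermediateField ℚ QBar) [NumberField K]

theorem csum_log {x : ℝ} (hx : 1 ≤ x) :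
    (2 : ℝ) ^ Nat.log 2 ⌊x⌋₊ ≤ x ∧ x ≤ 2 * (2 : ℝ) ^ Nat.log 2 ⌊x⌋₊ := by
  have h0 : ⌊x⌋₊ ≠ 0 := by
    have : 1 ≤ ⌊x⌋₊ := Nat.le_floor (by exact_mod_cast hx)
    omega
  constructor
  · have h1 : 2 ^ Nat.log 2 ⌊x⌋₊ ≤ ⌊x⌋₊ := Nat.pow_log_le_self 2 h0
    have h2 : ((2 ^ Nat.log 2 ⌊x⌋₊ : ℕ) : ℝ) ≤ (⌊x⌋₊ : ℝ) := by exact_mod_cast h1
    have h3 : (⌊x⌋₊ : ℝ) ≤ x := Nat.floor_le (by linarith)
    push_cast at h2
    linarith
  · have h1 : ⌊x⌋₊ < 2 ^ (Nat.log 2 ⌊x⌋₊ + 1) := Nat.lt_pow_succ_log_self (by norm_num) _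
    have h2 : ((⌊x⌋₊ + 1 : ℕ) : ℝ) ≤ ((2 ^ (Nat.log 2 ⌊x⌋₊ + 1) : ℕ) : ℝ) := by exact_mod_cast h1
    have h3 : x < (⌊x⌋₊ : ℝ) + 1 := Nat.lt_floor_add_one x
    push_cast at h2
    rw [pow_succ] at h2
    linarith

theorem csum_R {ε : ℝ} (hε : 0 < ε) {R : ℝ} (hR : 1 ≤ R) :
    ((Nat.log 2 ⌊R⌋₊ + 1 : ℕ) : ℝ) ≤ (1 + 1 / (ε * Real.log 2)) * R ^ ε := by
  have h1 := (csum_log hR).1
  have hl2 : 0 < Real.log 2 := Real.log_pos (by norm_num)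
  have h2 : (Nat.log 2 ⌊R⌋₊ : ℝ) * Real.log 2 ≤ Real.log R := by
    rw [← Real.log_pow]
    exact Real.log_le_log (by positivity) h1
  have h3 : Real.log R ≤ R ^ ε / ε := Real.log_le_rpow_div (by linarith) hε
  have h4 : (1 : ℝ) ≤ R ^ ε := Real.one_le_rpow hR hε.le
  have h5 : (Nat.log 2 ⌊R⌋₊ : ℝ) ≤ 1 / (ε * Real.log 2) * R ^ ε := by
    have h6 : 1 / (ε * Real.log 2) * R ^ ε = R ^ ε / ε / Real.log 2 := by
      field_simp
    rw [h6, le_div_iff₀ hl2]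
    linarith
  push_cast
  linarith

variable {K} in
omit [NumberField K] in
theorem csum_adm {M : ℕ} {C s t s' t' : ℝ} {u v : 𝓞 K} (hC : 0 ≤ C) (hs0 : 0 ≤ s')
    (ht0 : 0 ≤ t') (hs : s' ≤ s) (hs2 : s ≤ 2 * s') (ht : t' ≤ t) (ht2 : t ≤ 2 * t')
    (h : Adm M C s t u v) : Adm M (8 * C) s' t' u v := by
  have e1 : s ^ 3 ≤ 8 * s' ^ 3 := by
    calc s ^ 3 ≤ (2 * s') ^ 3 := pow_le_pow_left₀ (hs0.trans hs) hs2 3
      _ = 8 * s' ^ 3 := by ring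
  have e2 : t ^ 3 ≤ 8 * t' ^ 3 := by
    calc t ^ 3 ≤ (2 * t') ^ 3 := pow_le_pow_left₀ (ht0.trans ht) ht2 3
      _ = 8 * t' ^ 3 := by ring
  have e3 : s' ^ 3 ≤ s ^ 3 := pow_le_pow_left₀ hs0 hs 3
  have e4 : t' ^ 3 ≤ t ^ 3 := pow_le_pow_left₀ ht0 ht 3
  refine ⟨h.u0, h.v0, fun φ => ?_, fun φ => ?_, fun φ => ?_, fun φ => ?_, h.squ, h.sqv, h.cop⟩
  · have := h.ule φ
    nlinarith
  · have := h.uge φ
    have h0 : 0 ≤ C * ‖φ (u : K)‖ := mul_nonneg hC (norm_nonneg _)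
    nlinarith
  · have := h.vle φ
    nlinarith
  · have := h.vge φ
    have h0 : 0 ≤ C * ‖φ (v : K)‖ := mul_nonneg hC (norm_nonneg _)
    nlinarith

theorem core_of (ζ : K) (hζ : IsPrimitiveRoot ζ 3)
    (h1 : ReductionStmt K) (h2 : MainStmt K) (h3 : DegStmt K) (h4 : EZeroStmt K)
    (h5 : EZeroAlgStmt K) : H38.WM.CoreBound K := by
  classical
  intro M C₀ ε hM _ hε
  have hdpos : 0 < Module.finrank ℚ K := Module.finrank_pos
  obtain ⟨d, hd⟩ : ∃ d : ℝ, d = (Module.finrank ℚ K : ℝ) := ⟨_, rfl⟩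
  have hd1 : 1 ≤ d := by
    rw [hd]
    exact_mod_cast hdpos
  obtain ⟨C₁, hC₁⟩ : ∃ C₁ : ℝ, C₁ = max C₀ 1 := ⟨_, rfl⟩
  have hC1 : 1 ≤ C₁ := by
    rw [hC₁]
    exact le_max_right _ _
  obtain ⟨C', hC', hfs⟩ := fixed_size_all K ζ hζ h1 h2 h3 h4 h5 (M ^ M) (pow_ne_zero _ hM)
    (8 * C₁) (by linarith) (3 * d * (ε / 2)) (by positivity)
  obtain ⟨c, hc⟩ : ∃ c : ℝ, c = 1 + 1 / (ε / 4 * Real.log 2) := ⟨_, rfl⟩
  have hl2 : 0 < Real.log 2 := Real.log_pos (by norm_num)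
  have hc0 : 0 ≤ c := by
    rw [hc]
    positivity
  refine ⟨c ^ 2 * C', fun R hR S hS huniq => ?_⟩
  have hR0 : 0 < R := by linarith
  -- sizes
  have hsz : ∀ x ∈ S, 1 ≤ sz K x.1 ∧ 1 ≤ sz K x.2.1 ∧
      (sz K x.1 * sz K x.2.1) ^ (3 * Module.finrank ℚ K) ≤ R := by
    intro x hx
    obtain ⟨hadm, hN, -, -⟩ := hS x hx
    refine ⟨one_le_sz K _ hadm.u0, one_le_sz K _ hadm.v0, ?_⟩
    rw [mul_pow, sz_pow, sz_pow, ← nm_mul, ← map_mul]
    have h6 : nm ((x.1 * x.2.1 : 𝓞 K) : K) =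
        |((Algebra.norm ℤ (x.1 * x.2.1) : ℤ) : ℝ)| := by
      rw [nm_eq, Ideal.absNorm_span_singleton, Nat.cast_natAbs, Int.cast_abs]
    rw [h6]
    exact_mod_cast hN
  have hle : ∀ x ∈ S, sz K x.1 ≤ R ∧ sz K x.2.1 ≤ R := by
    intro x hx
    obtain ⟨hs, ht, hst⟩ := hsz x hx
    have h3 : 3 * Module.finrank ℚ K ≠ 0 := by omega
    have h4 : sz K x.1 * sz K x.2.1 ≤ (sz K x.1 * sz K x.2.1) ^ (3 * Module.finrank ℚ K) :=
      le_self_pow₀ (one_le_mul_of_one_le_of_one_le hs ht) h3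
    constructor <;> nlinarith
  let f : 𝓞 K × 𝓞 K × QBar → ℕ × ℕ := fun x =>
    (Nat.log 2 ⌊sz K x.1⌋₊, Nat.log 2 ⌊sz K x.2.1⌋₊)
  obtain ⟨L, hL⟩ : ∃ L : ℕ, L = Nat.log 2 ⌊R⌋₊ := ⟨_, rfl⟩
  have hmaps : ∀ x ∈ S, f x ∈ Finset.range (L + 1) ×ˢ Finset.range (L + 1) := by
    intro x hx
    obtain ⟨hx1, hx2⟩ := hle x hx
    rw [Finset.mem_product, Finset.mem_range, Finset.mem_range, hL]
    constructor
    · exact Nat.lt_succ_of_le (Nat.log_mono_right (b := 2) (Nat.floor_mono hx1))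
    · exact Nat.lt_succ_of_le (Nat.log_mono_right (b := 2) (Nat.floor_mono hx2))
  have hfib : ∀ b ∈ Finset.range (L + 1) ×ˢ Finset.range (L + 1),
      ((S.filter (fun x => f x = b)).card : ℝ) ≤ C' * R ^ (1 + ε / 2) := by
    rintro ⟨i, j⟩ -
    by_cases hne : (S.filter (fun x => f x = (i, j))).Nonempty
    · obtain ⟨x0, hx0⟩ := hne
      have hpow : ((2 : ℝ) ^ i * (2 : ℝ) ^ j) ^ (3 * Module.finrank ℚ K) ≤ R := by
        obtain ⟨hx0S, hx0f⟩ := Finset.mem_filter.1 hx0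
        obtain ⟨hs, ht, hst⟩ := hsz x0 hx0S
        have hi : Nat.log 2 ⌊sz K x0.1⌋₊ = i := congrArg Prod.fst hx0f
        have hj : Nat.log 2 ⌊sz K x0.2.1⌋₊ = j := congrArg Prod.snd hx0f
        have e1 := (csum_log hs).1
        have e2 := (csum_log ht).1
        rw [hi] at e1
        rw [hj] at e2
        refine le_trans (pow_le_pow_left₀ (by positivity) ?_ _) hst
        exact mul_le_mul e1 e2 (by positivity) (by linarith)
      have h2i : (1 : ℝ) ≤ 2 ^ i := one_le_pow₀ (by norm_num)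
      have h2j : (1 : ℝ) ≤ 2 ^ j := one_le_pow₀ (by norm_num)
      have hcard := hfs ((2 : ℝ) ^ i) ((2 : ℝ) ^ j) (by nlinarith) (by nlinarith)
        (S.filter (fun x => f x = (i, j))) (by
          intro x hx
          obtain ⟨hxS, hxf⟩ := Finset.mem_filter.1 hx
          have hi : Nat.log 2 ⌊sz K x.1⌋₊ = i := congrArg Prod.fst hxf
          have hj : Nat.log 2 ⌊sz K x.2.1⌋₊ = j := congrArg Prod.snd hxf
          obtain ⟨hs, ht, -⟩ := hsz x hxS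
          obtain ⟨e1, e1'⟩ := csum_log hs
          obtain ⟨e2, e2'⟩ := csum_log ht
          rw [hi] at e1 e1'
          rw [hj] at e2 e2'
          have hdat := hS x hxS
          have hadm := adm_of K hM hdat.1
          rw [← hC₁] at hadm
          exact ⟨csum_adm (by linarith) (by positivity) (by positivity) e1 e1' e2 e2' hadm,
            dat_of K hdat⟩) (by
          intro u v a b ha hb hab
          exact huniq u v a b (Finset.mem_filter.1 ha).1 (Finset.mem_filter.1 hb).1 hab)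
      refine hcard.trans (mul_le_mul_of_nonneg_left ?_ hC'.le)
      have h7 : 3 * (Module.finrank ℚ K : ℝ) + 3 * d * (ε / 2) =
          ((3 * Module.finrank ℚ K : ℕ) : ℝ) * (1 + ε / 2) := by
        push_cast
        rw [hd]
        ring
      rw [h7, Real.rpow_mul (by positivity), Real.rpow_natCast]
      exact Real.rpow_le_rpow (by positivity) hpow (by linarith)
    · rw [Finset.not_nonempty_iff_eq_empty] at hne
      rw [hne, Finset.card_empty, Nat.cast_zero]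
      positivity
  have hcardS : (S.card : ℝ) ≤ ((L + 1 : ℕ) : ℝ) ^ 2 * (C' * R ^ (1 + ε / 2)) := by
    rw [Finset.card_eq_sum_card_fiberwise hmaps]
    push_cast
    refine (Finset.sum_le_sum hfib).trans ?_
    rw [Finset.sum_const, Finset.card_product, Finset.card_range, nsmul_eq_mul]
    push_cast
    apply le_of_eq
    ring
  have hLR := csum_R (ε := ε / 4) (by positivity) hR
  rw [← hL, ← hc] at hLR
  have hR4 : 0 ≤ R ^ (ε / 4) := by positivity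
  have hsq : ((L + 1 : ℕ) : ℝ) ^ 2 ≤ (c * R ^ (ε / 4)) ^ 2 :=
    pow_le_pow_left₀ (Nat.cast_nonneg _) hLR 2
  have hexp : (R ^ (ε / 4)) ^ 2 * R ^ (1 + ε / 2) = R ^ (1 + ε) := by
    rw [← Real.rpow_natCast, ← Real.rpow_mul hR0.le, ← Real.rpow_add hR0]
    congr 1
    push_cast
    ring
  calc (S.card : ℝ) ≤ ((L + 1 : ℕ) : ℝ) ^ 2 * (C' * R ^ (1 + ε / 2)) := hcardS
    _ ≤ (c * R ^ (ε / 4)) ^ 2 * (C' * R ^ (1 + ε / 2)) :=
        mul_le_mul_of_nonneg_right hsq (by positivity)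
    _ = c ^ 2 * C' * ((R ^ (ε / 4)) ^ 2 * R ^ (1 + ε / 2)) := by ring
    _ = c ^ 2 * C' * R ^ (1 + ε) := by rw [hexp]

end H88.A4
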