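import Pool.Agent.H88.A4.CSt

/-!
# [H88 A4 CSwp] The same count without `t ≤ s`

PROOF. If `t ≤ s` this is `fixed_size`. If `s < t` exchange `u` and `v`: for `(u, v, a)` in `S` put
`(v, u, a)`; but `Fd K v u` is generated by another cube root `rt K v u` of `v u ^ 2`. Choose: `t2 = u v/t1`
satisfies `t2 ^ 3 = v u ^ 2 = (rt K v u) ^ 3`, so `rt K v u = z t2` with `z ^ 3 = 1` in `QBar`. If `K`
contains a primitive cube root of unity, `z ∈ K` and `Fd K v u = K(rt K v u) = K(t2) = K(t1) =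
Fd K u v` as subfields of `QBar`; new `t1' = z t2 = rt K v u`, `t2' = v u / t1' = z⁻¹ t1`: `Dat` holds.
So `S' = {(v, u, a)}` satisfies the hypotheses of `fixed_size` with `s`, `t` exchanged.
-/

open scoped NumberField

noncomputable section

namespace H88.A4

open H38.ML H63.MA

variable (K : IntermediateField ℚ QBar) [NumberField K]

omit [NumberField K] in
private lemma int_ne (u : 𝓞 K) (hu : u ≠ 0) : (u : K) ≠ 0 := fun h => hu (by exact_mod_cast h)

private lemma swp_cub {F : Type} [Field F] [NumberField F] [Algebra K F] (u v : 𝓞 K) (hu : u ≠ 0)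
    (hv : v ≠ 0) (t1 t2 a : F) (D : Dat F u v t1 t2 a) :
    t2 ^ 3 = algebraMap K F ((v : K) * (u : K) ^ 2) := by
  have hinj := (algebraMap K F).injective
  have h1 : algebraMap K F ((u : K) * (v : K) ^ 2) ≠ 0 := by
    rw [Ne, map_eq_zero_iff _ hinj]
    exact mul_ne_zero (int_ne K u hu) (pow_ne_zero 2 (int_ne K v hv))
  have h2 : t1 ^ 3 * t2 ^ 3 = t1 ^ 3 * algebraMap K F ((v : K) * (u : K) ^ 2) := by
    have h3 : ((u : K) * (v : K)) ^ 3 = ((u : K) * (v : K) ^ 2) * ((v : K) * (u : K) ^ 2) := by ring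
    rw [← mul_pow, D.prd, D.cub, ← map_pow, h3, map_mul]
  exact mul_left_cancel₀ (by rw [D.cub]; exact h1) h2

private lemma swp_dat {F F' : IntermediateField K QBar} [NumberField F] [NumberField F'] (hF : F' = F)
    (u v : 𝓞 K) (hu : u ≠ 0) (hv : v ≠ 0) (t1 t2 a : F) (D : Dat F u v t1 t2 a) (z : K)
    (hz : z ^ 3 = 1) : ∃ t1' t2' a' : F', (t1' : QBar) = algebraMap K QBar z * (t2 : QBar) ∧
      (a' : QBar) = (a : QBar) ∧ Dat F' v u t1' t2' a' := by
  subst hF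
  have hz0 : z ≠ 0 := by
    rintro rfl
    norm_num at hz
  have hinj := (algebraMap K F').injective
  have hz1 : algebraMap K F' z ≠ 0 := by rwa [Ne, map_eq_zero_iff _ hinj]
  have hzz : algebraMap K F' z * algebraMap K F' z⁻¹ = 1 := by
    rw [← map_mul, mul_inv_cancel₀ hz0, map_one]
  have huv : algebraMap K F' ((u : K) * (v : K)) ≠ 0 := by
    rw [Ne, map_eq_zero_iff _ hinj]
    exact mul_ne_zero (int_ne K u hu) (int_ne K v hv)
  have ht2 : t2 ≠ 0 := by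
    intro h
    have := D.prd
    rw [h, mul_zero] at this
    exact huv this.symm
  refine ⟨algebraMap K F' z * t2, algebraMap K F' z⁻¹ * t1, a, ?_, rfl, ⟨D.deg, ?_, ?_, ?_, D.a0, D.nsq,
    D.isq⟩⟩
  · rw [MulMemClass.coe_mul]
    rfl
  · rw [← top_le_iff, ← D.gen, IntermediateField.adjoin_le_iff, Set.singleton_subset_iff]
    have h1 : algebraMap K F' z * t2 ∈ IntermediateField.adjoin K {algebraMap K F' z * t2} :=
      IntermediateField.subset_adjoin K _ (Set.mem_singleton _)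
    have h2 : t1 = algebraMap K F' (z * ((u : K) * (v : K))) * (algebraMap K F' z * t2)⁻¹ := by
      rw [map_mul, ← D.prd]
      field_simp
    rw [SetLike.mem_coe, h2]
    exact mul_mem (IntermediateField.algebraMap_mem _ _) (inv_mem h1)
  · rw [mul_pow, swp_cub K u v hu hv t1 t2 a D, ← map_pow, hz, map_one, one_mul]
  · rw [mul_mul_mul_comm, hzz, one_mul, mul_comm t2 t1, D.prd, mul_comm (u : K)]

private lemma swp_root (ζ : K) (hζ : IsPrimitiveRoot ζ 3) (x y : QBar) (hy : y ≠ 0)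
    (h : x ^ 3 = y ^ 3) : ∃ z : K, z ^ 3 = 1 ∧ x = algebraMap K QBar z * y := by
  have h1 : (x / y) ^ 3 = 1 := by
    rw [div_pow, h, div_self (pow_ne_zero 3 hy)]
  have h2 : IsPrimitiveRoot (algebraMap K QBar ζ) 3 :=
    hζ.map_of_injective (algebraMap K QBar).injective
  obtain ⟨i, -, hi⟩ := h2.eq_pow_of_pow_eq_one h1
  refine ⟨ζ ^ i, ?_, ?_⟩
  · rw [← pow_mul, mul_comm, pow_mul, hζ.pow_eq_one, one_pow]
  · rw [map_pow, hi, div_mul_cancel₀ _ hy]

private lemma swp_fld (ζ : K) (hζ : IsPrimitiveRoot ζ 3) (u v : 𝓞 K) (hu : u ≠ 0) (hv : v ≠ 0)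
    (t1 t2 a : H38.WM.Fd K u v) (ht : (t1 : QBar) = H38.WM.rt K u v)
    (D : Dat (H38.WM.Fd K u v) u v t1 t2 a) : H38.WM.Fd K v u = H38.WM.Fd K u v ∧
      ∃ z : K, z ^ 3 = 1 ∧ H38.WM.rt K v u = algebraMap K QBar z * (t2 : QBar) := by
  have hinj := (algebraMap K QBar).injective
  have hq : (t2 : QBar) ^ 3 = algebraMap K QBar ((v : K) * (u : K) ^ 2) := by
    have := congrArg (fun w : H38.WM.Fd K u v => (w : QBar)) (swp_cub K u v hu hv t1 t2 a D)
    exact this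
  have hr : H38.WM.rt K v u ^ 3 = algebraMap K QBar ((v : K) * (u : K) ^ 2) := by
    rw [H38.WM.rt_pow]
    congr 1
  have hp : (t1 : QBar) * (t2 : QBar) = algebraMap K QBar ((u : K) * (v : K)) := by
    have := congrArg (fun w : H38.WM.Fd K u v => (w : QBar)) D.prd
    exact this
  have h0 : algebraMap K QBar ((u : K) * (v : K)) ≠ 0 := by
    rw [Ne, map_eq_zero_iff _ hinj]
    exact mul_ne_zero (int_ne K u hu) (int_ne K v hv)
  have ht2 : (t2 : QBar) ≠ 0 := by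
    intro h
    rw [h, mul_zero] at hp
    exact h0 hp.symm
  obtain ⟨z, hz, hzr⟩ := swp_root K ζ hζ _ _ ht2 (hr.trans hq.symm)
  refine ⟨le_antisymm ?_ ?_, z, hz, hzr⟩
  · unfold H38.WM.Fd
    rw [IntermediateField.adjoin_le_iff, Set.singleton_subset_iff, SetLike.mem_coe, hzr]
    exact mul_mem (IntermediateField.algebraMap_mem _ _) t2.2
  · have h1 : H38.WM.rt K v u ∈ H38.WM.Fd K v u := by
      unfold H38.WM.Fd
      exact IntermediateField.subset_adjoin K _ (Set.mem_singleton _)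
    have hz0 : algebraMap K QBar z ≠ 0 := by
      rw [Ne, map_eq_zero_iff _ hinj]
      rintro rfl
      norm_num at hz
    have h2 : H38.WM.rt K u v =
        algebraMap K QBar (z * ((u : K) * (v : K))) * (H38.WM.rt K v u)⁻¹ := by
      rw [map_mul, ← hp, hzr, ← ht]
      field_simp
    have h3 : H38.WM.rt K u v ∈ H38.WM.Fd K v u := by
      rw [h2]
      exact mul_mem (IntermediateField.algebraMap_mem _ _) (inv_mem h1)
    show IntermediateField.adjoin K {H38.WM.rt K u v} ≤ _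
    rw [IntermediateField.adjoin_le_iff, Set.singleton_subset_iff]
    exact h3

theorem fixed_size_all (ζ : K) (hζ : IsPrimitiveRoot ζ 3)
    (h1 : ReductionStmt K) (h2 : MainStmt K) (h3 : DegStmt K) (h4 : EZeroStmt K)
    (h5 : EZeroAlgStmt K) (M : ℕ) (hM : M ≠ 0) (C : ℝ) (hC : 1 ≤ C) (ε : ℝ) (hε : 0 < ε) :
    ∃ C' : ℝ, 0 < C' ∧ ∀ s t : ℝ, 1 ≤ C * s → 1 ≤ C * t → ∀ S : Finset (𝓞 K × 𝓞 K × QBar),
      (∀ x ∈ S, Adm M C s t x.1 x.2.1 ∧ ∃ t1 t2 a' : H38.WM.Fd K x.1 x.2.1,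
        (t1 : QBar) = H38.WM.rt K x.1 x.2.1 ∧ (a' : QBar) = x.2.2 ∧
          Dat (H38.WM.Fd K x.1 x.2.1) x.1 x.2.1 t1 t2 a') →
      (∀ u v a b, (u, v, a) ∈ S → (u, v, b) ∈ S →
        (∃ c ∈ H38.WM.Fd K u v, a = b * c ^ 2) → a = b) →
      (S.card : ℝ) ≤ C' * (s * t) ^ (3 * (Module.finrank ℚ K : ℝ) + ε) := by
  classical
  obtain ⟨C', hC', hcount⟩ := fixed_size K h1 h2 h3 h4 h5 M hM C hC ε hε
  refine ⟨C', hC', fun s t hs ht S hS hS2 => ?_⟩
  rcases le_total t s with hts | hst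
  · exact hcount s t ⟨ht, hts⟩ S hS hS2
  · have hinj : Function.Injective (fun x : 𝓞 K × 𝓞 K × QBar => (x.2.1, x.1, x.2.2)) := by
      rintro ⟨a, b, c⟩ ⟨a', b', c'⟩ h
      simp only [Prod.mk.injEq] at h
      exact Prod.ext h.2.1 (Prod.ext h.1 h.2.2)
    have h6 := hcount t s ⟨hs, hst⟩ (S.image fun x => (x.2.1, x.1, x.2.2)) (by
      intro x hx
      rw [Finset.mem_image] at hx
      obtain ⟨⟨u, v, a⟩, hx, rfl⟩ := hx
      obtain ⟨hA, t1, t2, a', e1, e2, D⟩ := hS _ hx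
      simp only at hA e1 e2 D ⊢
      obtain ⟨hF, z, hz, hzr⟩ := swp_fld K ζ hζ u v hA.u0 hA.v0 t1 t2 a' e1 D
      obtain ⟨s1, s2, a2, f1, f2, D'⟩ := swp_dat K hF u v hA.u0 hA.v0 t1 t2 a' D z hz
      exact ⟨⟨hA.v0, hA.u0, hA.vle, hA.vge, hA.ule, hA.uge, hA.sqv, hA.squ, by
        rw [Set.pair_comm]
        exact hA.cop⟩, s1, s2, a2, by rw [f1, hzr], by rw [f2, e2], D'⟩) (by
      intro v u a b ha hb hc
      rw [Finset.mem_image] at ha hb
      obtain ⟨⟨u1, v1, a1⟩, ha, e1⟩ := ha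
      obtain ⟨⟨u2, v2, a2⟩, hb, e2⟩ := hb
      simp only [Prod.mk.injEq] at e1 e2
      obtain ⟨rfl, rfl, rfl⟩ := e1
      obtain ⟨rfl, rfl, rfl⟩ := e2
      obtain ⟨hA, t1, t2, a', e1, e2, D⟩ := hS _ ha
      simp only at hA e1 e2 D
      obtain ⟨hF, -⟩ := swp_fld K ζ hζ _ _ hA.u0 hA.v0 t1 t2 a' e1 D
      obtain ⟨c, hc, h⟩ := hc
      exact hS2 _ _ _ _ ha hb ⟨c, by rwa [← hF], h⟩)
    rw [Finset.card_image_of_injective _ hinj, mul_comm t s] at h6
    exact h6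

end H88.A4
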