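import Pool.Agent.H88.A4.RDis
import Pool.Agent.H88.A4.Iface2

/-!
# [H88 A4 R2Dis] Stage 2: the discriminant of `F` from that of `F' = F M`

`discr_tower`: `|disc F| ^ 2 ≤ |disc F'|` for a quadratic extension `F' / F` of number fields: `|disc F'| =
N(𝔇(F'/ℚ))`, `𝔇(F'/ℚ) = 𝔇(F/ℚ) 𝔇(F'/F)` (`differentIdeal` tower formula of Mathlib, absolute norms,
`Ideal.absNorm` of an extended ideal is the power `[F' : F]`), and `N(𝔇(F'/F)) ≥ 1`.

`discr2_bound`: `F'/M` with the data `Dat2`: `Dat F' u (τ u) t1 t2 1` holds over `M` (`a = 1`, `J = 1`), so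
`discr_bound` gives `|disc F'| ≤ C nm (u τ(u)) ^ 2 ≤ C (C s ^ 3) ^ {4 · 2d}`; `[F' : F] = 2` (`[F' : k] = 6`).
So `|disc F| ≤ C' s ^ {12 d}`, `d = [k : ℚ]`.
-/

open scoped NumberField

noncomputable section

namespace H88.A4

theorem discr_tower (F F' : Type) [Field F] [NumberField F] [Field F'] [NumberField F']
    [Algebra F F'] (h : Module.finrank F F' = 2) :
    (NumberField.discr F : ℝ) ^ 2 ≤ |(NumberField.discr F' : ℝ)| := by
  have h1 := NumberField.natAbs_discr_eq_absNorm_differentIdeal_mul_natAbs_discr_pow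
    F (𝓞 F) F' (𝓞 F')
  rw [h] at h1
  have h2 : (NumberField.discr F').natAbs ≠ 0 := by
    rw [Ne, Int.natAbs_eq_zero]
    exact NumberField.discr_ne_zero F'
  have h3 : 1 ≤ Ideal.absNorm (differentIdeal (𝓞 F) (𝓞 F')) := by
    rw [Nat.one_le_iff_ne_zero]
    intro h4
    rw [h4, zero_mul] at h1
    exact h2 h1
  have h4 : (NumberField.discr F).natAbs ^ 2 ≤ (NumberField.discr F').natAbs := by
    rw [h1]
    exact Nat.le_mul_of_pos_left _ h3
  have h5 : ((NumberField.discr F).natAbs : ℝ) ^ 2 ≤ ((NumberField.discr F').natAbs : ℝ) := by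
    exact_mod_cast h4
  rw [Nat.cast_natAbs, Nat.cast_natAbs, Int.cast_abs, Int.cast_abs, sq_abs] at h5
  exact h5

variable (k M : Type) [Field k] [NumberField k] [Field M] [NumberField M] [Algebra k M]

theorem discr2_bound (τ : M ≃ₐ[k] M) (hτ : Invo k M τ) (m : ℕ) (hm : m ≠ 0) (C : ℝ) (hC : 1 ≤ C) :
    ∃ C' : ℝ, 0 < C' ∧ ∀ s : ℝ, 1 ≤ C * s → ∀ u : 𝓞 M, Adm m C s s u (tO τ u) →
    ∀ (F F' : Type) [Field F] [NumberField F] [Algebra k F] [Field F'] [NumberField F']
      [Algebra k F'] [Algebra M F'] [Algebra F F'] [IsScalarTower k M F'] [IsScalarTower k F F']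
      (t1 t2 : F') (a : F), Dat2 τ F F' u t1 t2 a →
      |(NumberField.discr F : ℝ)| ≤ C' * s ^ (12 * Module.finrank ℚ k) := by
  obtain ⟨K1, hK1⟩ : ∃ K1 : ℝ, K1 = |(NumberField.discr M : ℝ)| ^ 3 *
    27 ^ Module.finrank ℚ M * (m : ℝ) ^ (3 * Module.finrank ℚ M) * (C ^ (4 * Module.finrank ℚ k)) ^ 2 :=
    ⟨_, rfl⟩
  have hdM : Module.finrank ℚ M = 2 * Module.finrank ℚ k := by
    rw [← Module.finrank_mul_finrank ℚ k M, hτ.deg, mul_comm]
  have hC0 : 0 < C := by linarith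
  have hK1pos : 0 ≤ K1 := by
    rw [hK1]
    positivity
  refine ⟨Real.sqrt K1 + 1, by positivity, ?_⟩
  intro s hs u hA F F' _ _ _ _ _ _ _ _ _ _ t1 t2 a hD
  have hs0 : 0 < s := by
    by_contra hc
    push Not at hc
    nlinarith
  have hF2 : Module.finrank F F' = 2 := by
    have h1 := Module.finrank_mul_finrank k F F'
    have h2 := Module.finrank_mul_finrank k M F'
    rw [hD.deg] at h1
    rw [hτ.deg, hD.deg'] at h2
    omega
  have hDat : Dat F' u (tO τ u) t1 t2 1 :=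
    { deg := hD.deg'
      gen := hD.gen
      cub := hD.cub
      prd := hD.prd
      a0 := one_ne_zero
      nsq := by
        rw [map_one]
        exact IsSquare.one
      isq := ⟨1, by rw [FractionalIdeal.spanSingleton_one, one_pow]⟩ }
  have h1 := discr_bound m hm hA hDat
  have h2 : nm ((u : M) * ((tO τ u : 𝓞 M) : M)) ≤ C ^ (4 * Module.finrank ℚ k) *
      s ^ (12 * Module.finrank ℚ k) := by
    unfold nm
    calc ∏ φ : M →+* ℂ, ‖φ ((u : M) * ((tO τ u : 𝓞 M) : M))‖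
        ≤ ∏ φ : M →+* ℂ, (C * s ^ 3) * (C * s ^ 3) := by
          refine Finset.prod_le_prod (fun φ _ => norm_nonneg _) fun φ _ => ?_
          rw [map_mul, norm_mul]
          exact mul_le_mul (hA.ule φ) (hA.vle φ) (norm_nonneg _) (by positivity)
      _ = ((C * s ^ 3) * (C * s ^ 3)) ^ Module.finrank ℚ M := by
          rw [Finset.prod_const, Finset.card_univ, NumberField.Embeddings.card]
      _ = C ^ (4 * Module.finrank ℚ k) * s ^ (12 * Module.finrank ℚ k) := by
          rw [hdM, show (C * s ^ 3) * (C * s ^ 3) = C ^ 2 * s ^ 6 by ring, mul_pow, ← pow_mul,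
            ← pow_mul]
          congr 2 <;> ring
  have h2' : 0 ≤ nm ((u : M) * ((tO τ u : 𝓞 M) : M)) := Finset.prod_nonneg fun φ _ => norm_nonneg _
  have h3 : |(NumberField.discr F' : ℝ)| ≤ K1 * (s ^ (12 * Module.finrank ℚ k)) ^ 2 := by
    refine h1.trans ?_
    rw [hK1, mul_assoc _ ((C ^ (4 * Module.finrank ℚ k)) ^ 2), ← mul_pow]
    exact mul_le_mul_of_nonneg_left (pow_le_pow_left₀ h2' h2 2) (by positivity)
  have h4 := (discr_tower F F' hF2).trans h3
  have hS : 0 ≤ s ^ (12 * Module.finrank ℚ k) := by positivity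
  have h5 : |(NumberField.discr F : ℝ)| ≤ Real.sqrt K1 * s ^ (12 * Module.finrank ℚ k) := by
    refine abs_le_of_sq_le_sq' ?_ (by positivity) |> fun h => abs_le.2 h
    rw [mul_pow, Real.sq_sqrt hK1pos]
    exact h4
  refine h5.trans ?_
  nlinarith

end H88.A4
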