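import Pool.Agent.H88.A4.RFin
import Pool.Agent.H88.A4.R2Dis
import Pool.Agent.H67.WA.D1

/-!
# [H88 A4 R2Fin] Stage 2: the reduction over `k`

PROOF. Like `RFin.lean` (`redField`), with the lattice of `F` over `𝓞 k` and the coordinates of
`F' = M(t1)` over `M`; `X = s ^ 6`. `Dat F' u (τ u) t1 t2 1` holds over `M` (all fields from `Dat2`, `a = 1`,
`J = 1`), so `coord_int`, `coord_size` apply to every `z` of `F'`. Apply `MinkStmt k` to `F`, weights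
`w φ = |φ a|^{1/2}` and `L = J⁻¹`: `x_0, x_1, x_2` in `L`, `l0 ≤ l1 ≤ l2`,
`(l0 l1 l2)^d ≤ C |disc F|^{1/2} ≤ C s^{6d}` (`discr2_bound`). `ρ_i = l_{i-1} / s^2`: `Rho`.
`a x_i x_j` is integral in `F`, hence in `F'`; `m1 a x_i x_j = A_ij + B_ij t1 + C_ij t2` in `F'`,
`m1 = 3 m ^ 6`, `A, B, C` in `𝓞 M`, `C_ij = τ(B_ij)` (`Dat2.cnj`). For `ψ : M →+* ℂ` and `φ' : F' →+* ℂ` over
`ψ`, `φ'` restricted to `F` is an embedding `φ` of `F`, `|φ'(a x_i x_j)| ≤ l_i l_j`; `coord_size` gives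
`|ψ B_ij| ≤ C s ρ_i ρ_j`. `β = (B_00, B_01, B_11, C_00, C_01, C_11)`, `π = (B_02, B_12, C_02, C_12)`,
`r = B_22`, `r' = C_22`: `Cj`. `det_pencil` over `M` (`x_i` are independent over `M` by `Dat2.ind`):
`κ₀`; `u' = κ₀ u = det B`, `τ(u') = det C = κ₀ τ(u)`; `κ = m κ₀`, `l = m`. `|κ₀|` is bounded as in `RFin`.
`Adm`: `adm_scale`. `zz_square` with `Dat2.nsq'`. `B_00 ≠ 0`: otherwise `C_00 = 0` and
`m1 a x_0 ^ 2 ∈ M`, contradiction with `no_iso` over `M`. Polynomial bound as in `RFin`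
(`B_00 ≠ 0`). CASES: `s ≤ s0`: third case. Otherwise `D1 ≠ 0` by `Pool.Agent.H67.WA.d1_ne` (with `t = s`,
`v = τ u`). `E = 0`: `EZ2` (`|D1| ≤ 2 (C s ρ1 ρ2)^2 ≤ C' s ^ 2`). `E ≠ 0`: `Main2`.
-/

open scoped NumberField nonZeroDivisors

noncomputable section

namespace H88.A4

private theorem r2_prod_norm {F : Type} [Field F] [NumberField F] (x : F) :
    ∏ φ : F →+* ℂ, ‖φ x‖ = |((Algebra.norm ℚ x : ℚ) : ℝ)| := by
  have h := Algebra.norm_eq_prod_embeddings ℚ ℂ x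
  have h2 : ‖(algebraMap ℚ ℂ) (Algebra.norm ℚ x)‖ = ∏ σ : F →ₐ[ℚ] ℂ, ‖σ x‖ := by
    rw [h, norm_prod]
  have h3 : ∏ φ : F →+* ℂ, ‖φ x‖ = ∏ σ : F →ₐ[ℚ] ℂ, ‖σ x‖ :=
    Fintype.prod_equiv (RingHom.equivRatAlgHom F ℂ) _ _ (fun φ => rfl)
  rw [h3, ← h2, eq_ratCast, Complex.norm_ratCast]

private theorem r2_prod_one {F : Type} [Field F] [NumberField F] {a : F} (ha : a ≠ 0)
    {J : FractionalIdeal (𝓞 F)⁰ F} (h : FractionalIdeal.spanSingleton (𝓞 F)⁰ a = J ^ 2) :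
    ((FractionalIdeal.absNorm J⁻¹ : ℚ) : ℝ) * ∏ φ : F →+* ℂ, Real.sqrt ‖φ a‖ = 1 := by
  have h1 : (FractionalIdeal.absNorm J) ^ 2 = |Algebra.norm ℚ a| := by
    rw [← map_pow, ← h, FractionalIdeal.absNorm_span_singleton]
  have h2 : ((FractionalIdeal.absNorm J : ℚ) : ℝ) ^ 2 = ∏ φ : F →+* ℂ, ‖φ a‖ := by
    rw [r2_prod_norm]
    exact_mod_cast h1
  have hJ : J ≠ 0 := by
    rintro rfl
    rw [zero_pow two_ne_zero, FractionalIdeal.spanSingleton_eq_zero_iff] at h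
    exact ha h
  have h3 : (0 : ℝ) < ((FractionalIdeal.absNorm J : ℚ) : ℝ) := by
    have : (0 : ℚ) ≤ FractionalIdeal.absNorm J := FractionalIdeal.absNorm_nonneg J
    have h4 : FractionalIdeal.absNorm J ≠ 0 := by
      rw [Ne, FractionalIdeal.absNorm_eq_zero_iff]
      exact hJ
    exact_mod_cast lt_of_le_of_ne this (Ne.symm h4)
  have h5 : (∏ φ : F →+* ℂ, Real.sqrt ‖φ a‖) ^ 2 = ∏ φ : F →+* ℂ, ‖φ a‖ := by
    rw [← Finset.prod_pow]
    exact Finset.prod_congr rfl fun φ _ => Real.sq_sqrt (norm_nonneg _)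
  have h6 : (0 : ℝ) ≤ ∏ φ : F →+* ℂ, Real.sqrt ‖φ a‖ :=
    Finset.prod_nonneg fun φ _ => Real.sqrt_nonneg _
  have h7 : ∏ φ : F →+* ℂ, Real.sqrt ‖φ a‖ = ((FractionalIdeal.absNorm J : ℚ) : ℝ) := by
    rw [← h2] at h5
    exact (pow_left_inj₀ h6 h3.le two_ne_zero).1 h5
  rw [h7, map_inv₀]
  push_cast
  exact inv_mul_cancel₀ h3.ne'

private theorem r2_le_of_pow (d : ℕ) (hd : 0 < d) {x y C1 : ℝ} (hx : 0 ≤ x) (hy : 0 ≤ y)
    (h : x ^ d ≤ C1 * y ^ d) : x ≤ max 1 C1 * y := by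
  have h1 : C1 ≤ (max 1 C1) ^ d := by
    have : max 1 C1 ≤ (max 1 C1) ^ d := le_self_pow₀ (le_max_left _ _) hd.ne'
    exact (le_max_right _ _).trans this
  have h2 : x ^ d ≤ (max 1 C1 * y) ^ d := by
    rw [mul_pow]
    exact h.trans (mul_le_mul_of_nonneg_right h1 (pow_nonneg hy d))
  exact (pow_le_pow_iff_left₀ hx (mul_nonneg (zero_le_one.trans (le_max_left _ _)) hy) hd.ne').1 h2

private theorem r2_size1 {X Y L Z C s t : ℝ} (hX : 0 ≤ X) (hL : 0 ≤ L) (hC : 0 < C) (hs : 0 < s)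
    (ht : 0 < t) (h : X * Y ≤ L * Z) (hY : s ^ 3 * t ^ 3 ≤ C ^ 2 * Y) (hZ : Z ≤ C * (s ^ 2 * t)) :
    X ≤ C ^ 3 * s * (L / (s * t) ^ 2) := by
  have h1 : X * (s ^ 3 * t ^ 3) ≤ C ^ 3 * L * (s ^ 2 * t) := by
    calc X * (s ^ 3 * t ^ 3) ≤ X * (C ^ 2 * Y) := mul_le_mul_of_nonneg_left hY hX
      _ = C ^ 2 * (X * Y) := by ring
      _ ≤ C ^ 2 * (L * Z) := mul_le_mul_of_nonneg_left h (by positivity)
      _ ≤ C ^ 2 * (L * (C * (s ^ 2 * t))) := by gcongr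
      _ = C ^ 3 * L * (s ^ 2 * t) := by ring
  have h2 : C ^ 3 * s * (L / (s * t) ^ 2) = C ^ 3 * L * (s ^ 2 * t) / (s ^ 3 * t ^ 3) := by
    field_simp
  rw [h2, le_div_iff₀ (by positivity)]
  exact h1

private theorem r2_cube_root {Z W : ℝ} (hZ : 0 ≤ Z) (hW : 0 ≤ W) (h : Z ≤ W ^ 3) :
    Z ^ (1 / 3 : ℝ) ≤ W := by
  have h1 : Z ^ (1 / 3 : ℝ) ≤ (W ^ 3) ^ (1 / 3 : ℝ) := Real.rpow_le_rpow hZ h (by norm_num)
  have h2 : (W ^ 3) ^ (1 / 3 : ℝ) = W := by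
    rw [← Real.rpow_natCast, ← Real.rpow_mul hW]
    norm_num
  rwa [h2] at h1

private theorem r2_det_le {b : Fin 3 → Fin 3 → ℂ} {c : ℝ} {ρ : Fin 3 → ℝ}
    (h : ∀ i j, ‖b i j‖ ≤ c * (ρ i * ρ j)) (z : ℂ)
    (hz : z = b 2 2 * (b 0 0 * b 1 1 - b 0 1 ^ 2) -
      (b 1 1 * b 0 2 * b 0 2 - b 0 1 * (b 0 2 * b 1 2 + b 1 2 * b 0 2) + b 0 0 * b 1 2 * b 1 2)) :
    ‖z‖ ≤ 6 * c ^ 3 * (ρ 0 * ρ 1 * ρ 2) ^ 2 := by
  have e : z = b 2 2 * b 0 0 * b 1 1 + -(b 2 2 * b 0 1 * b 0 1) + -(b 1 1 * b 0 2 * b 0 2) +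
      b 0 1 * b 0 2 * b 1 2 + b 0 1 * b 1 2 * b 0 2 + -(b 0 0 * b 1 2 * b 1 2) := by
    rw [hz]; ring
  have h3 : ∀ i j k l m n, ‖b i j * b k l * b m n‖ ≤
      (c * (ρ i * ρ j)) * (c * (ρ k * ρ l)) * (c * (ρ m * ρ n)) := by
    intro i j k l m n
    rw [norm_mul, norm_mul]
    have p1 := (norm_nonneg (b i j)).trans (h i j)
    have p2 := (norm_nonneg (b k l)).trans (h k l)
    exact mul_le_mul (mul_le_mul (h i j) (h k l) (norm_nonneg _) p1) (h m n) (norm_nonneg _)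
      (mul_nonneg p1 p2)
  have q1 := h3 2 2 0 0 1 1
  have q2 := h3 2 2 0 1 0 1
  have q3 := h3 1 1 0 2 0 2
  have q4 := h3 0 1 0 2 1 2
  have q5 := h3 0 1 1 2 0 2
  have q6 := h3 0 0 1 2 1 2
  rw [e]
  refine (norm_add_le _ _).trans ?_
  have r5 := norm_add_le (b 2 2 * b 0 0 * b 1 1 + -(b 2 2 * b 0 1 * b 0 1) +
    -(b 1 1 * b 0 2 * b 0 2) + b 0 1 * b 0 2 * b 1 2) (b 0 1 * b 1 2 * b 0 2)
  have r4 := norm_add_le (b 2 2 * b 0 0 * b 1 1 + -(b 2 2 * b 0 1 * b 0 1) +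
    -(b 1 1 * b 0 2 * b 0 2)) (b 0 1 * b 0 2 * b 1 2)
  have r3 := norm_add_le (b 2 2 * b 0 0 * b 1 1 + -(b 2 2 * b 0 1 * b 0 1))
    (-(b 1 1 * b 0 2 * b 0 2))
  have r2 := norm_add_le (b 2 2 * b 0 0 * b 1 1) (-(b 2 2 * b 0 1 * b 0 1))
  rw [norm_neg] at r3 r2
  rw [norm_neg]
  have s1 : (c * (ρ 2 * ρ 2)) * (c * (ρ 0 * ρ 0)) * (c * (ρ 1 * ρ 1)) =
    c ^ 3 * (ρ 0 * ρ 1 * ρ 2) ^ 2 := by ring
  have s2 : (c * (ρ 2 * ρ 2)) * (c * (ρ 0 * ρ 1)) * (c * (ρ 0 * ρ 1)) =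
    c ^ 3 * (ρ 0 * ρ 1 * ρ 2) ^ 2 := by ring
  have s3 : (c * (ρ 1 * ρ 1)) * (c * (ρ 0 * ρ 2)) * (c * (ρ 0 * ρ 2)) =
    c ^ 3 * (ρ 0 * ρ 1 * ρ 2) ^ 2 := by ring
  have s4 : (c * (ρ 0 * ρ 1)) * (c * (ρ 0 * ρ 2)) * (c * (ρ 1 * ρ 2)) =
    c ^ 3 * (ρ 0 * ρ 1 * ρ 2) ^ 2 := by ring
  have s5 : (c * (ρ 0 * ρ 1)) * (c * (ρ 1 * ρ 2)) * (c * (ρ 0 * ρ 2)) =
    c ^ 3 * (ρ 0 * ρ 1 * ρ 2) ^ 2 := by ring
  have s6 : (c * (ρ 0 * ρ 0)) * (c * (ρ 1 * ρ 2)) * (c * (ρ 1 * ρ 2)) =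
    c ^ 3 * (ρ 0 * ρ 1 * ρ 2) ^ 2 := by ring
  rw [s1] at q1
  rw [s2] at q2
  rw [s3] at q3
  rw [s4] at q4
  rw [s5] at q5
  rw [s6] at q6
  linarith

private theorem r2_one_le_of_bd {K : Type} [Field K] [NumberField K] {x : 𝓞 K} (hx : x ≠ 0) {B : ℝ}
    (h : Bd B x) : 1 ≤ B := by
  classical
  by_contra hB
  push Not at hB
  have h1 := one_le_nm K x hx
  have h2 : nm (x : K) < 1 := by
    have hne : (Finset.univ : Finset (K →+* ℂ)).Nonempty := Finset.univ_nonempty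
    obtain ⟨φ, hφ⟩ := hne
    unfold nm
    rw [← Finset.mul_prod_erase _ _ hφ]
    have h3 : ‖φ (x : K)‖ < 1 := (h φ).trans_lt hB
    have h4 : ∏ ψ ∈ Finset.univ.erase φ, ‖ψ (x : K)‖ ≤ 1 :=
      Finset.prod_le_one (fun _ _ => norm_nonneg _) fun ψ _ => ((h ψ).trans_lt hB).le
    calc ‖φ (x : K)‖ * ∏ ψ ∈ Finset.univ.erase φ, ‖ψ (x : K)‖ ≤ ‖φ (x : K)‖ * 1 :=
          mul_le_mul_of_nonneg_left h4 (norm_nonneg _)
      _ < 1 := by rw [mul_one]; exact h3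
  linarith

private theorem r2_exists_int {K : Type} [Field K] [NumberField K] {z : K} (hz : IsIntegral ℤ z) :
    ∃ y : 𝓞 K, (y : K) = z := ⟨⟨z, hz⟩, rfl⟩

/-- The integrality of `a x y`. -/
private theorem r2_int_axx {F : Type} [Field F] [NumberField F] {a : F} (ha : a ≠ 0)
    {J : FractionalIdeal (𝓞 F)⁰ F} (h : FractionalIdeal.spanSingleton (𝓞 F)⁰ a = J ^ 2) {x y : F}
    (hx : x ∈ J⁻¹) (hy : y ∈ J⁻¹) : IsIntegral ℤ (a * x * y) := by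
  have hJ : J ≠ 0 := by
    rintro rfl
    rw [zero_pow two_ne_zero, FractionalIdeal.spanSingleton_eq_zero_iff] at h
    exact ha h
  have h1 : a * x * y ∈ J ^ 2 * J⁻¹ * J⁻¹ := by
    refine FractionalIdeal.mul_mem_mul (FractionalIdeal.mul_mem_mul ?_ hx) hy
    rw [← h]
    exact FractionalIdeal.mem_spanSingleton_self _ _
  have h2 : J ^ 2 * J⁻¹ * J⁻¹ = 1 := by
    rw [sq, mul_assoc J J, mul_inv_cancel₀ hJ, mul_one, mul_inv_cancel₀ hJ]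
  rw [h2, FractionalIdeal.mem_one_iff] at h1
  obtain ⟨z, hz⟩ := h1
  rw [← hz]
  exact z.isIntegral_coe

variable (k M : Type) [Field k] [NumberField k] [Field M] [NumberField M] [Algebra k M]

/-- The data of the reduction. -/
private theorem r2_data (hmk : MinkStmt k) (τ : M ≃ₐ[k] M) (hτ : Invo k M τ) (m : ℕ) (hm : m ≠ 0)
    (C : ℝ) (hC : 1 ≤ C) :
    ∃ C2 : ℝ, 1 ≤ C2 ∧ ∀ s : ℝ, 1 ≤ C * s → ∀ u : 𝓞 M, Adm m C s s u (tO τ u) →
    ∀ (F F' : Type) [Field F] [NumberField F] [Algebra k F] [Field F'] [NumberField F']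
      [Algebra k F'] [Algebra M F'] [Algebra F F'] [IsScalarTower k M F'] [IsScalarTower k F F']
      (t1 t2 : F') (a : F), Dat2 τ F F' u t1 t2 a →
      ∃ (x : Fin 3 → F) (ρ : Fin 3 → ℝ), LinearIndependent k x ∧ 0 < ρ 0 ∧ ρ 0 ≤ ρ 1 ∧
        ρ 1 ≤ ρ 2 ∧ ρ 0 * ρ 1 * ρ 2 ≤ C2 ∧ (∀ i j, IsIntegral ℤ (a * x i * x j)) ∧
        ∀ i j (φ : F →+* ℂ), ‖φ (a * x i * x j)‖ ≤ (s * s) ^ 2 * (ρ i * ρ j) := by
  obtain ⟨C0, hC0, hmk⟩ := hmk
  obtain ⟨Dd, hDd0, hdisc⟩ := discr2_bound k M τ hτ m hm C hC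
  have hd0 : 0 < Module.finrank ℚ k := Module.finrank_pos
  refine ⟨max 1 (C0 * Real.sqrt Dd), le_max_left _ _, ?_⟩
  intro s hs1 u hA F F' _ _ _ _ _ _ _ _ _ _ t1 t2 a hD
  have hC' : 0 < C := by linarith
  have hs : 0 < s := by
    by_contra h
    push Not at h
    nlinarith
  obtain ⟨J, hJ⟩ := hD.isq
  have hJ0 : J ≠ 0 := by
    rintro rfl
    rw [zero_pow two_ne_zero, FractionalIdeal.spanSingleton_eq_zero_iff] at hJ
    exact hD.a0 hJ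
  have hw0 : ∀ φ : F →+* ℂ, 0 < ‖φ a‖ := fun φ =>
    norm_pos_iff.2 ((map_ne_zero φ).2 hD.a0)
  obtain ⟨x, l, hx, hxL, hl0, hl01, hl12, hlx, hprod⟩ := hmk F hD.deg (fun φ => Real.sqrt ‖φ a‖)
    (fun φ => Real.sqrt_pos.2 (hw0 φ))
    (fun φ => by
      rw [NumberField.ComplexEmbedding.conjugate_coe_eq, RCLike.norm_conj]) J⁻¹
    (inv_ne_zero hJ0)
  have hl1 : 0 < l 1 := hl0.trans_le hl01
  have hl2 : 0 < l 2 := hl1.trans_le hl12
  have h1 := r2_prod_one hD.a0 hJ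
  rw [mul_assoc (C0 * _), h1, mul_one] at hprod
  have h2 := hdisc s hs1 u hA F F' t1 t2 a hD
  have h3 : Real.sqrt |(NumberField.discr F : ℝ)| ≤
      Real.sqrt Dd * ((s * s) ^ 3) ^ Module.finrank ℚ k := by
    calc Real.sqrt |(NumberField.discr F : ℝ)| ≤
          Real.sqrt (Dd * s ^ (12 * Module.finrank ℚ k)) := Real.sqrt_le_sqrt h2
      _ = Real.sqrt Dd * ((s * s) ^ 3) ^ Module.finrank ℚ k := by
          rw [Real.sqrt_mul hDd0.le]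
          congr 1
          have e : s ^ (12 * Module.finrank ℚ k) = (((s * s) ^ 3) ^ Module.finrank ℚ k) ^ 2 := by
            rw [← sq, ← pow_mul, ← pow_mul, ← pow_mul]
            congr 1
            ring
          rw [e, Real.sqrt_sq (by positivity)]
  have h5 : (l 0 * l 1 * l 2) ^ Module.finrank ℚ k ≤
      (C0 * Real.sqrt Dd) * ((s * s) ^ 3) ^ Module.finrank ℚ k := by
    calc (l 0 * l 1 * l 2) ^ Module.finrank ℚ k ≤
          C0 * Real.sqrt |(NumberField.discr F : ℝ)| := hprod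
      _ ≤ C0 * (Real.sqrt Dd * ((s * s) ^ 3) ^ Module.finrank ℚ k) :=
          mul_le_mul_of_nonneg_left h3 hC0.le
      _ = _ := by ring
  have h6 := r2_le_of_pow _ hd0 (by positivity) (by positivity) h5
  have hst : 0 < s * s := mul_pos hs hs
  refine ⟨x, fun i => l i / (s * s), hx, div_pos hl0 hst, div_le_div_of_nonneg_right hl01 hst.le,
    div_le_div_of_nonneg_right hl12 hst.le, ?_, fun i j => r2_int_axx hD.a0 hJ (hxL i) (hxL j),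
    fun i j φ => ?_⟩
  · have : l 0 / (s * s) * (l 1 / (s * s)) * (l 2 / (s * s)) =
        l 0 * l 1 * l 2 / (s * s) ^ 3 := by field_simp
    rw [this, div_le_iff₀ (by positivity)]
    exact h6
  · have h7 : (s * s) ^ 2 * (l i / (s * s) * (l j / (s * s))) = l i * l j := by
      field_simp
    rw [h7]
    have h8 : ‖φ (a * x i * x j)‖ =
        (Real.sqrt ‖φ a‖ * ‖φ (x i)‖) * (Real.sqrt ‖φ a‖ * ‖φ (x j)‖) := by
      rw [map_mul, map_mul, norm_mul, norm_mul]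
      have := Real.mul_self_sqrt (norm_nonneg (φ a))
      calc ‖φ a‖ * ‖φ (x i)‖ * ‖φ (x j)‖ =
            (Real.sqrt ‖φ a‖ * Real.sqrt ‖φ a‖) * ‖φ (x i)‖ * ‖φ (x j)‖ := by rw [this]
        _ = _ := by ring
    rw [h8]
    have h9 : 0 ≤ Real.sqrt ‖φ a‖ * ‖φ (x i)‖ := by positivity
    exact mul_le_mul (hlx i φ) (hlx j φ) (by positivity) (h9.trans (hlx i φ))

theorem reduction2 (hmk : MinkStmt k) : Reduction2Stmt k M := by
  intro τ hτ m hm C hC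
  obtain ⟨C2, hC2, hdata⟩ := r2_data k M hmk τ hτ m hm C hC
  have hC0 : 0 < C := by linarith
  have hm1 : (1 : ℝ) ≤ (m : ℝ) := by exact_mod_cast Nat.one_le_iff_ne_zero.2 hm
  set C3 : ℝ := 3 * (m : ℝ) ^ 6 * C ^ 3 with hC3d
  have hC3 : 1 ≤ C3 := by
    have h1 : (1 : ℝ) ≤ (m : ℝ) ^ 6 := one_le_pow₀ hm1
    have h2 : (1 : ℝ) ≤ C ^ 3 := one_le_pow₀ hC
    nlinarith
  have hC30 : 0 < C3 := by linarith
  set C4 : ℝ := 6 * C3 ^ 3 * C2 ^ 2 * C with hC4d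
  have hC4 : 0 < C4 := by positivity
  set Ck : ℝ := m * C4 + m with hCkd
  have hCk : 1 ≤ Ck := by nlinarith
  obtain ⟨M', C5, hM', hC5, hMM', hCC5, hadm⟩ := adm_scale M m hm C Ck hC hCk
  set C' : ℝ := C5 + Ck + C3 + C2 + C3 ^ 3 * C2 ^ 2 + 2 * C3 ^ 2 * C2 ^ 2 with hC'd
  have hpos : 0 ≤ C3 ^ 3 * C2 ^ 2 := by positivity
  have hpos2 : 0 ≤ 2 * C3 ^ 2 * C2 ^ 2 := by positivity
  have hC'1 : 1 ≤ C' := by linarith
  obtain ⟨s0, hs0⟩ := Pool.Agent.H67.WA.d1_ne (K := M) hM' hC'1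
  refine ⟨M', 3, C', s0, hM', hC'1, ?_⟩
  intro s hs1 u hA F F' _ _ _ _ _ _ _ _ _ _ t1 t2 a hD hns
  have hs : 0 < s := by
    by_contra h
    push Not at h
    nlinarith
  have hu : (u : M) ≠ 0 := by
    rw [Ne, NumberField.RingOfIntegers.coe_eq_zero_iff]
    exact hA.u0
  have hv : ((tO τ u : 𝓞 M) : M) ≠ 0 := by
    rw [Ne, NumberField.RingOfIntegers.coe_eq_zero_iff]
    exact hA.v0
  have hDat : Dat F' u (tO τ u) t1 t2 1 :=
    { deg := hD.deg'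
      gen := hD.gen
      cub := hD.cub
      prd := hD.prd
      a0 := one_ne_zero
      nsq := by
        rw [map_one]
        exact IsSquare.one
      isq := ⟨1, by rw [FractionalIdeal.spanSingleton_one, one_pow]⟩ }
  obtain ⟨x0, ρ, hx0, hρ0, hρ01, hρ12, hρ, hint0, hsz0⟩ := hdata s hs1 u hA F F' t1 t2 a hD
  have hρ1 : 0 < ρ 1 := hρ0.trans_le hρ01
  have hρ2 : 0 < ρ 2 := hρ1.trans_le hρ12
  have hρp : ∀ i, 0 < ρ i := by
    intro i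
    fin_cases i
    · exact hρ0
    · exact hρ1
    · exact hρ2
  have hco := fun z => exists_coord hu hv hD.deg' hD.gen hD.cub hD.prd z
  choose c0 c1 c2 hc using hco
  -- the elements over `M`
  obtain ⟨w, hw⟩ : ∃ w : Fin 3 → Fin 3 → F', ∀ i j, w i j = algebraMap F F' (a * x0 i * x0 j) :=
    ⟨_, fun _ _ => rfl⟩
  obtain ⟨x, hxd⟩ : ∃ x : Fin 3 → F', ∀ i, x i = algebraMap F F' (x0 i) := ⟨_, fun _ => rfl⟩
  obtain ⟨a', ha'⟩ : ∃ a', a' = algebraMap F F' a := ⟨_, rfl⟩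
  have hwx : ∀ i j, w i j = a' * x i * x j := by
    intro i j
    rw [hw, hxd, hxd, ha', map_mul, map_mul]
  have hx : LinearIndependent M x := by
    have h1 := hD.ind x0 hx0
    have h2 : (fun i => algebraMap F F' (x0 i)) = x := by
      funext i
      rw [hxd]
    rwa [h2] at h1
  have ha0' : a' ≠ 0 := by
    rw [ha']
    exact (map_ne_zero _).2 hD.a0
  have hnsq' : IsSquare (Algebra.norm M a') := by
    rw [ha']
    exact hD.nsq'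
  rw [← ha'] at hns
  have hint : ∀ i j, IsIntegral ℤ (w i j) := by
    intro i j
    rw [hw]
    exact map_isIntegral_int (algebraMap F F') (hint0 i j)
  have hsz : ∀ i j (φ : F' →+* ℂ), ‖φ (w i j)‖ ≤ (s * s) ^ 2 * (ρ i * ρ j) := by
    intro i j φ
    rw [hw]
    exact hsz0 i j (φ.comp (algebraMap F F'))
  have hci := fun i j => coord_int m hm hA hDat _ (hint i j) _ _ _ (hc _)
  have hbO := fun i j => r2_exists_int (hci i j).2.1
  have hcO := fun i j => r2_exists_int (hci i j).2.2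
  choose b hb using hbO
  choose c hcc using hcO
  have hcj : ∀ i j, ((c i j : 𝓞 M) : M) = τ ((b i j : 𝓞 M) : M) := by
    intro i j
    have h1 := (hD.cnj (a * x0 i * x0 j) (c0 (w i j)) (c1 (w i j)) (c2 (w i j)) (by
      rw [← hw]
      exact hc _)).2
    rw [hb, hcc, h1, map_mul, map_mul, map_pow, map_natCast, map_ofNat]
  have hcb : ∀ i j, c i j = tO τ (b i j) := by
    intro i j
    apply NumberField.RingOfIntegers.coe_injective
    exact hcj i j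
  have hsym : ∀ i j, w i j = w j i := fun i j => by
    rw [hwx, hwx]
    ring
  have hbs : ∀ i j, b i j = b j i := by
    intro i j
    apply NumberField.RingOfIntegers.coe_injective
    show ((b i j : 𝓞 M) : M) = ((b j i : 𝓞 M) : M)
    rw [hb, hb, hsym]
  have hcs : ∀ i j, c i j = c j i := by
    intro i j
    apply NumberField.RingOfIntegers.coe_injective
    show ((c i j : 𝓞 M) : M) = ((c j i : 𝓞 M) : M)
    rw [hcc, hcc, hsym]
  -- sizes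
  have hbsz : ∀ i j (ψ : M →+* ℂ), ‖ψ (b i j : M)‖ ≤ C3 * s * (ρ i * ρ j) := by
    intro i j ψ
    have hpp := mul_pos (hρp i) (hρp j)
    obtain ⟨_, h1, -⟩ := coord_size hA.u0 hA.v0 hDat _ _ _ _ (hc (w i j)) ψ
      ((s * s) ^ 2 * (ρ i * ρ j)) (fun φ _ => hsz i j φ)
    have hul := hA.ule ψ
    have hug := hA.uge ψ
    have hvl := hA.vle ψ
    have hvg := hA.vge ψ
    have hY : s ^ 3 * s ^ 3 ≤ C ^ 2 * ‖ψ ((u : M) * ((tO τ u : 𝓞 M) : M))‖ := by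
      rw [map_mul, norm_mul]
      calc s ^ 3 * s ^ 3 ≤ (C * ‖ψ (u : M)‖) * (C * ‖ψ ((tO τ u : 𝓞 M) : M)‖) :=
            mul_le_mul hug hvg (by positivity) (by positivity)
        _ = _ := by ring
    have hZ1 : ‖ψ ((u : M) ^ 2 * ((tO τ u : 𝓞 M) : M))‖ ^ (1 / 3 : ℝ) ≤ C * (s ^ 2 * s) := by
      refine r2_cube_root (norm_nonneg _) (by positivity) ?_
      rw [map_mul, map_pow, norm_mul, norm_pow]
      calc ‖ψ (u : M)‖ ^ 2 * ‖ψ ((tO τ u : 𝓞 M) : M)‖ ≤ (C * s ^ 3) ^ 2 * (C * s ^ 3) :=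
            mul_le_mul (pow_le_pow_left₀ (norm_nonneg _) hul 2) hvl (norm_nonneg _)
              (by positivity)
        _ = _ := by ring
    have k1 := r2_size1 (norm_nonneg _) (by positivity) hC0 hs hs h1 hY hZ1
    have e0 : (s * s) ^ 2 * (ρ i * ρ j) / (s * s) ^ 2 = ρ i * ρ j := by
      field_simp
    rw [e0] at k1
    have em : ‖ψ (3 * (m : M) ^ 6)‖ = 3 * (m : ℝ) ^ 6 := by
      rw [map_mul, map_pow, map_natCast, map_ofNat, norm_mul, norm_pow, Complex.norm_natCast]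
      norm_num
    rw [hb, map_mul, norm_mul, em]
    calc 3 * (m : ℝ) ^ 6 * ‖ψ (c1 (w i j))‖ ≤
          3 * (m : ℝ) ^ 6 * (C ^ 3 * s * (ρ i * ρ j)) := by gcongr
      _ = _ := by rw [hC3d]; ring
  have hcsz : ∀ i j (ψ : M →+* ℂ), ‖ψ (c i j : M)‖ ≤ C3 * s * (ρ i * ρ j) := by
    intro i j ψ
    have h1 := hbsz i j (ψ.comp (τ : M →+* M))
    rw [hcj]
    exact h1
  -- the pencil
  have hmm : (3 * (m : M) ^ 6) ≠ 0 :=
    mul_ne_zero (by norm_num) (pow_ne_zero _ (by exact_mod_cast hm))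
  have hrel : ∀ i j, algebraMap M F' (3 * (m : M) ^ 6) * a' * x i * x j =
      algebraMap M F' (3 * (m : M) ^ 6 * c0 (w i j)) + algebraMap M F' (b i j : M) * t1 +
        algebraMap M F' (c i j : M) * t2 := by
    intro i j
    rw [hb, hcc]
    have := hc (w i j)
    calc algebraMap M F' (3 * (m : M) ^ 6) * a' * x i * x j =
          algebraMap M F' (3 * (m : M) ^ 6) * (w i j) := by rw [hwx]; ring
      _ = algebraMap M F' (3 * (m : M) ^ 6) * (algebraMap M F' (c0 (w i j)) +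
          algebraMap M F' (c1 (w i j)) * t1 +
            algebraMap M F' (c2 (w i j)) * t2) := by rw [← this]
      _ = _ := by simp only [map_mul]; ring
  let BM : Matrix (Fin 3) (Fin 3) M := fun i j => (b i j : M)
  let CM : Matrix (Fin 3) (Fin 3) M := fun i j => (c i j : M)
  obtain ⟨κ, hκ, hdet⟩ := det_pencil hu hv hD.deg' hD.gen hD.cub hD.prd a' ha0'
    (3 * (m : M) ^ 6) hmm x hx (fun i j => 3 * (m : M) ^ 6 * c0 (w i j)) BM CM hrel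
  have hsol := sol_of_pencil (⟨b 0 0, b 0 1, b 1 1, c 0 0, c 0 1, c 1 1⟩ : Blk M)
    ⟨b 0 2, b 1 2, c 0 2, c 1 2⟩ (b 2 2 : M) (c 2 2 : M) (κ * u) (κ * ((tO τ u : 𝓞 M) : M)) (by
      intro l μ
      have := hdet l μ
      have e : l • BM + μ • CM =
          l • !![(b 0 0 : M), (b 0 1 : M), (b 0 2 : M); (b 0 1 : M), (b 1 1 : M), (b 1 2 : M);
              (b 0 2 : M), (b 1 2 : M), (b 2 2 : M)] +
            μ • !![(c 0 0 : M), (c 0 1 : M), (c 0 2 : M); (c 0 1 : M), (c 1 1 : M), (c 1 2 : M);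
              (c 0 2 : M), (c 1 2 : M), (c 2 2 : M)] := by
        have hBM : ∀ i j, BM i j = (b i j : M) := fun _ _ => rfl
        have hCM : ∀ i j, CM i j = (c i j : M) := fun _ _ => rfl
        ext i j
        fin_cases i <;> fin_cases j <;>
          simp [hBM, hCM, hbs 1 0, hbs 2 0, hbs 2 1, hcs 1 0, hcs 2 0, hcs 2 1]
      rw [e] at this
      rw [this]
      ring)
  clear_value BM CM
  let β : Blk (𝓞 M) := ⟨b 0 0, b 0 1, b 1 1, c 0 0, c 0 1, c 1 1⟩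
  let π : Row (𝓞 M) := ⟨b 0 2, b 1 2, c 0 2, c 1 2⟩
  let u' : 𝓞 M := b 2 2 * β.D1 - β.Ab π.p1 π.p2 π.p1 π.p2
  let v' : 𝓞 M := c 2 2 * β.D3 - β.Ac π.q1 π.q2 π.q1 π.q2
  have hu' : (u' : M) = κ * u := by
    rw [← hsol.e1]
    simp [u', β, π, Blk.D1, Blk.Ab]
  have hv' : (v' : M) = κ * ((tO τ u : 𝓞 M) : M) := by
    rw [← hsol.e4]
    simp [v', β, π, Blk.D3, Blk.Ac]
  have hvt : v' = tO τ u' := by
    apply NumberField.RingOfIntegers.coe_injective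
    show ((v' : 𝓞 M) : M) = τ ((u' : 𝓞 M) : M)
    simp only [v', u', β, π, Blk.D3, Blk.Ac, Blk.D1, Blk.Ab, map_add, map_mul, map_sub, map_pow]
    simp only [hcj]
  have hSol : Sol β π (b 2 2) (c 2 2) u' v' := by
    refine ⟨rfl, ?_, ?_, rfl⟩
    · apply NumberField.RingOfIntegers.coe_injective
      have := hsol.e2
      simp only [Blk.D1, Blk.D2, Blk.Ab, Blk.Ac] at this
      simp only [β, π, Blk.D1, Blk.D2, Blk.Ab, Blk.Ac, map_add, map_mul, map_sub, map_pow,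
        map_ofNat]
      exact this
    · apply NumberField.RingOfIntegers.coe_injective
      have := hsol.e3
      simp only [Blk.D3, Blk.D2, Blk.Ab, Blk.Ac] at this
      simp only [β, π, Blk.D3, Blk.D2, Blk.Ab, Blk.Ac, map_add, map_mul, map_sub, map_pow,
        map_ofNat]
      exact this
  obtain ⟨xx, yy, hxy⟩ := Ideal.mem_span_pair.1 hA.cop
  have hxyK : (xx : M) * u + yy * ((tO τ u : 𝓞 M) : M) = m := by
    have := congrArg (fun z : 𝓞 M => (z : M)) hxy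
    simpa using this
  have hkK : ((xx * u' + yy * v' : 𝓞 M) : M) = κ * m := by
    rw [← hxyK]
    simp only [map_add, map_mul, hu', hv']
    ring
  have hkK' : algebraMap (𝓞 M) M (xx * u' + yy * v') = κ * m := hkK
  have hu'' : algebraMap (𝓞 M) M u' = κ * algebraMap (𝓞 M) M u := hu'
  have hv'' : algebraMap (𝓞 M) M v' = κ * algebraMap (𝓞 M) M (tO τ u) := hv'
  have hMK : (m : M) ≠ 0 := by exact_mod_cast hm
  have hk0 : xx * u' + yy * v' ≠ 0 := by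
    intro h
    rw [h, map_zero] at hkK'
    exact mul_ne_zero hκ hMK hkK'.symm
  have hM0 : (m : 𝓞 M) ≠ 0 := by exact_mod_cast hm
  have e1 : (m : 𝓞 M) * u' = (xx * u' + yy * v') * u := by
    apply NumberField.RingOfIntegers.coe_injective
    show algebraMap (𝓞 M) M ((m : 𝓞 M) * u') = algebraMap (𝓞 M) M ((xx * u' + yy * v') * u)
    rw [map_mul, map_mul, hkK', hu'', map_natCast]
    ring
  have e2 : (m : 𝓞 M) * v' = (xx * u' + yy * v') * tO τ u := by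
    apply NumberField.RingOfIntegers.coe_injective
    show algebraMap (𝓞 M) M ((m : 𝓞 M) * v') =
      algebraMap (𝓞 M) M ((xx * u' + yy * v') * tO τ u)
    rw [map_mul, map_mul, hkK', hv'', map_natCast]
    ring
  -- the size of `κ`
  have hκb : ∀ ψ : M →+* ℂ, ‖ψ κ‖ ≤ C4 := by
    intro ψ
    have h1 := r2_det_le (b := fun i j => ψ (b i j : M)) (c := C3 * s) (ρ := ρ)
      (fun i j => hbsz i j ψ) (ψ (u' : M)) (by
        simp [u', β, π, Blk.D1, Blk.Ab])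
    rw [hu', map_mul, norm_mul] at h1
    have h2 : (ρ 0 * ρ 1 * ρ 2) ^ 2 ≤ C2 ^ 2 := pow_le_pow_left₀ (by positivity) hρ 2
    have h3 := hA.uge ψ
    have h4 : 0 < ‖ψ (u : M)‖ := norm_pos_iff.2 ((map_ne_zero ψ).2 hu)
    have h5 : ‖ψ κ‖ * ‖ψ (u : M)‖ ≤ C4 * ‖ψ (u : M)‖ := by
      calc ‖ψ κ‖ * ‖ψ (u : M)‖ ≤ 6 * (C3 * s) ^ 3 * (ρ 0 * ρ 1 * ρ 2) ^ 2 := h1
        _ ≤ 6 * (C3 * s) ^ 3 * C2 ^ 2 := mul_le_mul_of_nonneg_left h2 (by positivity)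
        _ = 6 * C3 ^ 3 * C2 ^ 2 * s ^ 3 := by ring
        _ ≤ 6 * C3 ^ 3 * C2 ^ 2 * (C * ‖ψ (u : M)‖) := mul_le_mul_of_nonneg_left h3 (by positivity)
        _ = C4 * ‖ψ (u : M)‖ := by rw [hC4d]; ring
    exact le_of_mul_le_mul_right h5 h4
  have hkb : Bd Ck (xx * u' + yy * v') := by
    intro ψ
    rw [hkK, map_mul, norm_mul, map_natCast, Complex.norm_natCast]
    calc ‖ψ κ‖ * (m : ℝ) ≤ C4 * m := mul_le_mul_of_nonneg_right (hκb ψ) (by positivity)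
      _ ≤ Ck := by rw [hCkd]; nlinarith
  have hmb : Bd Ck (m : 𝓞 M) := by
    intro ψ
    show ‖ψ (algebraMap (𝓞 M) M (m : 𝓞 M))‖ ≤ Ck
    rw [map_natCast, map_natCast, Complex.norm_natCast, hCkd]
    have : 0 ≤ (m : ℝ) * C4 := by positivity
    linarith
  have hAdm' := hadm s s u (tO τ u) u' v' _ _ hA hk0 hM0 hkb hmb e1 e2
  have e3 : (m : 𝓞 M) * tO τ u' = (xx * u' + yy * v') * tO τ u := by
    rw [← hvt]
    exact e2
  rw [hvt] at hSol hAdm'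
  -- no isotropic vectors
  have hb00 : b 0 0 ≠ 0 := by
    intro h
    have hc00 : c 0 0 = 0 := by
      apply NumberField.RingOfIntegers.coe_injective
      show ((c 0 0 : 𝓞 M) : M) = ((0 : 𝓞 M) : M)
      rw [hcj, h]
      simp
    have hx0' : x 0 ≠ 0 := hx.ne_zero 0
    refine no_iso hD.deg' a' ha0' hnsq' hns (x 0) hx0' (c0 (w 0 0)) ?_
    have g0 := hrel 0 0
    have hmF : algebraMap M F' (3 * (m : M) ^ 6) ≠ 0 := (map_ne_zero _).2 hmm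
    apply mul_left_cancel₀ hmF
    rw [h, hc00] at g0
    simp only [map_zero, zero_mul, add_zero, map_mul] at g0 ⊢
    linear_combination g0
  have hlow : 1 ≤ C3 * s * (ρ 0 * ρ 0) := r2_one_le_of_bd hb00 fun ψ => hbsz 0 0 ψ
  have hρ2b : ρ 2 ≤ C2 * C3 * s := by
    have h1 : ρ 0 * ρ 0 * ρ 2 ≤ C2 := by
      refine le_trans ?_ hρ
      gcongr
    calc ρ 2 = 1 * ρ 2 := (one_mul _).symm
      _ ≤ C3 * s * (ρ 0 * ρ 0) * ρ 2 := mul_le_mul_of_nonneg_right hlow hρ2.le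
      _ = C3 * s * (ρ 0 * ρ 0 * ρ 2) := by ring
      _ ≤ C3 * s * C2 := mul_le_mul_of_nonneg_left h1 (by positivity)
      _ = C2 * C3 * s := by ring
  have hρle : ∀ i, ρ i ≤ ρ 2 := by
    intro i
    fin_cases i
    · exact hρ01.trans hρ12
    · exact hρ12
    · exact le_rfl
  have hρρ : ∀ i j, C3 * s * (ρ i * ρ j) ≤ Hp C' 3 s := by
    intro i j
    have h1 : ρ i * ρ j ≤ (C2 * C3 * s) * (C2 * C3 * s) :=
      mul_le_mul ((hρle i).trans hρ2b) ((hρle j).trans hρ2b) (hρp j).le (by positivity)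
    have h2 : C3 ^ 3 * C2 ^ 2 ≤ C' := by linarith
    have h3 : C' ≤ C' ^ 3 := le_self_pow₀ hC'1 (by norm_num)
    calc C3 * s * (ρ i * ρ j) ≤ C3 * s * ((C2 * C3 * s) * (C2 * C3 * s)) :=
          mul_le_mul_of_nonneg_left h1 (by positivity)
      _ = (C3 ^ 3 * C2 ^ 2) * s ^ 3 := by ring
      _ ≤ C' ^ 3 * (1 + s) ^ 3 := by
          refine mul_le_mul (h2.trans h3) (pow_le_pow_left₀ hs.le (by linarith) 3)
            (by positivity) (by positivity)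
      _ = Hp C' 3 s := by unfold Hp; rw [mul_pow]
  have hbH : ∀ i j, Bd (Hp C' 3 s) (b i j) := fun i j ψ => (hbsz i j ψ).trans (hρρ i j)
  have hcH : ∀ i j, Bd (Hp C' 3 s) (c i j) := fun i j ψ => (hcsz i j ψ).trans (hρρ i j)
  have hbC : ∀ i j, Bd (C' * s * (ρ i * ρ j)) (b i j) := fun i j ψ =>
    (hbsz i j ψ).trans (by
      have := hρp i
      have := hρp j
      have : C3 ≤ C' := by linarith
      gcongr)
  have hcC : ∀ i j, Bd (C' * s * (ρ i * ρ j)) (c i j) := fun i j ψ =>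
    (hcsz i j ψ).trans (by
      have := hρp i
      have := hρp j
      have : C3 ≤ C' := by linarith
      gcongr)
  have hρ0C2 : ρ 0 ≤ C2 := by
    by_contra h
    push Not at h
    have h1 : 1 ≤ ρ 0 := hC2.trans h.le
    have h2 : ρ 0 ≤ ρ 0 * ρ 1 * ρ 2 := by
      have h3 : 1 ≤ ρ 1 * ρ 2 := one_le_mul_of_one_le_of_one_le (h1.trans hρ01)
        ((h1.trans hρ01).trans hρ12)
      calc ρ 0 = ρ 0 * 1 := (mul_one _).symm
        _ ≤ ρ 0 * (ρ 1 * ρ 2) := mul_le_mul_of_nonneg_left h3 hρ0.le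
        _ = ρ 0 * ρ 1 * ρ 2 := by ring
    linarith
  have hρ11 : ρ 0 * ρ 1 ^ 2 ≤ C2 := by
    calc ρ 0 * ρ 1 ^ 2 = ρ 0 * ρ 1 * ρ 1 := by ring
      _ ≤ ρ 0 * ρ 1 * ρ 2 := mul_le_mul_of_nonneg_left hρ12 (by positivity)
      _ ≤ C2 := hρ
  have hRho : Rho C' (ρ 0) (ρ 1) := ⟨hρ0, hρ01, by linarith, by linarith⟩
  have hSz : Sz C' s s (ρ 0) (ρ 1) β := by
    refine ⟨?_, ?_, ?_, ?_, ?_, ?_⟩
    · have := hbC 0 0
      rwa [← sq] at this
    · exact hbC 0 1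
    · have := hbC 1 1
      rwa [← sq] at this
    · have := hcC 0 0
      rwa [← sq] at this
    · exact hcC 0 1
    · have := hcC 1 1
      rwa [← sq] at this
  have hβCj : β.Cj τ := ⟨hcb 0 0, hcb 0 1, hcb 1 1⟩
  have hπCj : π.Cj τ := ⟨hcb 0 2, hcb 1 2⟩
  have hAdm2 : Adm M' C' s s u' (tO τ u') := adm_mono M dvd_rfl hs hs (by linarith) hAdm'
  have hRep : Rep2 τ (Hp C' 3 s) β u' :=
    ⟨π, b 2 2, c 2 2, hπCj, ⟨hbH 0 2, hbH 1 2, hcH 0 2, hcH 1 2⟩, hSol⟩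
  have hzz := zz_square hu hv hD.deg' hD.gen hD.cub hD.prd a' hnsq' (3 * (m : M) ^ 6) (x 0) (x 1)
    _ _ _ (b 0 0 : M) (b 0 1 : M) (b 1 1 : M) (c 0 0 : M) (c 0 1 : M) (c 1 1 : M)
    (hrel 0 0) (hrel 0 1) (hrel 1 1)
  have hzze : zz u (tO τ u) t1 t2 β = algebraMap M F' ((u : M) * ((tO τ u : 𝓞 M) : M) *
        ((b 0 0 : M) * c 1 1 + b 1 1 * c 0 0 - 2 * b 0 1 * c 0 1)) -
      algebraMap M F' ((u : M) * ((c 0 0 : M) * c 1 1 - (c 0 1 : M) ^ 2)) * t1 -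
      algebraMap M F' (((tO τ u : 𝓞 M) : M) * ((b 0 0 : M) * b 1 1 - (b 0 1 : M) ^ 2)) * t2 := by
    simp only [zz, β, Blk.D1, Blk.D2, Blk.D3, map_mul, map_sub, map_add, map_pow, map_ofNat]
  have hpair : LinearIndependent M ![x 0, x 1] := by
    have h1 := hx.comp (![0, 1] : Fin 2 → Fin 3) (by decide)
    have h2 : x ∘ (![0, 1] : Fin 2 → Fin 3) = ![x 0, x 1] := by
      funext i
      fin_cases i <;> rfl
    rwa [h2] at h1
  refine ⟨xx * u' + yy * v', (m : 𝓞 M), u', β, hk0, hM0, ?_, ?_, e1, e3, hAdm2, hβCj,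
    ⟨hbH 0 0, hbH 0 1, hbH 1 1, hcH 0 0, hcH 0 1, hcH 1 1⟩, hRep, ?_, ?_, ?_⟩
  · exact fun ψ => (hkb ψ).trans (by linarith)
  · exact fun ψ => (hmb ψ).trans (by linarith)
  · rw [hzze]
    exact hzz.2 ha0' hmm hpair
  · rw [hzze, ← ha']
    exact hzz.1
  · rcases le_total s s0 with hss | hss
    · exact Or.inr (Or.inr hss)
    have hD1 : β.D1 ≠ 0 := by
      refine hs0 s s (ρ 0) (ρ 1) ⟨?_, le_rfl⟩ hss hRho u' (tO τ u') β (Hp C' 3 s) hAdm2 hSz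
        ⟨π, b 2 2, c 2 2, ⟨hbH 0 2, hbH 1 2, hcH 0 2, hcH 1 2⟩, hSol⟩ (fun h => hb00 h.1)
      refine hs1.trans (mul_le_mul_of_nonneg_right ?_ hs.le)
      linarith
    by_cases hE : β.E = 0
    · right
      left
      refine ⟨hE, hβCj, hD1, ?_⟩
      intro ψ
      have h1 : ((β.D1 : 𝓞 M) : M) = (b 0 0 : M) * b 1 1 - (b 0 1 : M) ^ 2 := by
        simp only [β, Blk.D1, map_mul, map_sub, map_pow]
      rw [h1, map_sub, map_mul, map_pow]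
      have q1 := hbsz 0 0 ψ
      have q2 := hbsz 1 1 ψ
      have q3 := hbsz 0 1 ψ
      have hr : (ρ 0 * ρ 1) ^ 2 ≤ C2 ^ 2 := by
        calc (ρ 0 * ρ 1) ^ 2 = ρ 0 * (ρ 0 * ρ 1 ^ 2) := by ring
          _ ≤ C2 * C2 := mul_le_mul hρ0C2 hρ11 (by positivity) (by linarith)
          _ = C2 ^ 2 := by ring
      calc ‖ψ (b 0 0 : M) * ψ (b 1 1 : M) - ψ (b 0 1 : M) ^ 2‖
          ≤ ‖ψ (b 0 0 : M) * ψ (b 1 1 : M)‖ + ‖ψ (b 0 1 : M) ^ 2‖ := norm_sub_le _ _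
        _ = ‖ψ (b 0 0 : M)‖ * ‖ψ (b 1 1 : M)‖ + ‖ψ (b 0 1 : M)‖ ^ 2 := by
            rw [norm_mul, norm_pow]
        _ ≤ (C3 * s * (ρ 0 * ρ 0)) * (C3 * s * (ρ 1 * ρ 1)) + (C3 * s * (ρ 0 * ρ 1)) ^ 2 := by
            gcongr
        _ = 2 * C3 ^ 2 * (ρ 0 * ρ 1) ^ 2 * s ^ 2 := by ring
        _ ≤ 2 * C3 ^ 2 * C2 ^ 2 * s ^ 2 := by gcongr
        _ ≤ C' * s ^ 2 := by
            refine mul_le_mul_of_nonneg_right ?_ (by positivity)
            linarith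
    · left
      exact ⟨ρ 0, ρ 1, hRho, hSz, hβCj, hb00, hD1, hE⟩


end H88.A4
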