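import Pool.Agent.H88.A4.Fin1
import Pool.Agent.H88.A4.C2Sum
import Pool.Agent.H88.A4.R2Fin
import Pool.Agent.H67.WA.N2M
import Pool.Agent.H77.CO.Fin2
import Pool.Agent.H12.WM.Alg2
import Pool.Agent.H12.WM.Cnt2
import Pool.Agent.H38.WM.FinW

/-!
# W2: weak Malle for `A_4` in degree 4 over every number field
-/

open scoped NumberField

noncomputable section

namespace H88.A4

open H38.ML H63.MA H38.WM

/-- The core theorem over a number field which does not contain the cube roots of unity. -/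
theorem coreBound2 (K : IntermediateField ℚ QBar) [NumberField K] (M : IntermediateField K QBar)
    [NumberField M] (τ : Gal(M/K)) (ω : M) (H : Om τ ω) : CoreBound2 τ :=
  core2_of τ ω H (reduction2 K M (Pool.Agent.H67.WA.mink K))
    (Pool.Agent.H67.WA.main2_of K M (H77.CO.completions2Stmt K M))
    (Pool.Agent.H12.WM.eZero2 K M) (Pool.Agent.H12.WM.eZeroAlg2 K M)

/-- W2. -/
theorem weak_malle_a4_all (K : IntermediateField ℚ QBar) [NumberField K] (ε : ℝ) (hε : 0 < ε) :
    ∃ C : ℝ, 0 < C ∧ ∀ B : ℝ, 1 ≤ B →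
      Spec.nK K QBar (alternatingGroup (Fin 4)) B ≤ ((⌊C * B ^ (1 / 2 + ε)⌋₊ : ℕ) : ℕ∞) :=
  nkAll K (fun ω hω => coreBound K ω hω)
    (fun M _ τ ω H => coreBound2 K M τ ω H) ε hε

end H88.A4
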