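import Pool.Agent.H88.A4.Fin2
import Pool.Agent.H86.WP.Fin

/-!
# W1+ over every number field: the count of the surjective homomorphisms to `A_4`, and all groups `G` with `G / Z_k(G) ≅ A_4`
-/

set_option autoImplicit false

open scoped NumberField
open NumberField H38.ML H63.MA H38.WM

noncomputable section

namespace H88.A4

/-- At most `C Z^(1+ε)` surjective homomorphisms `Gal(QBar/K) → A_4` with product of the norms of the ramified primes at most `Z`:
every number field `K`. -/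
theorem rb_a4 (K : IntermediateField ℚ QBar) [NumberField K] (Q : DP K QBar) :
    H86.WP.RB Q (alternatingGroup (Fin 4)) := by
  by_cases h : ∃ ω : K, IsPrimitiveRoot ω 3
  · obtain ⟨ω, hω⟩ := h
    exact H86.WP.rb_core ω hω (coreBound K ω hω) Q
  · obtain ⟨M, hM, τ, ω, H⟩ := exM K fun ω hω => h ⟨ω, hω⟩
    obtain ⟨D⟩ := a4_td
    intro ε hε
    obtain ⟨m, C₀, C₁, bad, hm, h6, hC₁, hex⟩ := dt2 τ ω H D Q
    exact gen_ten D Q (Fam2 τ m C₀) (gen2 τ (coreBound2 K M τ ω H) m C₀ hm h6) bad C₁ hex ε hε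

/-- W1+ over every number field. -/
theorem weak_malle_plus {n : ℕ} (hn : 2 ≤ n) (G : Subgroup (Equiv.Perm (Fin n)))
    (hG : MulAction.IsPretransitive G (Fin n)) (k : ℕ)
    (hA : Nonempty (G ⧸ Subgroup.upperCentralSeries G k ≃* alternatingGroup (Fin 4)))
    (K : IntermediateField ℚ QBar) [NumberField K] (ε : ℝ) (hε : 0 < ε) :
    ∃ C : ℝ, 0 < C ∧ ∀ B : ℝ, 1 ≤ B → Spec.nK K QBar G B ≤
      ((⌊C * B ^ (1 / (Spec.indG G : ℝ) + ε)⌋₊ : ℕ) : ℕ∞) :=
  H86.WP.fin hn G hG k hA K (fun Q => rb_a4 K Q) ε hε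

end H88.A4
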