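import Pool.Agent.H88.A4.Iface
import Pool.Agent.H63.MA.SymA

/-!
# [H88 A4 RVal] A valuation lemma

`u`, `v` squarefree and coprime up to `M`, `y1`, `y2` in `K` with `u v y1 y2` and
`u v ^ 2 y1 ^ 3 + u ^ 2 v y2 ^ 3` integral: then `M ^ 6 y1`, `M ^ 6 y2` are integral.

PROOF. Work at one prime `l` of `𝓞 K` with its (additive) valuation `w` and put `m = w(M)`,
`e = w(u v)`, `a = -w(y1)`, `b = -w(y2)` (if `y1 = 0` or `y2 = 0` the claim is simpler: then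
`u ^ 2 v y2 ^ 3` is integral, `3 b ≤ w(u ^ 2 v) ≤ 2 e`). From `squ`, `sqv` (with `I = l ^ j`):
`w(u), w(v) ≤ 2 m + 1`; if `m = 0` then by `cop` not both `w(u), w(v)` are positive, so `e ≤ 1`; in
general `e ≤ 4 m + 2`, so `e ≤ 6 m` if `m ≥ 1`. Claim: `a ≤ e` if `m ≥ 1`, `a ≤ 0` if `m = 0` (the
same for `b` by symmetry); hence `a, b ≤ 6 m`. First hypothesis: `a + b ≤ e`.
Case `m ≥ 1`: if `a > e` then `b < 0`, so `w(u ^ 2 v y2 ^ 3) > 0`, so `w(u v ^ 2 y1 ^ 3) ≥ 0`, i.e.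
`3 a ≤ w(u v ^ 2) ≤ 2 e`, contradiction. Case `m = 0`, `a ≥ 1`: `b ≤ e - a ≤ 0`, so
`w(u ^ 2 v y2 ^ 3) ≥ 0`, so `3 a ≤ w(u v ^ 2) ≤ 2`, contradiction.
Use `IsDedekindDomain.HeightOneSpectrum.valuation` (or the `ord` of H63/MA/Base).
-/

open scoped NumberField

noncomputable section

namespace H88.A4

open H63.MA IsDedekindDomain

variable {K : Type} [Field K] [NumberField K]

private theorem rval_int {x : K} (h : ∀ l : Pl K, l.valuation K x ≤ 1) : IsIntegral ℤ x := by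
  obtain ⟨a, ha⟩ := HeightOneSpectrum.mem_integers_of_valuation_le_one K x h
  rw [← ha]
  exact NumberField.RingOfIntegers.isIntegral_coe a

private theorem rval_le {x : K} (h : IsIntegral ℤ x) (l : Pl K) : l.valuation K x ≤ 1 := by
  obtain ⟨a, ha⟩ : ∃ a : 𝓞 K, algebraMap (𝓞 K) K a = x := ⟨⟨x, h⟩, rfl⟩
  rw [← ha]
  exact HeightOneSpectrum.valuation_le_one l a

private theorem rval_mem (z : 𝓞 K) (z' : Kˣ) (hz : (z' : K) = (z : K)) (l : Pl K) (k : ℕ) :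
    z ∈ l.asIdeal ^ k ↔ (k : ℤ) ≤ ord l z' := by
  have h1 := val_eq l z'
  have h2 : l.valuation K (z' : K) = l.intValuation z := by
    rw [hz]
    exact l.valuation_of_algebraMap z
  rw [← l.intValuation_le_pow_iff_mem, ← h2, h1, WithZero.exp_le_exp, neg_le_neg_iff]

private theorem rval_one (l : Pl K) (M : ℕ) (hM : M ≠ 0) (u v : 𝓞 K) (hu : u ≠ 0) (hv : v ≠ 0)
    (squ : ∀ I : Ideal (𝓞 K), I ^ 2 ∣ Ideal.span {u} → I ∣ Ideal.span {(M : 𝓞 K)})
    (sqv : ∀ I : Ideal (𝓞 K), I ^ 2 ∣ Ideal.span {v} → I ∣ Ideal.span {(M : 𝓞 K)})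
    (cop : (M : 𝓞 K) ∈ Ideal.span {u, v}) (y1 y2 : K)
    (h1 : IsIntegral ℤ ((u : K) * (v : K) * y1 * y2))
    (h2 : IsIntegral ℤ ((u : K) * (v : K) ^ 2 * y1 ^ 3 + (u : K) ^ 2 * (v : K) * y2 ^ 3)) :
    l.valuation K ((M : K) ^ 6 * y1) ≤ 1 := by
  rcases eq_or_ne y1 0 with rfl | hy1
  · rw [mul_zero, map_zero]
    exact zero_le_one
  have hu' : (u : K) ≠ 0 := by
    intro h0
    exact hu (NumberField.RingOfIntegers.ext h0)
  have hv' : (v : K) ≠ 0 := by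
    intro h0
    exact hv (NumberField.RingOfIntegers.ext h0)
  have hM' : (M : K) ≠ 0 := Nat.cast_ne_zero.2 hM
  obtain ⟨U, hU⟩ : ∃ U : Kˣ, (U : K) = (u : K) := ⟨Units.mk0 _ hu', rfl⟩
  obtain ⟨V, hV⟩ : ∃ V : Kˣ, (V : K) = (v : K) := ⟨Units.mk0 _ hv', rfl⟩
  obtain ⟨m, hm⟩ : ∃ m : Kˣ, (m : K) = ((M : 𝓞 K) : K) := ⟨Units.mk0 _ hM', by simp⟩
  obtain ⟨Y, hY⟩ : ∃ Y : Kˣ, (Y : K) = y1 := ⟨Units.mk0 _ hy1, rfl⟩
  have hU0 : 0 ≤ ord l U := by
    have := (rval_mem u U hU l 0).1 (by simp)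
    simpa using this
  have hV0 : 0 ≤ ord l V := by
    have := (rval_mem v V hV l 0).1 (by simp)
    simpa using this
  have hm0 : 0 ≤ ord l m := by
    have := (rval_mem (M : 𝓞 K) m hm l 0).1 (by simp)
    simpa using this
  have key : ∀ (z : 𝓞 K) (Z : Kˣ), (Z : K) = (z : K) → 0 ≤ ord l Z →
      (∀ I : Ideal (𝓞 K), I ^ 2 ∣ Ideal.span {z} → I ∣ Ideal.span {(M : 𝓞 K)}) →
      ord l Z ≤ 2 * ord l m + 1 := by
    intro z Z hZ h0 hsq
    obtain ⟨n, hn⟩ := Int.eq_ofNat_of_zero_le h0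
    have h3 : (l.asIdeal ^ (n / 2)) ^ 2 ∣ Ideal.span {z} := by
      rw [Ideal.dvd_span_singleton, ← pow_mul, rval_mem z Z hZ l, hn]
      have : n / 2 * 2 ≤ n := Nat.div_mul_le_self n 2
      exact_mod_cast this
    have h4 := hsq _ h3
    rw [Ideal.dvd_span_singleton, rval_mem (M : 𝓞 K) m hm l] at h4
    rw [hn]
    have h5 : n < 2 * (n / 2) + 2 := by omega
    have h6 : (n : ℤ) < 2 * ((n / 2 : ℕ) : ℤ) + 2 := by exact_mod_cast h5
    show (n : ℤ) ≤ _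
    linarith
  have hU1 := key u U hU hU0 squ
  have hV1 := key v V hV hV0 sqv
  have hcop : ord l m = 0 → ord l U = 0 ∨ ord l V = 0 := by
    intro h0
    by_contra hcon
    push Not at hcon
    have h3 : u ∈ l.asIdeal := by
      have := (rval_mem u U hU l 1).2 (by push_cast; omega)
      rwa [pow_one] at this
    have h4 : v ∈ l.asIdeal := by
      have := (rval_mem v V hV l 1).2 (by push_cast; omega)
      rwa [pow_one] at this
    have h5 : (M : 𝓞 K) ∈ l.asIdeal := by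
      have h6 : Ideal.span {u, v} ≤ l.asIdeal := by
        rw [Ideal.span_le]
        rintro x (rfl | rfl)
        · exact h3
        · exact h4
      exact h6 cop
    have h6 := (rval_mem (M : 𝓞 K) m hm l 1).1 (by rwa [pow_one])
    rw [h0] at h6
    norm_num at h6
  -- the cubic term
  have hA : l.valuation K ((u : K) ^ 2 * (v : K) * y2 ^ 3) ≤ 1 →
      0 ≤ ord l U + 2 * ord l V + 3 * ord l Y := by
    intro h3
    have h4 : l.valuation K ((u : K) * (v : K) ^ 2 * y1 ^ 3) ≤ 1 := by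
      have h5 : (u : K) * (v : K) ^ 2 * y1 ^ 3 = ((u : K) * (v : K) ^ 2 * y1 ^ 3 +
          (u : K) ^ 2 * (v : K) * y2 ^ 3) - (u : K) ^ 2 * (v : K) * y2 ^ 3 := by ring
      rw [h5]
      exact Valuation.map_sub_le _ (rval_le h2 l) h3
    have h5 : 0 ≤ ord l (U * V ^ 2 * Y ^ 3) := by
      rw [ord_nonneg_iff, Units.val_mul, Units.val_mul, Units.val_pow_eq_pow_val,
        Units.val_pow_eq_pow_val, hU, hV, hY]
      exact h4
    rw [ord_mul, ord_mul, ord_pow, ord_pow] at h5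
    push_cast at h5
    linarith
  have hgoal : 0 ≤ 6 * ord l m + ord l Y := by
    rcases eq_or_ne y2 0 with rfl | hy2
    · have h3 := hA (by rw [zero_pow (by norm_num), mul_zero, map_zero]; exact zero_le_one)
      omega
    obtain ⟨Z, hZ⟩ : ∃ Z : Kˣ, (Z : K) = y2 := ⟨Units.mk0 _ hy2, rfl⟩
    have h3 : 0 ≤ ord l (U * V * Y * Z) := by
      rw [ord_nonneg_iff, Units.val_mul, Units.val_mul, Units.val_mul, hU, hV, hY, hZ]
      exact rval_le h1 l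
    rw [ord_mul, ord_mul, ord_mul] at h3
    by_cases h4 : 0 ≤ 2 * ord l U + ord l V + 3 * ord l Z
    · have h5 := hA (by
        have h6 : 0 ≤ ord l (U ^ 2 * V * Z ^ 3) := by
          rw [ord_mul, ord_mul, ord_pow, ord_pow]
          push_cast
          linarith
        rw [ord_nonneg_iff, Units.val_mul, Units.val_mul, Units.val_pow_eq_pow_val,
          Units.val_pow_eq_pow_val, hU, hV, hZ] at h6
        exact h6)
      omega
    · omega
  have h7 : 0 ≤ ord l (m ^ 6 * Y) := by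
    rw [ord_mul, ord_pow]
    push_cast
    linarith
  rw [ord_nonneg_iff, Units.val_mul, Units.val_pow_eq_pow_val, hm, hY] at h7
  simpa using h7

theorem val_lemma (M : ℕ) (hM : M ≠ 0) (u v : 𝓞 K) (hu : u ≠ 0) (hv : v ≠ 0)
    (squ : ∀ I : Ideal (𝓞 K), I ^ 2 ∣ Ideal.span {u} → I ∣ Ideal.span {(M : 𝓞 K)})
    (sqv : ∀ I : Ideal (𝓞 K), I ^ 2 ∣ Ideal.span {v} → I ∣ Ideal.span {(M : 𝓞 K)})
    (cop : (M : 𝓞 K) ∈ Ideal.span {u, v}) (y1 y2 : K)
    (h1 : IsIntegral ℤ ((u : K) * (v : K) * y1 * y2))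
    (h2 : IsIntegral ℤ ((u : K) * (v : K) ^ 2 * y1 ^ 3 + (u : K) ^ 2 * (v : K) * y2 ^ 3)) :
    IsIntegral ℤ ((M : K) ^ 6 * y1) ∧ IsIntegral ℤ ((M : K) ^ 6 * y2) := by
  refine ⟨rval_int fun l => rval_one l M hM u v hu hv squ sqv cop y1 y2 h1 h2,
    rval_int fun l => rval_one l M hM v u hv hu sqv squ (by rwa [Set.pair_comm]) y2 y1 ?_ ?_⟩
  · have h3 : (v : K) * (u : K) * y2 * y1 = (u : K) * (v : K) * y1 * y2 := by ring
    rwa [h3]
  · have h3 : (v : K) * (u : K) ^ 2 * y2 ^ 3 + (v : K) ^ 2 * (u : K) * y1 ^ 3 =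
        (u : K) * (v : K) ^ 2 * y1 ^ 3 + (u : K) ^ 2 * (v : K) * y2 ^ 3 := by ring
    rwa [h3]

end H88.A4
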