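import Pool.Agent.H88.A4.RCub
import Pool.Agent.H88.A4.RVal

/-!
# [H88 A4 RInt] Coordinates of integers of `F` have bounded denominators

`z = z0 + z1 t1 + z2 t2` integral in `F = K(t1)`: then `3 M ^ 6 z_i` is integral, `i = 0, 1, 2`.

PROOF. `Tr z = 3 z0` is integral. Put `y_i = 3 z_i`. `Tr(z ^ 2) = 3 z0 ^ 2 + 6 u v z1 z2` and
`e2 = (Tr(z)^2 - Tr(z^2))/2 = 3 z0 ^ 2 - 3 u v z1 z2` is integral: it is a coefficient of the
characteristic polynomial of `z` (or: `N(1 + z) = 1 + Tr z + e2 + N z` is integral, and `Tr z`, `N z`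
are, so `e2` is; use `norm_cub` for `z` and `1 + z`). So `3 e2 - (3 z0) ^ 2 = - u v y1 y2` is integral
(`3 e2 = 9 z0 ^ 2 - 9 u v z1 z2`). `27 N(z) = (3 z0)^3 + u v^2 y1^3 + u^2 v y2^3 - 3 (3 z0) u v y1 y2`,
so `u v ^ 2 y1 ^ 3 + u ^ 2 v y2 ^ 3` is integral. Apply `val_lemma`; `M ^ 6 (3 z0)` is integral.
-/

open scoped NumberField

noncomputable section

namespace H88.A4

variable {K : Type} [Field K] [NumberField K] {F : Type} [Field F] [NumberField F] [Algebra K F]

theorem coord_int (M : ℕ) (hM : M ≠ 0) {C s t : ℝ} {u v : 𝓞 K} (hA : Adm M C s t u v)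
    {t1 t2 a : F} (hD : Dat F u v t1 t2 a) (z : F) (hz : IsIntegral ℤ z) (z0 z1 z2 : K)
    (h : z = algebraMap K F z0 + algebraMap K F z1 * t1 + algebraMap K F z2 * t2) :
    IsIntegral ℤ (3 * (M : K) ^ 6 * z0) ∧ IsIntegral ℤ (3 * (M : K) ^ 6 * z1) ∧
      IsIntegral ℤ (3 * (M : K) ^ 6 * z2) := by
  have hu' : (u : K) ≠ 0 := by
    intro h0
    exact hA.u0 (NumberField.RingOfIntegers.ext h0)
  have hv' : (v : K) ≠ 0 := by
    intro h0
    exact hA.v0 (NumberField.RingOfIntegers.ext h0)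
  have hT := Algebra.isIntegral_trace (R := ℤ) (L := K) hz
  have hN := Algebra.isIntegral_norm (R := ℤ) K hz
  have hz1 : IsIntegral ℤ (1 + z) := isIntegral_one.add hz
  have hN1 := Algebra.isIntegral_norm (R := ℤ) K hz1
  have e1 : 1 + z = algebraMap K F (z0 + 1) + algebraMap K F z1 * t1 + algebraMap K F z2 * t2 := by
    rw [h, map_add, map_one]
    ring
  rw [e1, norm_cub hu' hv' hD.deg hD.gen hD.cub hD.prd] at hN1
  rw [h, norm_cub hu' hv' hD.deg hD.gen hD.cub hD.prd] at hN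
  rw [h, trace_cub hu' hv' hD.deg hD.gen hD.cub hD.prd] at hT
  have i3 : IsIntegral ℤ (3 : K) := by
    have := isIntegral_algebraMap (R := ℤ) (A := K) (x := 3)
    simpa using this
  have i9 : IsIntegral ℤ (9 : K) := by
    have := isIntegral_algebraMap (R := ℤ) (A := K) (x := 9)
    simpa using this
  have i27 : IsIntegral ℤ (27 : K) := by
    have := isIntegral_algebraMap (R := ℤ) (A := K) (x := 27)
    simpa using this
  have iM : IsIntegral ℤ ((M : K) ^ 6) := by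
    have := isIntegral_algebraMap (R := ℤ) (A := K) (x := (M : ℤ))
    simp only [algebraMap_int_eq, eq_intCast, Int.cast_natCast] at this
    exact this.pow 6
  -- `e2`
  have i1 := (((hN1.sub isIntegral_one).sub hT).sub hN).mul i3
  have i2 : IsIntegral ℤ ((u : K) * (v : K) * (3 * z1) * (3 * z2)) := by
    have h3 := (hT.pow 2).sub i1
    refine (congrArg (IsIntegral ℤ) ?_).mp h3
    ring
  have i4 : IsIntegral ℤ ((u : K) * (v : K) ^ 2 * (3 * z1) ^ 3 + (u : K) ^ 2 * (v : K) *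
      (3 * z2) ^ 3) := by
    have h3 := ((i27.mul hN).sub (hT.pow 3)).add ((i3.mul hT).mul i2)
    refine (congrArg (IsIntegral ℤ) ?_).mp h3
    ring
  obtain ⟨h5, h6⟩ := val_lemma M hM u v hA.u0 hA.v0 hA.squ hA.sqv hA.cop (3 * z1) (3 * z2) i2 i4
  refine ⟨?_, ?_, ?_⟩
  · refine (congrArg (IsIntegral ℤ) ?_).mp (iM.mul hT)
    ring
  · refine (congrArg (IsIntegral ℤ) ?_).mp h5
    ring
  · refine (congrArg (IsIntegral ℤ) ?_).mp h6
    ring

end H88.A4
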